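import Pool.Agent.NLC.Path

/-!
# NLC / Acyc : the dual is acyclic

First: for `a ∈ D.S` there is no path from `r a` to `l a` in the dual: `cyc_fun` for `a` gives `φ` with
`φ (r a) ≥ φ (l a) + 1`, and `df_mono` along such a path gives `φ (r a) ≤ φ (l a)`.
Let `FS = D.S.image D.l ∪ D.S.image D.r` and `ρ f = #{g ∈ FS | ReflTransGen D.FStep g f}`.  For `a ∈ D.S` the set
of `l a` is contained in the one of `r a`, and `r a` is in the latter but not in the former.
-/

set_option autoImplicit false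

namespace NLC

open Finset Relation
open scoped Classical

variable {V A F : Type}

theorem exists_rank {D : Dg V A F} (hD : D.Dual)
    (h : ∀ a ∈ D.S, ReflTransGen D.VStep (D.h a) (D.t a)) :
    ∃ ρ : F → ℕ, ∀ a ∈ D.S, ρ (D.l a) < ρ (D.r a) := by
  have hno : ∀ a ∈ D.S, ¬ ReflTransGen D.FStep (D.r a) (D.l a) := by
    intro a ha hp
    obtain ⟨φ, hφ, h1⟩ := Dg.cyc_fun hD ha (h a ha)
    have h2 := Dg.df_mono hφ hp
    unfold Dg.df at h1
    linarith
  refine ⟨fun f => ((D.S.image D.l ∪ D.S.image D.r).filter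
    (fun g => ReflTransGen D.FStep g f)).card, fun a ha => ?_⟩
  refine card_lt_card ((ssubset_iff_of_subset ?_).2 ⟨D.r a, ?_, ?_⟩)
  · intro g hg
    rw [mem_filter] at hg ⊢
    exact ⟨hg.1, hg.2.tail (Dg.FStep.of_mem ha)⟩
  · rw [mem_filter]
    exact ⟨mem_union_right _ (mem_image_of_mem _ ha), ReflTransGen.refl⟩
  · rw [mem_filter]
    exact fun h1 => hno a ha h1.2

end NLC
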