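import Pool.Agent.NLC.Basic

/-!
# NLC / Bal : the out-arcs of a vertex with one directed triangle

For a face `f` let `oR f = #{a ∈ S | t a = x, r a = f}`, `iR f = #{a ∈ S | h a = x, r a = f}`,
`oL f = #{a ∈ S | t a = x, l a = f}`, `iL f = #{a ∈ S | h a = x, l a = f}`.
(1) `ortho` with the indicators of `x` and `f`: `oL f + iR f = oR f + iL f` (no loops are needed here:
`(1[h a = x] - 1[t a = x]) * (1[r a = f] - 1[l a = f])`).
(2) For `f ≠ t₀`: `oR f + iR f ≤ 1` (`hent`; an arc is not counted in both, no loops).  So `oR f ≤ oL f`: if `oR f = 1`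
then `iR f = 0` and `oL f = 1 + iL f`.
(3) `oR t₀ = 1` (only `e`), `oL t₀ = 0`.
(4) `∑_f oR f = ∑_f oL f = #{a ∈ S | t a = x}` (sum over a finite set of faces which contains all `l a, r a`).
So `∑_{f ≠ t₀} (oL f - oR f) = 1`, all terms `≥ 0`; `l e ≠ t₀` (`hle`).
(5) Suppose no `e' ∈ S` has `t e' = x`, `r e' = l e`, i.e. `oR (l e) = 0`.  Then `oL (l e) = 1` (by (4), `e` is counted), and
`oL f = oR f` for all `f ≠ t₀, l e`.  Take `a ∈ S`, `t a = x`, `a ≠ e` with `ρ (l a)` minimal (`e₁` is such an arc).  `l a ≠ l e`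
(since `oL (l e) = 1`), `l a ≠ t₀`; so `oR (l a) = oL (l a) ≥ 1`: there is `a' ∈ S` with `t a' = x`,
`r a' = l a`; `a' ≠ e` as `r e = t₀ ≠ l a`; but `ρ (l a') < ρ (r a') = ρ (l a)`: contradiction.
-/

set_option autoImplicit false

namespace NLC

open Finset Relation
open scoped Classical

variable {V A F : Type}

/-- an out-arc of `x` into `f` is followed by an out-arc of `x` leaving `f` -/
private theorem Bal_next {D : Dg V A F} (hD : D.Dual) (hloop : ∀ a ∈ D.S, D.t a ≠ D.h a) {x : V}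
    {t₀ : F} (hlr : ∀ a ∈ D.S, D.l a ≠ D.r a)
    (hent : ∀ a ∈ D.S, ∀ b ∈ D.S, D.Inc a x → D.Inc b x → D.r a = D.r b → D.r a ≠ t₀ → a = b)
    {a : A} (ha : a ∈ D.S) (hax : D.t a = x) (har : D.r a ≠ t₀) :
    ∃ b ∈ D.S, D.t b = x ∧ D.l b = D.r a := by
  by_contra hcon
  push Not at hcon
  have h0 := hD.ortho (fun v => if v = x then 1 else 0) (fun g => if g = D.r a then 1 else 0)
  have hterm : ∀ b ∈ D.S, D.dv (fun v => if v = x then 1 else 0) b *
      D.df (fun g => if g = D.r a then 1 else 0) b ≤ 0 := by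
    intro b hb
    unfold Dg.dv Dg.df
    dsimp only
    by_cases h1 : D.h b = x
    · have h2 : D.t b ≠ x := fun h => hloop b hb (h.trans h1.symm)
      have h3 : D.r b ≠ D.r a := by
        intro h
        have h4 := hent a ha b hb (Or.inl hax) (Or.inr h1) h.symm har
        subst h4
        exact h2 hax
      rw [if_pos h1, if_neg h2, if_neg h3]
      split_ifs <;> norm_num
    · by_cases h2 : D.t b = x
      · have h3 : D.l b ≠ D.r a := hcon b hb h2
        rw [if_neg h1, if_pos h2, if_neg h3]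
        split_ifs <;> norm_num
      · rw [if_neg h1, if_neg h2]
        norm_num
  have hlt : D.dv (fun v => if v = x then 1 else 0) a *
      D.df (fun g => if g = D.r a then 1 else 0) a < 0 := by
    unfold Dg.dv Dg.df
    dsimp only
    have h2 : D.h a ≠ x := fun h => hloop a ha (hax.trans h.symm)
    rw [if_neg h2, if_pos hax, if_pos rfl, if_neg (hlr a ha)]
    norm_num
  have := Finset.sum_lt_sum hterm ⟨a, ha, hlt⟩
  rw [h0] at this
  simp at this

theorem bal {D : Dg V A F} (hD : D.Dual) {ρ : F → ℕ} (hρ : ∀ a ∈ D.S, ρ (D.l a) < ρ (D.r a))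
    (hloop : ∀ a ∈ D.S, D.t a ≠ D.h a) {x : V} {t₀ : F} {e e₁ : A} (he : e ∈ D.S)
    (hex : D.t e = x) (her : D.r e = t₀) (hle : ∀ a ∈ D.S, D.l a ≠ t₀)
    (huniq : ∀ a ∈ D.S, D.t a = x → D.r a = t₀ → a = e)
    (hent : ∀ a ∈ D.S, ∀ b ∈ D.S, D.Inc a x → D.Inc b x → D.r a = D.r b → D.r a ≠ t₀ → a = b)
    (he₁ : e₁ ∈ D.S) (he₁x : D.t e₁ = x) (hne : e₁ ≠ e) :
    ∃ e' ∈ D.S, D.t e' = x ∧ D.r e' = D.l e := by
  by_contra hcon
  push Not at hcon
  have hlr : ∀ a ∈ D.S, D.l a ≠ D.r a := fun a ha h => by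
    have := hρ a ha
    rw [h] at this
    exact lt_irrefl _ this
  set O : Finset A := (D.S.filter (fun a => D.t a = x)).erase e with hO
  have hmem : ∀ a, a ∈ O ↔ a ≠ e ∧ a ∈ D.S ∧ D.t a = x := by
    intro a
    rw [hO, mem_erase, mem_filter]
  have hnt : ∀ a ∈ O, D.r a ≠ t₀ := by
    intro a ha h
    obtain ⟨h1, h2, h3⟩ := (hmem a).mp ha
    exact h1 (huniq a h2 h3 h)
  have hex2 : ∀ a ∈ O, ∃ b ∈ O, D.l b = D.r a := by
    intro a ha
    obtain ⟨h1, h2, h3⟩ := (hmem a).mp ha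
    obtain ⟨b, hb, hbx, hbl⟩ := Bal_next hD hloop hlr hent h2 h3 (hnt a ha)
    refine ⟨b, (hmem b).mpr ⟨?_, hb, hbx⟩, hbl⟩
    rintro rfl
    exact hcon a h2 h3 hbl.symm
  choose! nxt hnxt1 hnxt2 using hex2
  have hinj : Set.InjOn nxt (O : Set A) := by
    intro a ha b hb hab
    have ha' : a ∈ O := ha
    have hb' : b ∈ O := hb
    obtain ⟨_, h2, h3⟩ := (hmem a).mp ha'
    obtain ⟨_, h5, h6⟩ := (hmem b).mp hb'
    refine hent a h2 b h5 (Or.inl h3) (Or.inl h6) ?_ (hnt a ha')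
    rw [← hnxt2 a ha', ← hnxt2 b hb', hab]
  have himg : O.image nxt = O := by
    apply Finset.eq_of_subset_of_card_le
    · intro b hb
      obtain ⟨a, ha, rfl⟩ := mem_image.mp hb
      exact hnxt1 a ha
    · rw [Finset.card_image_of_injOn hinj]
  have hOne : O.Nonempty := ⟨e₁, (hmem e₁).mpr ⟨hne, he₁, he₁x⟩⟩
  obtain ⟨a, ha, hmin⟩ := Finset.exists_min_image O (fun a => ρ (D.l a)) hOne
  rw [← himg] at ha
  obtain ⟨b, hb, hba⟩ := mem_image.mp ha
  have h1 := hmin b hb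
  have h2 := hρ b ((hmem b).mp hb).2.1
  have h3 := hnxt2 b hb
  rw [hba] at h3
  rw [← h3] at h2
  exact absurd h1 (not_le.mpr h2)

end NLC
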