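import Pool.Agent.NLC.Defs

/-!
# NLC / Basic : simple facts
-/

set_option autoImplicit false

namespace NLC

open Finset Relation
open scoped Classical

variable {V A F : Type}

theorem PB.mono {n k : ℕ} (hn : PB V A F n) (hk : k ≤ n) : PB V A F k :=
  fun D s α β γ hc => hn D s α β γ (hc.trans hk)

namespace Dg

variable {D : Dg V A F}

theorem mem_outs {v : V} {a : A} : a ∈ D.outs v ↔ a ∈ D.S ∧ D.t a = v := by
  unfold outs; rw [mem_filter]

theorem mem_ins {v : V} {a : A} : a ∈ D.ins v ↔ a ∈ D.S ∧ D.h a = v := by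
  unfold ins; rw [mem_filter]

theorem mem_inF {f : F} {a : A} : a ∈ D.inF f ↔ a ∈ D.S ∧ D.r a = f := by
  unfold inF; rw [mem_filter]

theorem mem_outF {f : F} {a : A} : a ∈ D.outF f ↔ a ∈ D.S ∧ D.l a = f := by
  unfold outF; rw [mem_filter]

theorem NoDig.loop (h : D.NoDig) {a : A} (ha : a ∈ D.S) : D.t a ≠ D.h a :=
  fun h1 => h a ha a ha ⟨h1, h1.symm⟩

theorem GoodOn.mono {X Y : Finset A} {c : V → Bool} (h : D.GoodOn Y c) (hXY : X ⊆ Y) :
    D.GoodOn X c := by
  intro v hv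
  refine h v (TransGen.mono ?_ v v hv)
  rintro u w ⟨a, ha, h1⟩
  exact ⟨a, hXY ha, h1⟩

theorem GoodOn.flip {X : Finset A} {c : V → Bool} (h : D.GoodOn X c) :
    D.GoodOn X (fun v => !(c v)) := by
  intro v hv
  refine h v (TransGen.mono ?_ v v hv)
  rintro u w ⟨a, ha, h1, h2, h3⟩
  exact ⟨a, ha, h1, h2, by simpa using h3⟩

theorem goodOn_congr {D' : Dg V A F} (ht : D'.t = D.t) (hh : D'.h = D.h) (X : Finset A)
    (c : V → Bool) : D'.GoodOn X c ↔ D.GoodOn X c := by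
  unfold GoodOn MS
  rw [ht, hh]

theorem VStep.of_mem {a : A} (ha : a ∈ D.S) : D.VStep (D.t a) (D.h a) := ⟨a, ha, rfl, rfl⟩

theorem FStep.of_mem {a : A} (ha : a ∈ D.S) : D.FStep (D.l a) (D.r a) := ⟨a, ha, rfl, rfl⟩

theorem Rooted.r {s : F} (h : D.Rooted s) {a : A} (ha : a ∈ D.S) :
    ReflTransGen D.FStep s (D.r a) := (h a ha).tail (FStep.of_mem ha)

/-- a rooted nonempty digraph has an arc with the root on its left -/
theorem Rooted.exists_l {s : F} (h : D.Rooted s) (hne : D.S.Nonempty) : ∃ e ∈ D.S, D.l e = s := by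
  obtain ⟨a, ha⟩ := hne
  rcases ReflTransGen.cases_head (h a ha) with h1 | ⟨g, ⟨e, he, h2, _⟩, _⟩
  · exact ⟨a, ha, h1.symm⟩
  · exact ⟨e, he, h2⟩

/-- a face different from the root, to the left or right of an arc, is entered by an arc -/
theorem Rooted.exists_in {s : F} (h : D.Rooted s) {a : A} (ha : a ∈ D.S) {f : F}
    (hf : D.IncF a f) (hs : f ≠ s) : ∃ e ∈ D.S, D.r e = f := by
  have h1 : ReflTransGen D.FStep s f := by
    rcases hf with rfl | rfl
    · exact h a ha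
    · exact h.r ha
  rcases ReflTransGen.cases_tail h1 with h2 | ⟨g, _, ⟨e, he, _, h3⟩⟩
  · exact absurd h2 hs
  · exact ⟨e, he, h3⟩

/-! ### the outer triangle -/

namespace OutTri

variable {s : F} {α β γ : A}

theorem rot (h : D.OutTri s α β γ) : D.OutTri s β γ α where
  mα := h.mβ
  mβ := h.mγ
  mγ := h.mα
  hα := h.hβ
  hβ := h.hγ
  hγ := h.hα
  lα := h.lβ
  lβ := h.lγ
  lγ := h.lα
  only := fun x hx h1 => by
    rcases h.only x hx h1 with h2 | h2 | h2
    · exact Or.inr (Or.inr h2)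
    · exact Or.inl h2
    · exact Or.inr (Or.inl h2)
  nor := h.nor

theorem tαβ (h : D.OutTri s α β γ) (hn : D.NoDig) : D.t α ≠ D.t β := by
  rw [← h.hα]; exact hn.loop h.mα

theorem tβγ (h : D.OutTri s α β γ) (hn : D.NoDig) : D.t β ≠ D.t γ := h.rot.tαβ hn

theorem tγα (h : D.OutTri s α β γ) (hn : D.NoDig) : D.t γ ≠ D.t α := h.rot.rot.tαβ hn

theorem αβ (h : D.OutTri s α β γ) (hn : D.NoDig) : α ≠ β := fun h1 => h.tαβ hn (by rw [h1])

theorem βγ (h : D.OutTri s α β γ) (hn : D.NoDig) : β ≠ γ := fun h1 => h.tβγ hn (by rw [h1])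

theorem γα (h : D.OutTri s α β γ) (hn : D.NoDig) : γ ≠ α := fun h1 => h.tγα hn (by rw [h1])

end OutTri

/-! ### the mirror image -/

theorem mir_dv (ψ : V → ℚ) (a : A) : D.mir.dv ψ a = - D.dv ψ a := by
  unfold dv mir; simp

theorem mir_df (φ : F → ℚ) (a : A) : D.mir.df φ a = D.df φ a := rfl

theorem mir_dual (h : D.Dual) : D.mir.Dual where
  ortho := fun ψ φ => by
    have := h.ortho ψ φ
    have h2 : ∑ a ∈ D.mir.S, D.mir.dv ψ a * D.mir.df φ a = - ∑ a ∈ D.S, D.dv ψ a * D.df φ a := by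
      rw [← sum_neg_distrib]
      refine sum_congr rfl fun a _ => ?_
      rw [mir_dv, mir_df]; ring
    rw [h2, this, neg_zero]
  circ := fun c hc => by
    refine h.circ c fun ψ => ?_
    have h1 := hc ψ
    have h2 : ∑ a ∈ D.mir.S, c a * D.mir.dv ψ a = - ∑ a ∈ D.S, c a * D.dv ψ a := by
      rw [← sum_neg_distrib]
      refine sum_congr rfl fun a _ => ?_
      rw [mir_dv]; ring
    rw [h2] at h1
    linarith
  cut := fun z hz => by
    obtain ⟨ψ, hψ⟩ := h.cut z hz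
    refine ⟨fun v => - ψ v, fun a ha => ?_⟩
    rw [mir_dv, hψ a ha]
    unfold dv; ring

theorem mir_nodig (h : D.NoDig) : D.mir.NoDig := fun a ha b hb h1 => h a ha b hb ⟨h1.2, h1.1⟩

theorem mir_simp (h : D.Simp) : D.mir.Simp :=
  ⟨mir_nodig h.nodig, fun a ha b hb h1 h2 => h.par a ha b hb h2 h1⟩

theorem mir_rooted {s : F} (h : D.Rooted s) : D.mir.Rooted s := h

theorem mir_outTri {s : F} {α β γ : A} (h : D.OutTri s α β γ) : D.mir.OutTri s γ β α where
  mα := h.mγ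
  mβ := h.mβ
  mγ := h.mα
  hα := h.hβ.symm
  hβ := h.hα.symm
  hγ := h.hγ.symm
  lα := h.lγ
  lβ := h.lβ
  lγ := h.lα
  only := fun x hx h1 => by
    rcases h.only x hx h1 with h2 | h2 | h2
    · exact Or.inr (Or.inr h2)
    · exact Or.inr (Or.inl h2)
    · exact Or.inl h2
  nor := h.nor

theorem mir_goodOn {X : Finset A} {c : V → Bool} : D.mir.GoodOn X c ↔ D.GoodOn X c := by
  have h1 : ∀ u v, D.mir.MS X c u v ↔ D.MS X c v u := by
    intro u v
    constructor
    · rintro ⟨a, ha, h1, h2, h3⟩; exact ⟨a, ha, h2, h1, h3.symm⟩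
    · rintro ⟨a, ha, h1, h2, h3⟩; exact ⟨a, ha, h2, h1, h3.symm⟩
  have h2 : D.mir.MS X c = Function.swap (D.MS X c) := by
    funext u v; exact propext (h1 u v)
  unfold GoodOn
  rw [h2]
  constructor
  · intro h v hv; exact h v (transGen_swap.mpr hv)
  · intro h v hv; exact h v (transGen_swap.mp hv)

theorem mir_inc {a : A} {v : V} : D.mir.Inc a v ↔ D.Inc a v := Or.comm

theorem mir_outs {v : V} : D.mir.outs v = D.ins v := rfl

theorem mir_ins {v : V} : D.mir.ins v = D.outs v := rfl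

theorem mir_triF {f : F} (h : D.TriF f) : D.mir.TriF f := by
  obtain ⟨e₁, h1, e₂, h2, e₃, h3, a1, a2, a3, b1, b2, b3, hx⟩ := h
  refine ⟨e₃, h3, e₂, h2, e₁, h1, a2.symm, a1.symm, a3.symm, b3, b2, b1, ?_⟩
  intro x hxS hxf
  rcases hx x hxS hxf with h | h | h
  · exact Or.inr (Or.inr h)
  · exact Or.inr (Or.inl h)
  · exact Or.inl h

theorem mir_triF_iff {f : F} : D.mir.TriF f ↔ D.TriF f := ⟨fun h => mir_triF h, fun h => mir_triF h⟩

end Dg

namespace MinC

variable {D : Dg V A F} {s : F} {α β γ : A}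

theorem mir (h : MinC D s α β γ) : MinC D.mir s γ β α where
  dual := Dg.mir_dual h.dual
  nodig := Dg.mir_nodig h.nodig
  rooted := Dg.mir_rooted h.rooted
  out := Dg.mir_outTri h.out
  bad := by
    rintro ⟨c, hc, hc2⟩
    exact h.bad ⟨c, Dg.mir_goodOn.mp hc, hc2.symm⟩
  ih := h.ih

theorem card_pos (h : MinC D s α β γ) : 0 < D.S.card := Finset.card_pos.mpr ⟨α, h.out.mα⟩

theorem ih' (h : MinC D s α β γ) : PB V A F (D.S.card - 1) :=
  h.ih _ (Nat.sub_lt h.card_pos one_pos)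

end MinC

end NLC
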