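import Pool.Agent.NLC.Basic

/-!
# NLC / Circ : circuits of length three

`Circuit e₁ e₂ e₃ c`: `c` is a circulation which is `±1` on the three arcs and `0` on the others, and every
circulation with support in the three arcs is a multiple of `c`.

The three vertices are distinct and the three arcs are distinct (`Simp`).  `∑ c a * dv ψ a` is the sum of the three terms
(`Finset.sum_subset` to `{e₁, e₂, e₃}`), it telescopes.  Uniqueness: test `c'` with the indicator functions of the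
vertices.  Directed: `c' e₁ = c' e₂ = c' e₃ = k`.  Transitive (`e₁ : p → q`, `e₂ : q → w`, `e₃ : p → w`): at `q`:
`c' e₁ = c' e₂`; at `p`: `c' e₁ + c' e₃ = 0`.
-/

set_option autoImplicit false

namespace NLC

open Finset Relation
open scoped Classical

variable {V A F : Type}

namespace Dg

structure Circuit (D : Dg V A F) (e₁ e₂ e₃ : A) (c : A → ℚ) : Prop where
  m₁ : e₁ ∈ D.S
  m₂ : e₂ ∈ D.S
  m₃ : e₃ ∈ D.S
  sup : ∀ a ∈ D.S, a ≠ e₁ → a ≠ e₂ → a ≠ e₃ → c a = 0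
  v₁ : c e₁ = 1 ∨ c e₁ = -1
  v₂ : c e₂ = 1 ∨ c e₂ = -1
  v₃ : c e₃ = 1 ∨ c e₃ = -1
  circ : ∀ ψ : V → ℚ, ∑ a ∈ D.S, c a * D.dv ψ a = 0
  uniq : ∀ c' : A → ℚ, (∀ ψ : V → ℚ, ∑ a ∈ D.S, c' a * D.dv ψ a = 0) →
    (∀ a ∈ D.S, a ≠ e₁ → a ≠ e₂ → a ≠ e₃ → c' a = 0) → ∃ k : ℚ, ∀ a ∈ D.S, c' a = k * c a

variable {D : Dg V A F}

private theorem Circ_sum3 {e₁ e₂ e₃ : A} (m₁ : e₁ ∈ D.S) (m₂ : e₂ ∈ D.S) (m₃ : e₃ ∈ D.S)
    (d12 : e₁ ≠ e₂) (d13 : e₁ ≠ e₃) (d23 : e₂ ≠ e₃) (f : A → ℚ)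
    (hf : ∀ a ∈ D.S, a ≠ e₁ → a ≠ e₂ → a ≠ e₃ → f a = 0) :
    ∑ a ∈ D.S, f a = f e₁ + f e₂ + f e₃ := by
  have h1 : ∑ a ∈ ({e₁, e₂, e₃} : Finset A), f a = ∑ a ∈ D.S, f a := by
    refine sum_subset ?_ ?_
    · intro x hx
      simp only [mem_insert, mem_singleton] at hx
      rcases hx with rfl | rfl | rfl
      · exact m₁
      · exact m₂
      · exact m₃
    · intro x hx hx'
      simp only [mem_insert, mem_singleton, not_or] at hx'
      exact hf x hx hx'.1 hx'.2.1 hx'.2.2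
  rw [← h1, sum_insert (by simp [d12, d13]), sum_insert (by simp [d23]), sum_singleton]
  ring

theorem circuit_dir (hS : D.Simp) {e₁ e₂ e₃ : A} (m₁ : e₁ ∈ D.S) (m₂ : e₂ ∈ D.S) (m₃ : e₃ ∈ D.S)
    (h12 : D.h e₁ = D.t e₂) (h23 : D.h e₂ = D.t e₃) (h31 : D.h e₃ = D.t e₁) :
    D.Circuit e₁ e₂ e₃ (fun a => if a = e₁ ∨ a = e₂ ∨ a = e₃ then 1 else 0) := by
  have l1 := hS.nodig.loop m₁
  have l2 := hS.nodig.loop m₂
  have l3 := hS.nodig.loop m₃
  have d12 : e₁ ≠ e₂ := fun h => by rw [← h] at h12; exact l1 h12.symm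
  have d23 : e₂ ≠ e₃ := fun h => by rw [← h] at h23; exact l2 h23.symm
  have d13 : e₁ ≠ e₃ := fun h => by rw [← h] at h31; exact l1 h31.symm
  have s3 := Circ_sum3 m₁ m₂ m₃ d12 d13 d23
  refine ⟨m₁, m₂, m₃, ?_, ?_, ?_, ?_, ?_, ?_⟩
  · intro a _ h1 h2 h3
    simp [h1, h2, h3]
  · left; simp
  · left; simp
  · left; simp
  · intro ψ
    rw [s3 _ (by
      intro a _ h1 h2 h3
      simp [h1, h2, h3])]
    simp only [true_or, or_true, if_true]
    unfold dv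
    rw [h12, h23, h31]
    ring
  · intro c' hc' hsup
    have key : ∀ ψ : V → ℚ, c' e₁ * D.dv ψ e₁ + c' e₂ * D.dv ψ e₂ + c' e₃ * D.dv ψ e₃ = 0 := by
      intro ψ
      rw [← s3 (fun a => c' a * D.dv ψ a) (by
        intro a ha h1 h2 h3
        show c' a * D.dv ψ a = 0
        rw [hsup a ha h1 h2 h3, zero_mul])]
      exact hc' ψ
    -- vertices: p = t e₁ = h e₃, q = h e₁ = t e₂, w = h e₂ = t e₃
    have k1 := key (fun v => if v = D.t e₂ then 1 else 0)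
    have k2 := key (fun v => if v = D.t e₃ then 1 else 0)
    unfold dv at k1 k2
    rw [h12, h23, h31] at k1 k2
    have n1 : D.t e₁ ≠ D.t e₂ := by rw [← h12]; exact l1
    have n2 : D.t e₂ ≠ D.t e₃ := by rw [← h23]; exact l2
    have n3 : D.t e₃ ≠ D.t e₁ := by rw [← h31]; exact l3
    simp only [if_true, if_neg n1, if_neg n2.symm, if_neg n1, if_neg n3, if_neg n2,
      if_neg n3.symm] at k1 k2
    refine ⟨c' e₁, fun a ha => ?_⟩
    show c' a = c' e₁ * (if a = e₁ ∨ a = e₂ ∨ a = e₃ then 1 else 0)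
    by_cases a1 : a = e₁
    · subst a1; simp
    · by_cases a2 : a = e₂
      · subst a2; simp; linarith
      · by_cases a3 : a = e₃
        · subst a3; simp; linarith
        · rw [if_neg (by simp [a1, a2, a3]), hsup a ha a1 a2 a3, mul_zero]

theorem circuit_tr (hS : D.Simp) {e₁ e₂ e₃ : A} (m₁ : e₁ ∈ D.S) (m₂ : e₂ ∈ D.S) (m₃ : e₃ ∈ D.S)
    (h12 : D.h e₁ = D.t e₂) (ht : D.t e₃ = D.t e₁) (hh : D.h e₃ = D.h e₂) :
    D.Circuit e₁ e₂ e₃ (fun a => if a = e₁ ∨ a = e₂ then 1 else if a = e₃ then -1 else 0) := by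
  have l1 := hS.nodig.loop m₁
  have l2 := hS.nodig.loop m₂
  have l3 := hS.nodig.loop m₃
  have d12 : e₁ ≠ e₂ := fun h => by rw [← h] at h12; exact l1 h12.symm
  have d13 : e₁ ≠ e₃ := fun h => by
    have h1 : D.t e₂ = D.h e₂ := by rw [← h12, ← hh, h]
    exact l2 h1
  have d23 : e₂ ≠ e₃ := fun h => by
    have h1 : D.t e₁ = D.h e₁ := by rw [h12, ← ht, h]
    exact l1 h1
  have s3 := Circ_sum3 m₁ m₂ m₃ d12 d13 d23
  refine ⟨m₁, m₂, m₃, ?_, ?_, ?_, ?_, ?_, ?_⟩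
  · intro a _ h1 h2 h3
    simp [h1, h2, h3]
  · left; simp
  · left; simp
  · right; simp [d13.symm, d23.symm]
  · intro ψ
    rw [s3 _ (by
      intro a _ h1 h2 h3
      simp [h1, h2, h3])]
    rw [if_pos (Or.inl rfl), if_pos (Or.inr rfl), if_neg (by simp [d13.symm, d23.symm]), if_pos rfl]
    unfold dv
    rw [h12, ht, hh]
    ring
  · intro c' hc' hsup
    have key : ∀ ψ : V → ℚ, c' e₁ * D.dv ψ e₁ + c' e₂ * D.dv ψ e₂ + c' e₃ * D.dv ψ e₃ = 0 := by
      intro ψ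
      rw [← s3 (fun a => c' a * D.dv ψ a) (by
        intro a ha h1 h2 h3
        show c' a * D.dv ψ a = 0
        rw [hsup a ha h1 h2 h3, zero_mul])]
      exact hc' ψ
    have k1 := key (fun v => if v = D.t e₂ then 1 else 0)
    have k2 := key (fun v => if v = D.t e₁ then 1 else 0)
    unfold dv at k1 k2
    rw [h12, ht, hh] at k1 k2
    have n1 : D.t e₁ ≠ D.t e₂ := by rw [← h12]; exact l1
    have n2 : D.h e₂ ≠ D.t e₂ := l2.symm
    have n3 : D.h e₂ ≠ D.t e₁ := by rw [← hh, ← ht]; exact l3.symm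
    simp only [if_true, if_neg n1, if_neg n1.symm, if_neg n2, if_neg n3] at k1 k2
    refine ⟨c' e₁, fun a ha => ?_⟩
    show c' a = c' e₁ * (if a = e₁ ∨ a = e₂ then 1 else if a = e₃ then -1 else 0)
    by_cases a1 : a = e₁
    · subst a1; simp
    · by_cases a2 : a = e₂
      · subst a2; simp; linarith
      · by_cases a3 : a = e₃
        · subst a3
          rw [if_neg (by simp [a1, a2]), if_pos rfl]
          linarith
        · rw [if_neg (by simp [a1, a2]), if_neg a3, hsup a ha a1 a2 a3, mul_zero]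

end Dg

end NLC
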