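import Pool.Agent.NLC.TriGlue

/-!
# NLC / Facial : all triangles are facial

`circuit_dir`, `exists_side` give `Y, σ`.  By `not_both_dir` either no arc other than the three has `Y (l a)`, or all of
them have.
`fac_dir`, first case: `Dg.facial` gives `f`; it remains to see `σ = 1` (then `r e_i = f`): otherwise `σ = -1`, so no arc
crosses from `¬ Y` into `Y` (`Side.eq`), but `l e₁` is in `Y` and can be reached from `s ∉ Y` (rooted).  Second case: the
outer arcs have `l = s`, `¬ Y s`, so they are among the three; `e₁ ∉ {α, β, γ}` and `α, β, γ` are distinct: impossible.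
`fac_tr`: first case: `facial`; `σ = 1`: `r e₁ = r e₂ = f`, `l e₃ = f`; `σ = -1`: `l e₁ = l e₂ = f`, `r e₃ = f`.  Second case: the three
distinct outer arcs are `{e₁, e₂, e₃}`, but every vertex of the outer triangle is the tail of only one of
them, and `t e₃ = t e₁`: impossible.
-/

set_option autoImplicit false

namespace NLC

open Finset Relation
open scoped Classical

variable {V A F : Type}

variable [Infinite V] [Infinite A] [Infinite F]

namespace MinC

variable {D : Dg V A F} {s : F} {α β γ : A}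

theorem fac_dir (h : MinC D s α β γ) {e₁ e₂ e₃ : A} (m₁ : e₁ ∈ D.S) (m₂ : e₂ ∈ D.S)
    (m₃ : e₃ ∈ D.S) (h12 : D.h e₁ = D.t e₂) (h23 : D.h e₂ = D.t e₃) (h31 : D.h e₃ = D.t e₁)
    (hα : e₁ ≠ α) (hβ : e₁ ≠ β) (hγ : e₁ ≠ γ) :
    D.r e₂ = D.r e₁ ∧ D.r e₃ = D.r e₁ ∧
      ∀ x ∈ D.S, D.IncF x (D.r e₁) → x = e₁ ∨ x = e₂ ∨ x = e₃ := by
  have hC := Dg.circuit_dir h.simp m₁ m₂ m₃ h12 h23 h31
  obtain ⟨Y, σ, hY⟩ := Dg.exists_side h.dual hC s
  by_cases hin : ∀ a ∈ D.S, a ≠ e₁ → a ≠ e₂ → a ≠ e₃ → ¬ Y (D.l a)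
  · obtain ⟨f, hf1, hf2⟩ := Dg.facial h.dual hC hY hin
    rcases hY.sg with hσ | hσ
    · have h1 := (hf2 e₁ (Or.inl rfl)).1 (by rw [hσ]; simp)
      have h2 := (hf2 e₂ (Or.inr (Or.inl rfl))).1 (by rw [hσ]; simp)
      have h3 := (hf2 e₃ (Or.inr (Or.inr rfl))).1 (by rw [hσ]; simp)
      refine ⟨h2.trans h1.symm, h3.trans h1.symm, ?_⟩
      rw [h1]
      exact hf1
    · exfalso
      have hno : ∀ a ∈ D.S, ¬ Y (D.l a) → ¬ Y (D.r a) := by
        intro a ha hl hr
        have h1 := hY.eq a ha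
        rw [if_pos hr, if_neg hl, hσ] at h1
        split_ifs at h1 <;> norm_num at h1
      have hreach : ∀ f, ReflTransGen D.FStep s f → ¬ Y f := by
        intro f hf
        induction hf with
        | refl => exact hY.ns
        | tail _ hstep ih =>
          obtain ⟨a, ha, hl, hr⟩ := hstep
          rw [← hr]
          rw [← hl] at ih
          exact hno a ha ih
      have h1 := hY.eq e₁ m₁
      have h2 := hreach _ (h.rooted e₁ m₁)
      rw [if_neg h2, hσ] at h1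
      rw [if_pos (Or.inl rfl)] at h1
      split_ifs at h1 <;> norm_num at h1
  · exfalso
    push Not at hin
    obtain ⟨a₁, ha₁, n1, n2, n3, hYa⟩ := hin
    have hall : ∀ x ∈ D.S, D.l x = s → x = e₁ ∨ x = e₂ ∨ x = e₃ := by
      intro x hx hl
      by_contra hc
      refine h.not_both_dir m₁ m₂ m₃ h12 h23 h31 hY ha₁ hx ?_ hc hYa (by rw [hl]; exact hY.ns)
      rintro (h1 | h1 | h1)
      · exact n1 h1
      · exact n2 h1
      · exact n3 h1
    have o := h.out
    have h1 := (hall α o.mα o.lα).resolve_left (fun h => hα h.symm)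
    have h2 := (hall β o.mβ o.lβ).resolve_left (fun h => hβ h.symm)
    have h3 := (hall γ o.mγ o.lγ).resolve_left (fun h => hγ h.symm)
    have t1 := o.αβ h.nodig
    have t2 := o.βγ h.nodig
    have t3 := o.γα h.nodig
    rcases h1 with h1 | h1 <;> rcases h2 with h2 | h2 <;> rcases h3 with h3 | h3 <;>
      first
        | exact t1 (h1.trans h2.symm)
        | exact t2 (h2.trans h3.symm)
        | exact t3 (h3.trans h1.symm)

theorem fac_tr (h : MinC D s α β γ) {e₁ e₂ e₃ : A} (m₁ : e₁ ∈ D.S) (m₂ : e₂ ∈ D.S)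
    (m₃ : e₃ ∈ D.S) (h12 : D.h e₁ = D.t e₂) (ht : D.t e₃ = D.t e₁) (hh : D.h e₃ = D.h e₂) :
    ∃ f, (∀ x ∈ D.S, D.IncF x f → x = e₁ ∨ x = e₂ ∨ x = e₃) ∧
      ((D.r e₃ = f ∧ D.l e₁ = f ∧ D.l e₂ = f) ∨ (D.l e₃ = f ∧ D.r e₁ = f ∧ D.r e₂ = f)) := by
  have hC := Dg.circuit_tr h.simp m₁ m₂ m₃ h12 ht hh
  have n31 : e₃ ≠ e₁ := by
    rintro rfl
    exact h.nodig.loop m₂ (h12.symm.trans hh)
  have n32 : e₃ ≠ e₂ := by
    rintro rfl
    exact h.nodig.loop m₁ (ht.symm.trans h12.symm)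
  obtain ⟨Y, σ, hY⟩ := Dg.exists_side h.dual hC s
  by_cases hin : ∀ a ∈ D.S, a ≠ e₁ → a ≠ e₂ → a ≠ e₃ → ¬ Y (D.l a)
  · obtain ⟨f, hf1, hf2⟩ := Dg.facial h.dual hC hY hin
    refine ⟨f, hf1, ?_⟩
    have c3 : ¬ (e₃ = e₁ ∨ e₃ = e₂) := by
      rintro (h1 | h1)
      · exact n31 h1
      · exact n32 h1
    rcases hY.sg with hσ | hσ
    · right
      refine ⟨(hf2 e₃ (Or.inr (Or.inr rfl))).2 ?_, (hf2 e₁ (Or.inl rfl)).1 ?_,
        (hf2 e₂ (Or.inr (Or.inl rfl))).1 ?_⟩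
      · rw [hσ, if_neg c3, if_pos rfl]; norm_num
      · rw [hσ, if_pos (Or.inl rfl)]; norm_num
      · rw [hσ, if_pos (Or.inr rfl)]; norm_num
    · left
      refine ⟨(hf2 e₃ (Or.inr (Or.inr rfl))).1 ?_, (hf2 e₁ (Or.inl rfl)).2 ?_,
        (hf2 e₂ (Or.inr (Or.inl rfl))).2 ?_⟩
      · rw [hσ, if_neg c3, if_pos rfl]; norm_num
      · rw [hσ, if_pos (Or.inl rfl)]; norm_num
      · rw [hσ, if_pos (Or.inr rfl)]; norm_num
  · exfalso
    push Not at hin
    obtain ⟨a₁, ha₁, n1, n2, n3, hYa⟩ := hin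
    have hall : ∀ x ∈ D.S, D.l x = s → x = e₁ ∨ x = e₂ ∨ x = e₃ := by
      intro x hx hl
      by_contra hc
      refine h.not_both_tr m₁ m₂ m₃ h12 ht hh hY ha₁ hx ?_ hc hYa (by rw [hl]; exact hY.ns)
      rintro (h1 | h1 | h1)
      · exact n1 h1
      · exact n2 h1
      · exact n3 h1
    have o := h.out
    have h1 := hall α o.mα o.lα
    have h2 := hall β o.mβ o.lβ
    have h3 := hall γ o.mγ o.lγ
    have t1 := o.tαβ h.nodig
    have t2 := o.tβγ h.nodig
    have t3 := o.tγα h.nodig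
    rcases h1 with h1 | h1 | h1 <;> rcases h2 with h2 | h2 | h2 <;>
      rcases h3 with h3 | h3 | h3 <;>
      (rw [h1, h2] at t1; rw [h2, h3] at t2; rw [h3, h1] at t3
       first
        | exact t1 rfl
        | exact t2 rfl
        | exact t3 rfl
        | exact t1 ht
        | exact t1 ht.symm
        | exact t2 ht
        | exact t2 ht.symm
        | exact t3 ht
        | exact t3 ht.symm)

end MinC

end NLC
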