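import Pool.Agent.NLC.Sub
import Pool.Agent.NLC.Acyc

/-!
# NLC / SimpM : a minimal counterexample is simple and every arc is on a directed cycle

`erase`: for `a ∈ D.S`, `a ≠ α, β, γ`: `sub_ext` with `X = D.S.erase a`, `n = D.S.card - 1`, `h.ih'`.
`simp`: if `a ≠ b` are parallel, one of them, say `a`, is not outer (`α, β, γ` have different tails).  The colouring
from `erase` for `a` is good for `D` (a step by `a` can be replaced by the step by `b`; so
`D.MS D.S c u v → D.MS (D.S.erase a) c u v`), contradiction to `h.bad`.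
`cyc`: clear if `a` is outer (`α, β, γ` is a directed cycle).  Otherwise take the colouring `c` from `erase`; if
there were no path from `h a` to `t a` then `good_of_noncyc` (`Y = D.S.erase a`) would give that `c` is good.
`rank`: `exists_rank`.
-/

set_option autoImplicit false

namespace NLC

open Finset Relation
open scoped Classical

variable {V A F : Type}

variable [Infinite V] [Infinite A] [Infinite F]

namespace MinC

variable {D : Dg V A F} {s : F} {α β γ : A}

theorem erase (h : MinC D s α β γ) {a : A} (ha : a ∈ D.S) (h1 : a ≠ α) (h2 : a ≠ β) (h3 : a ≠ γ) :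
    ∃ c : V → Bool, D.GoodOn (D.S.erase a) c ∧ c (D.t β) = c (D.h β) :=
  Dg.sub_ext h.dual h.nodig h.rooted h.out h.ih' (erase_subset _ _)
    (by rw [card_erase_of_mem ha]) (mem_erase.2 ⟨h1.symm, h.out.mα⟩)
    (mem_erase.2 ⟨h2.symm, h.out.mβ⟩) (mem_erase.2 ⟨h3.symm, h.out.mγ⟩)

omit [Infinite V] [Infinite A] [Infinite F] in
private theorem SimpM_out (h : MinC D s α β γ) {a b : A} (ha : a = α ∨ a = β ∨ a = γ)
    (hb : b = α ∨ b = β ∨ b = γ) (ht : D.t a = D.t b) : a = b := by
  have h1 := h.out.tαβ h.nodig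
  have h2 := h.out.tβγ h.nodig
  have h3 := h.out.tγα h.nodig
  rcases ha with rfl | rfl | rfl <;> rcases hb with rfl | rfl | rfl
  · rfl
  · exact absurd ht h1
  · exact absurd ht.symm h3
  · exact absurd ht.symm h1
  · rfl
  · exact absurd ht h2
  · exact absurd ht h3
  · exact absurd ht.symm h2
  · rfl

private theorem SimpM_par (h : MinC D s α β γ) {a b : A} (ha : a ∈ D.S) (hb : b ∈ D.S)
    (hab : a ≠ b) (ht : D.t a = D.t b) (hh : D.h a = D.h b) (ho : ¬ (a = α ∨ a = β ∨ a = γ)) :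
    False := by
  rw [not_or, not_or] at ho
  obtain ⟨c, hc, hc2⟩ := h.erase ha ho.1 ho.2.1 ho.2.2
  refine h.bad ⟨c, ?_, hc2⟩
  intro v hv
  refine hc v (TransGen.mono ?_ v v hv)
  rintro u w ⟨x, hx, h1, h2, h3⟩
  by_cases hxa : x = a
  · subst hxa
    exact ⟨b, mem_erase.2 ⟨hab.symm, hb⟩, by rw [← ht, h1], by rw [← hh, h2], h3⟩
  · exact ⟨x, mem_erase.2 ⟨hxa, hx⟩, h1, h2, h3⟩

theorem simp (h : MinC D s α β γ) : D.Simp := by
  refine ⟨h.nodig, fun a ha b hb ht hh => ?_⟩
  by_contra hab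
  by_cases hoa : a = α ∨ a = β ∨ a = γ
  · by_cases hob : b = α ∨ b = β ∨ b = γ
    · exact hab (SimpM_out h hoa hob ht)
    · exact SimpM_par h hb ha (Ne.symm hab) ht.symm hh.symm hob
  · exact SimpM_par h ha hb hab ht hh hoa

omit [Infinite V] [Infinite A] [Infinite F] in
private theorem SimpM_tri (h : D.OutTri s α β γ) : ReflTransGen D.VStep (D.h α) (D.t α) := by
  have h1 : D.VStep (D.h α) (D.h β) := ⟨β, h.mβ, h.hα.symm, rfl⟩
  have h2 : D.VStep (D.h β) (D.t α) := ⟨γ, h.mγ, h.hβ.symm, h.hγ⟩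
  exact (ReflTransGen.single h1).tail h2

theorem cyc (h : MinC D s α β γ) : ∀ a ∈ D.S, ReflTransGen D.VStep (D.h a) (D.t a) := by
  intro a ha
  by_cases ho : a = α ∨ a = β ∨ a = γ
  · rcases ho with rfl | rfl | rfl
    · exact SimpM_tri h.out
    · exact SimpM_tri h.out.rot
    · exact SimpM_tri h.out.rot.rot
  · rw [not_or, not_or] at ho
    obtain ⟨c, hc, hc2⟩ := h.erase ha ho.1 ho.2.1 ho.2.2
    by_contra hno
    refine h.bad ⟨c, ?_, hc2⟩
    refine Dg.good_of_noncyc (Y := D.S.erase a) (Subset.refl _) hc fun x hx => ?_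
    by_cases hxa : x = a
    · right
      rw [hxa]
      exact hno
    · exact Or.inl (mem_erase.2 ⟨hxa, hx⟩)

theorem rank (h : MinC D s α β γ) : ∃ ρ : F → ℕ, ∀ a ∈ D.S, ρ (D.l a) < ρ (D.r a) :=
  exists_rank h.dual h.cyc

end MinC

end NLC
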