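import Pool.Agent.NLC.Sub
import Pool.Agent.NLC.SimpM

/-!
# NLC / VDel : degrees of the inner vertices

`good_add` (general): `X` = arcs not incident with `v`, `c' = c` off `v`, and all out-neighbours of `v` have a
colour `≠ c' v` (hypothesis `hout`).  Then a monochromatic cycle of `c'` cannot contain `v` (the step out of `v`
would be an arc `a` with `t a = v`, `c' (t a) = c' (h a)`), so all its arcs are in `X`, and `c' = c` on their ends.
(Show: from `TransGen (D.MS D.S c') u w` with `w ≠ v`: all vertices before `w` are `≠ v`; so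
`TransGen (D.MS X c) u w`.  For a cycle at `v` itself look at the first step (`TransGen.head'_iff`).)
`good_add'` by the mirror image (`mir_goodOn`).

`deg_out`: `v` is not outer.  `X = D.S.filter (¬ Inc · v)` contains `α, β, γ` (their ends are `t α, t β, t γ`), `X ≠ D.S`.
`sub_ext` gives `c`.  Suppose `(D.outs v).card ≤ 1`: there is a colour `i` such that all `a ∈ D.outs v` have
`c (h a) ≠ i`; `h a ≠ v`.  `c' = Function.update c v i` is good by `good_add`, and `c' (t β) = c' (h β)`: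
contradiction.  `deg_in`: apply `deg_out` to `h.mir`.
-/

set_option autoImplicit false

namespace NLC

open Finset Relation
open scoped Classical

variable {V A F : Type}

variable [Infinite V] [Infinite A] [Infinite F]

omit [Infinite V] [Infinite A] [Infinite F] in
private theorem VDel_aux {D : Dg V A F} {v : V} {c c' : V → Bool}
    (he : ∀ u, u ≠ v → c' u = c u)
    (hout : ∀ a ∈ D.S, D.t a = v → c' (D.h a) ≠ c' v) {u w : V}
    (h : TransGen (D.MS D.S c') u w) (hw : w ≠ v) :
    TransGen (D.MS (D.S.filter (fun a => ¬ D.Inc a v)) c) u w := by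
  have htail : ∀ x y, D.MS D.S c' x y → x ≠ v := by
    rintro x y ⟨a, ha, h1, h2, h3⟩ rfl
    exact hout a ha h1 (by rw [h2]; exact h3.symm)
  have hstep : ∀ x y, D.MS D.S c' x y → y ≠ v →
      D.MS (D.S.filter (fun a => ¬ D.Inc a v)) c x y := by
    intro x y hxy hy
    have hx := htail x y hxy
    obtain ⟨a, ha, h1, h2, h3⟩ := hxy
    refine ⟨a, ?_, h1, h2, ?_⟩
    · rw [mem_filter]
      refine ⟨ha, ?_⟩
      rintro (h4 | h4)
      · exact hx (h1.symm.trans h4)
      · exact hy (h2.symm.trans h4)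
    · rw [← he x hx, ← he y hy, h3]
  induction h using TransGen.head_induction_on with
  | single h => exact TransGen.single (hstep _ _ h hw)
  | head h1 h2 ih =>
    refine TransGen.head (hstep _ _ h1 ?_) ih
    obtain ⟨b, hb, _⟩ := TransGen.head'_iff.mp h2
    exact htail _ _ hb

theorem Dg.good_add {D : Dg V A F} {v : V} {c c' : V → Bool}
    (hc : D.GoodOn (D.S.filter (fun a => ¬ D.Inc a v)) c) (he : ∀ u, u ≠ v → c' u = c u)
    (hout : ∀ a ∈ D.S, D.t a = v → c' (D.h a) ≠ c' v) : D.Good c' := by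
  intro w hw
  refine hc w (VDel_aux he hout hw ?_)
  rintro rfl
  obtain ⟨b, ⟨a, ha, h1, h2, h3⟩, _⟩ := TransGen.head'_iff.mp hw
  exact hout a ha h1 (by rw [h2]; exact h3.symm)

theorem Dg.good_add' {D : Dg V A F} {v : V} {c c' : V → Bool}
    (hc : D.GoodOn (D.S.filter (fun a => ¬ D.Inc a v)) c) (he : ∀ u, u ≠ v → c' u = c u)
    (hin : ∀ a ∈ D.S, D.h a = v → c' (D.t a) ≠ c' v) : D.Good c' := by
  have h1 : D.mir.S.filter (fun a => ¬ D.mir.Inc a v) = D.S.filter (fun a => ¬ D.Inc a v) := by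
    refine Finset.filter_congr fun a _ => ?_
    rw [Dg.mir_inc]
  have h2 : D.mir.Good c' := by
    refine Dg.good_add (c := c) ?_ he hin
    rw [h1]
    exact Dg.mir_goodOn.mpr hc
  exact Dg.mir_goodOn.mp h2

namespace MinC

variable {D : Dg V A F} {s : F} {α β γ : A}

theorem deg_out (h : MinC D s α β γ) {v : V} (h1 : v ≠ D.t α) (h2 : v ≠ D.t β) (h3 : v ≠ D.t γ)
    (hv : ∃ a ∈ D.S, D.Inc a v) : 2 ≤ (D.outs v).card := by
  by_contra hcard
  have hX : D.S.filter (fun a => ¬ D.Inc a v) ⊆ D.S := filter_subset _ _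
  have hss : D.S.filter (fun a => ¬ D.Inc a v) ⊂ D.S := by
    refine (Finset.filter_ssubset).mpr ?_
    obtain ⟨a, ha, hav⟩ := hv
    exact ⟨a, ha, not_not.mpr hav⟩
  have hlt := Finset.card_lt_card hss
  have hα : α ∈ D.S.filter (fun a => ¬ D.Inc a v) := by
    rw [mem_filter]
    refine ⟨h.out.mα, ?_⟩
    rintro (h4 | h4)
    · exact h1 h4.symm
    · exact h2 (h4.symm.trans h.out.hα)
  have hβ : β ∈ D.S.filter (fun a => ¬ D.Inc a v) := by
    rw [mem_filter]
    refine ⟨h.out.mβ, ?_⟩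
    rintro (h4 | h4)
    · exact h2 h4.symm
    · exact h3 (h4.symm.trans h.out.hβ)
  have hγ : γ ∈ D.S.filter (fun a => ¬ D.Inc a v) := by
    rw [mem_filter]
    refine ⟨h.out.mγ, ?_⟩
    rintro (h4 | h4)
    · exact h3 h4.symm
    · exact h1 (h4.symm.trans h.out.hγ)
  obtain ⟨c, hc, hcβ⟩ := Dg.sub_ext h.dual h.nodig h.rooted h.out h.ih' hX (by omega) hα hβ hγ
  have hi : ∃ i : Bool, ∀ a ∈ D.outs v, c (D.h a) ≠ i := by
    rcases (D.outs v).eq_empty_or_nonempty with h0 | ⟨a₀, ha₀⟩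
    · exact ⟨true, fun a ha => by rw [h0] at ha; simp at ha⟩
    · refine ⟨!(c (D.h a₀)), fun a ha => ?_⟩
      have h5 : a = a₀ := Finset.card_le_one.mp (by omega) a ha a₀ ha₀
      rw [h5]
      cases c (D.h a₀) <;> simp
  obtain ⟨i, hi⟩ := hi
  refine h.bad ⟨Function.update c v i, Dg.good_add hc (fun u hu => Function.update_of_ne hu _ _)
    ?_, ?_⟩
  · intro a ha hta
    have h6 : D.h a ≠ v := by
      rw [← hta]
      exact fun h7 => h.nodig.loop ha h7.symm
    rw [Function.update_of_ne h6, Function.update_self]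
    exact hi a (Dg.mem_outs.mpr ⟨ha, hta⟩)
  · have h7 : D.h β ≠ v := by
      rw [h.out.hβ]; exact h3.symm
    rw [Function.update_of_ne h2.symm, Function.update_of_ne h7, hcβ]

theorem deg_in (h : MinC D s α β γ) {v : V} (h1 : v ≠ D.t α) (h2 : v ≠ D.t β) (h3 : v ≠ D.t γ)
    (hv : ∃ a ∈ D.S, D.Inc a v) : 2 ≤ (D.ins v).card := by
  have h4 := h.mir
  rw [← Dg.mir_outs]
  refine h4.deg_out ?_ ?_ ?_ ?_
  · intro h5
    exact h1 (h5.trans h.out.hγ)
  · intro h5
    exact h3 (h5.trans h.out.hβ)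
  · intro h5
    exact h2 (h5.trans h.out.hα)
  · obtain ⟨a, ha, hav⟩ := hv
    exact ⟨a, ha, Dg.mir_inc.mpr hav⟩

end MinC

end NLC
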