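import Pool.Agent.NLC.Star
import Pool.Agent.NLC.VDel

/-!
# NLC / NotAll : bare outer vertices

`bare_of_r`: `z = 1` on `x`, `-1` on `y`, `0` elsewhere is orthogonal to all `df φ` (both arcs go from `s` to the same
face), and `x, y` are incident with the vertex `h x = t y`.  So `MinC.star`.

`notAll`: suppose all three outer arcs have the same right face.  By `bare_of_r` no other arc is incident with
the three outer vertices.  If `D.S = {α, β, γ}`: the colouring with `t α` false and all other vertices true is
good (`good_add` for `v = t α` (`X = {β}` has no cycle), or directly): contradiction to `h.bad`.  Otherwise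
`MinC.part` with `X = {α, β, γ}` and any `v₀`: there is no vertex incident with both an outer arc and another arc.
-/

set_option autoImplicit false

namespace NLC

open Finset Relation
open scoped Classical

variable {V A F : Type}

variable [Infinite V] [Infinite A] [Infinite F]

namespace MinC

variable {D : Dg V A F} {s : F} {α β γ : A}

theorem bare_of_r (h : MinC D s α β γ) {x y : A} (hxy : Cons α β γ x y) (hr : D.r x = D.r y) :
    ∀ a ∈ D.S, D.Inc a (D.h x) → a = x ∨ a = y := by
  have hn := h.nodig
  have ho := h.out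
  obtain ⟨hx, hy, hne, hh, hlx, hly⟩ : x ∈ D.S ∧ y ∈ D.S ∧ x ≠ y ∧ D.h x = D.t y ∧
      D.l x = s ∧ D.l y = s := by
    rcases hxy with ⟨rfl, rfl⟩ | ⟨rfl, rfl⟩ | ⟨rfl, rfl⟩
    · exact ⟨ho.mα, ho.mβ, ho.αβ hn, ho.hα, ho.lα, ho.lβ⟩
    · exact ⟨ho.mβ, ho.mγ, ho.βγ hn, ho.hβ, ho.lβ, ho.lγ⟩
    · exact ⟨ho.mγ, ho.mα, ho.γα hn, ho.hγ, ho.lγ, ho.lα⟩
  set z : A → ℚ := fun a => if a = x then 1 else if a = y then -1 else 0 with hz
  have zx : z x = 1 := by simp [hz]
  have zy : z y = -1 := by simp [hz, hne.symm]
  have z0 : ∀ a, a ≠ x → a ≠ y → z a = 0 := fun a h1 h2 => by simp [hz, h1, h2]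
  have horth : ∀ φ : F → ℚ, ∑ a ∈ D.S, z a * D.df φ a = 0 := by
    intro φ
    have h1 : ∑ a ∈ ({x, y} : Finset A), z a * D.df φ a = ∑ a ∈ D.S, z a * D.df φ a := by
      refine sum_subset ?_ ?_
      · intro w hw
        simp only [mem_insert, mem_singleton] at hw
        rcases hw with rfl | rfl
        · exact hx
        · exact hy
      · intro w _ hw
        simp only [mem_insert, mem_singleton, not_or] at hw
        rw [z0 w hw.1 hw.2, zero_mul]
    rw [← h1, sum_insert (by simp [hne]), sum_singleton, zx, zy]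
    unfold Dg.df
    rw [hr, hlx, hly]
    ring
  have hsup : ∀ a ∈ D.S, z a ≠ 0 → D.Inc a (D.h x) := by
    intro a _ hza
    by_cases h1 : a = x
    · rw [h1]; exact Or.inr rfl
    · by_cases h2 : a = y
      · rw [h2]; exact Or.inl hh.symm
      · exact absurd (z0 a h1 h2) hza
  have hst := h.star (D.h x) horth hsup ⟨x, hx, by rw [zx]; norm_num⟩
  intro a ha hia
  by_contra hcon
  push Not at hcon
  exact hst a ha hia (z0 a hcon.1 hcon.2)

theorem notAll (h : MinC D s α β γ) : ¬ (D.r α = D.r β ∧ D.r β = D.r γ) := by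
  rintro ⟨h1, h2⟩
  have hn := h.nodig
  have ho := h.out
  have b1 : ∀ a ∈ D.S, D.Inc a (D.h α) → a = α ∨ a = β :=
    h.bare_of_r (Or.inl ⟨rfl, rfl⟩) h1
  have b2 : ∀ a ∈ D.S, D.Inc a (D.h β) → a = β ∨ a = γ :=
    h.bare_of_r (Or.inr (Or.inl ⟨rfl, rfl⟩)) h2
  have b3 : ∀ a ∈ D.S, D.Inc a (D.h γ) → a = γ ∨ a = α :=
    h.bare_of_r (Or.inr (Or.inr ⟨rfl, rfl⟩)) (h2.symm.trans h1.symm)
  by_cases hall : ∀ a ∈ D.S, a = α ∨ a = β ∨ a = γ
  · -- the triangle itself
    refine h.bad ⟨fun v => if v = D.t α then false else true, ?_, ?_⟩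
    · refine Dg.good_add (v := D.t α) (c := fun _ => true) ?_ (fun u hu => if_neg hu) ?_
      · intro v hv
        -- only the arc β remains
        have hst : ∀ u w, D.MS (D.S.filter (fun a => ¬ D.Inc a (D.t α))) (fun _ => true) u w →
            u = D.t β ∧ w = D.h β := by
          rintro u w ⟨a, ha, hu, hw, -⟩
          obtain ⟨ha1, ha2⟩ := mem_filter.1 ha
          rcases hall a ha1 with rfl | rfl | rfl
          · exact absurd (Or.inl rfl) ha2
          · exact ⟨hu.symm, hw.symm⟩
          · exact absurd (Or.inr ho.hγ) ha2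
        have e1 : ∃ w, D.MS (D.S.filter (fun a => ¬ D.Inc a (D.t α))) (fun _ => true) v w := by
          obtain ⟨w, hw, _⟩ := TransGen.head'_iff.1 hv
          exact ⟨w, hw⟩
        have e2 : ∃ w, D.MS (D.S.filter (fun a => ¬ D.Inc a (D.t α))) (fun _ => true) w v := by
          obtain ⟨w, _, hw⟩ := TransGen.tail'_iff.1 hv
          exact ⟨w, hw⟩
        obtain ⟨w, hw⟩ := e1
        obtain ⟨w', hw'⟩ := e2
        have f1 := (hst _ _ hw).1
        have f2 := (hst _ _ hw').2
        exact hn.loop ho.mβ (f1.symm.trans f2)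
      · intro a ha hta
        have hne : D.h a ≠ D.t α := by rw [← hta]; exact (hn.loop ha).symm
        rw [if_neg hne, if_pos rfl]
        simp
    · have e1 : D.t β ≠ D.t α := (ho.tαβ hn).symm
      have e2 : D.h β ≠ D.t α := by rw [ho.hβ]; exact ho.tγα hn
      show (if D.t β = D.t α then false else true) = (if D.h β = D.t α then false else true)
      rw [if_neg e1, if_neg e2]
  · push Not at hall
    obtain ⟨a, ha, ha1, ha2, ha3⟩ := hall
    have hsub : ({α, β, γ} : Finset A) ⊆ D.S := by
      intro w hw
      simp only [mem_insert, mem_singleton] at hw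
      rcases hw with rfl | rfl | rfl
      · exact ho.mα
      · exact ho.mβ
      · exact ho.mγ
    refine h.part hsub ⟨α, by simp⟩ ?_ (D.t α) ?_
    · intro heq
      rw [← heq] at ha
      simp only [mem_insert, mem_singleton] at ha
      rcases ha with h | h | h
      · exact ha1 h
      · exact ha2 h
      · exact ha3 h
    · rintro u ⟨x, hx, hxu⟩ ⟨y, hy, hyu⟩
      exfalso
      obtain ⟨hy1, hy2⟩ := mem_sdiff.1 hy
      simp only [mem_insert, mem_singleton, not_or] at hx hy2
      have hu : u = D.h α ∨ u = D.h β ∨ u = D.h γ := by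
        rcases hx with rfl | rfl | rfl
        · rcases hxu with h | h
          · right; right; rw [ho.hγ]; exact h.symm
          · left; exact h.symm
        · rcases hxu with h | h
          · left; rw [ho.hα]; exact h.symm
          · right; left; exact h.symm
        · rcases hxu with h | h
          · right; left; rw [ho.hβ]; exact h.symm
          · right; right; exact h.symm
      rcases hu with rfl | rfl | rfl
      · rcases b1 y hy1 hyu with h | h
        · exact hy2.1 h
        · exact hy2.2.1 h
      · rcases b2 y hy1 hyu with h | h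
        · exact hy2.2.1 h
        · exact hy2.2.2 h
      · rcases b3 y hy1 hyu with h | h
        · exact hy2.2.2 h
        · exact hy2.1 h

end MinC

end NLC
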