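import Pool.Agent.NLC.Contr
import Pool.Agent.NLC.Facial
import Pool.Agent.NLC.NotAll

/-!
# NLC / Class : the faces of a minimal counterexample

Take `ρ` from `h.rank`.  Strong induction on `ρ f`: let `f ≠ s` be incident with an arc.  By `Rooted.exists_in`
`(inF f).card ≥ 1`.  Suppose it is not `1`, and not `TriF f` and not `TwoF f`.
(1) There is `e ∈ inF f` which is not outer.  Otherwise `inF f ⊆ {α, β, γ}`; it has at least two elements, so two
consecutive outer arcs `x, y` (`Cons α β γ x y`) are in it; if the third is also there this contradicts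
`h.notAll`; otherwise `TwoF f` (`bare_of_r` for the last clause).
(2) Let `e₂ ∈ inF f`, `e₂ ≠ e`.  Apply `h.contract`.
`hdir`: `x : h e → z`, `y : z → t e`: `fac_dir` for `e, x, y` gives `TriF (r e) = TriF f`: contradiction.
`htr`: `x : t e → z`, `y : z → h e`: `fac_tr` for `e₁ = x`, `e₂ = y`, `e₃ = e` gives `g`.  First case `r e = g = f`: all arcs
incident with `f` are among `x, y, e`, and `l x = l y = f`, so `r x, r y ≠ f` (`ρ`), so `inF f = {e}`:
contradiction.  Second case `l e = g`, `r x = r y = g`, all arcs incident with `g` are among `x, y, e`.  `g ≠ s`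
(`h.out.only`, `e` not outer), `ρ g < ρ f` (`hρ e`).  Induction hypothesis for `g`: `TriF g`: `e` is incident with `g`, so it is one
of the three arcs with `r = g`: `r e = g = l e`, contradiction to `ρ`.  `(inF g).card = 1`: but `x ≠ y` are both in it
(`x = y` would be a loop `h x = t y`).  `TwoF g`: `x, y ∈ {x', y'}` with `Cons α β γ x' y'`; so (as `h x = t y`) `x = x'`,
`y = y'` (the other possibility `x = y'`, `y = x'` gives `h y' = t x'`, impossible for two consecutive arcs of the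
outer triangle, whose three vertices are distinct); the third outer arc goes from `h y = h e` to `t x = t e`:
together with `e` a digon.
-/

set_option autoImplicit false

namespace NLC

open Finset Relation
open scoped Classical

variable {V A F : Type}

variable [Infinite V] [Infinite A] [Infinite F]

namespace MinC

variable {D : Dg V A F} {s : F} {α β γ : A}

omit [Infinite V] [Infinite A] [Infinite F] in
private theorem class_third (h : D.OutTri s α β γ) {x y : A} (hc : Cons α β γ x y) :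
    x ∈ D.S ∧ y ∈ D.S ∧ D.h x = D.t y ∧ ∃ z ∈ D.S, D.t z = D.h y ∧ D.h z = D.t x := by
  rcases hc with ⟨rfl, rfl⟩ | ⟨rfl, rfl⟩ | ⟨rfl, rfl⟩
  · exact ⟨h.mα, h.mβ, h.hα, γ, h.mγ, h.hβ.symm, h.hγ⟩
  · exact ⟨h.mβ, h.mγ, h.hβ, α, h.mα, h.hγ.symm, h.hα⟩
  · exact ⟨h.mγ, h.mα, h.hγ, β, h.mβ, h.hα.symm, h.hβ⟩

private theorem class_two (h : MinC D s α β γ) {f : F}
    (hall : ∀ a ∈ D.S, D.r a = f → a = α ∨ a = β ∨ a = γ) {a b : A} (ha : a ∈ D.S) (hb : b ∈ D.S)
    (hra : D.r a = f) (hrb : D.r b = f) (hab : a ≠ b) : D.TwoF α β γ f := by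
  have key : (D.r α = f ∧ D.r β = f) ∨ (D.r β = f ∧ D.r γ = f) ∨ (D.r γ = f ∧ D.r α = f) := by
    rcases hall a ha hra with rfl | rfl | rfl <;> rcases hall b hb hrb with rfl | rfl | rfl
    · exact absurd rfl hab
    · exact Or.inl ⟨hra, hrb⟩
    · exact Or.inr (Or.inr ⟨hrb, hra⟩)
    · exact Or.inl ⟨hrb, hra⟩
    · exact absurd rfl hab
    · exact Or.inr (Or.inl ⟨hra, hrb⟩)
    · exact Or.inr (Or.inr ⟨hra, hrb⟩)
    · exact Or.inr (Or.inl ⟨hrb, hra⟩)
    · exact absurd rfl hab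
  have hnot : ¬ (D.r α = f ∧ D.r β = f ∧ D.r γ = f) := fun h3 =>
    h.notAll ⟨h3.1.trans h3.2.1.symm, h3.2.1.trans h3.2.2.symm⟩
  rcases key with ⟨h1, h2⟩ | ⟨h1, h2⟩ | ⟨h1, h2⟩
  · refine ⟨α, β, Or.inl ⟨rfl, rfl⟩, h1, h2, fun a ha hr => ?_, h.bare_of_r (Or.inl ⟨rfl, rfl⟩)
      (h1.trans h2.symm)⟩
    rcases hall a ha hr with rfl | rfl | rfl
    · exact Or.inl rfl
    · exact Or.inr rfl
    · exact absurd ⟨h1, h2, hr⟩ hnot
  · refine ⟨β, γ, Or.inr (Or.inl ⟨rfl, rfl⟩), h1, h2, fun a ha hr => ?_,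
      h.bare_of_r (Or.inr (Or.inl ⟨rfl, rfl⟩)) (h1.trans h2.symm)⟩
    rcases hall a ha hr with rfl | rfl | rfl
    · exact absurd ⟨hr, h1, h2⟩ hnot
    · exact Or.inl rfl
    · exact Or.inr rfl
  · refine ⟨γ, α, Or.inr (Or.inr ⟨rfl, rfl⟩), h1, h2, fun a ha hr => ?_,
      h.bare_of_r (Or.inr (Or.inr ⟨rfl, rfl⟩)) (h1.trans h2.symm)⟩
    rcases hall a ha hr with rfl | rfl | rfl
    · exact Or.inr rfl
    · exact absurd ⟨h2, hr, h1⟩ hnot
    · exact Or.inl rfl

theorem face_class (h : MinC D s α β γ) {f : F} (hf : ∃ a ∈ D.S, D.IncF a f) (hs : f ≠ s) :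
    D.TriF f ∨ (D.inF f).card = 1 ∨ D.TwoF α β γ f := by
  obtain ⟨ρ, hρ⟩ := h.rank
  suffices H : ∀ n, ∀ f, ρ f = n → (∃ a ∈ D.S, D.IncF a f) → f ≠ s →
      D.TriF f ∨ (D.inF f).card = 1 ∨ D.TwoF α β γ f from H _ f rfl hf hs
  clear hf hs f
  intro n
  induction n using Nat.strong_induction_on with
  | _ n IH =>
  intro f hn hf hs
  by_contra hcon
  have hc1 : ¬ D.TriF f := fun h1 => hcon (Or.inl h1)
  have hc2 : ¬ (D.inF f).card = 1 := fun h1 => hcon (Or.inr (Or.inl h1))
  have hc3 : ¬ D.TwoF α β γ f := fun h1 => hcon (Or.inr (Or.inr h1))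
  obtain ⟨a0, ha0, ha0f⟩ := hf
  obtain ⟨e0, he0, hre0⟩ := h.rooted.exists_in ha0 ha0f hs
  have hpos : 0 < (D.inF f).card := Finset.card_pos.mpr ⟨e0, Dg.mem_inF.2 ⟨he0, hre0⟩⟩
  have hcard : 1 < (D.inF f).card := by omega
  have hex : ∃ e ∈ D.S, D.r e = f ∧ e ≠ α ∧ e ≠ β ∧ e ≠ γ := by
    by_contra hno
    have hall : ∀ a ∈ D.S, D.r a = f → a = α ∨ a = β ∨ a = γ := by
      intro a ha hra
      by_contra hn2
      rw [not_or, not_or] at hn2
      exact hno ⟨a, ha, hra, hn2.1, hn2.2.1, hn2.2.2⟩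
    obtain ⟨a, ha, b, hb, hab⟩ := Finset.one_lt_card.1 hcard
    rw [Dg.mem_inF] at ha hb
    exact hc3 (class_two h hall ha.1 hb.1 ha.2 hb.2 hab)
  obtain ⟨e, he, hre, hea, heb, hec⟩ := hex
  obtain ⟨e₂, he₂, hne⟩ := Finset.exists_mem_ne hcard e
  rw [Dg.mem_inF] at he₂
  refine h.contract he hea heb hec he₂.1 hne (he₂.2.trans hre.symm) ?_ ?_
  · rintro x hx y hy ⟨h1, h2, h3⟩
    obtain ⟨b1, b2, b3⟩ := h.fac_dir he hx hy h1.symm h2 h3 hea heb hec
    refine hc1 ⟨e, he, x, hx, y, hy, h1.symm, h2, h3, hre, b1.trans hre, b2.trans hre, ?_⟩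
    intro z hz hzf
    rw [← hre] at hzf
    exact b3 z hz hzf
  · rintro x hx y hy ⟨h1, h2, h3⟩
    have hxy : x ≠ y := by
      intro hxy
      rw [← hxy] at h2
      exact h.nodig.loop hx h2.symm
    obtain ⟨g, hg, ⟨g1, g2, g3⟩ | ⟨g1, g2, g3⟩⟩ := h.fac_tr hx hy he h2 h1.symm h3.symm
    · have hgf : g = f := g1.symm.trans hre
      rw [hgf] at g2 g3 hg
      rcases hg e₂ he₂.1 (Or.inr he₂.2) with rfl | rfl | h4
      · have := hρ e₂ he₂.1
        rw [g2, he₂.2] at this
        exact lt_irrefl _ this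
      · have := hρ e₂ he₂.1
        rw [g3, he₂.2] at this
        exact lt_irrefl _ this
      · exact hne h4
    · have hgs : g ≠ s := by
        intro hgs
        rcases h.out.only e he (g1.trans hgs) with h4 | h4 | h4
        · exact hea h4
        · exact heb h4
        · exact hec h4
      have hlt : ρ g < n := by
        have := hρ e he
        rw [g1, hre, hn] at this
        exact this
      rcases IH (ρ g) hlt g rfl ⟨e, he, Or.inl g1⟩ hgs with ht | ht | ht
      · obtain ⟨a1, -, a2, -, a3, -, -, -, -, r1, r2, r3, hx4⟩ := ht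
        have hr : D.r e = g := by
          rcases hx4 e he (Or.inl g1) with h4 | h4 | h4 <;> rw [h4] <;> assumption
        have := hρ e he
        rw [g1, hr] at this
        exact lt_irrefl _ this
      · obtain ⟨w, hw⟩ := Finset.card_eq_one.1 ht
        have hx1 : x ∈ D.inF g := Dg.mem_inF.2 ⟨hx, g2⟩
        have hy1 : y ∈ D.inF g := Dg.mem_inF.2 ⟨hy, g3⟩
        rw [hw, Finset.mem_singleton] at hx1 hy1
        exact hxy (hx1.trans hy1.symm)
      · obtain ⟨x', y', hc, -, -, hin, -⟩ := ht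
        obtain ⟨mx, my, hxy', z, hz, hz1, hz2⟩ := class_third h.out hc
        rcases hin x hx g2 with hx1 | hx1 <;> rcases hin y hy g3 with hy1 | hy1
        · exact hxy (hx1.trans hy1.symm)
        · subst hx1
          subst hy1
          exact h.nodig e he z hz ⟨h1.symm.trans hz2.symm, h3.symm.trans hz1.symm⟩
        · subst hx1
          subst hy1
          exact h.nodig y mx x my ⟨h2.symm, hxy'⟩
        · exact hxy (hx1.trans hy1.symm)

end MinC

end NLC
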