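import Pool.Agent.NLC.KK
import Pool.Agent.NLC.Class

/-!
# NLC / CntA : counting arcs and faces

`S.card = ∑_{f ∈ FS} (inF f).card` (`Finset.card_eq_sum_card_fiberwise`).  `FS` is the disjoint union of `{s}`
(`(inF s).card = 0`), `TF` (`(inF f).card = 3`), `TwoF` (`(inF f).card = 2`), and the rest, for which
`(inF f).card = 1` by `face_class`.  (`TriF` and `TwoF` and `s` exclude each other: `3 ≠ 2`; `s` is not the right face of an arc.)
With `N` the number of faces of the last kind: `S.card = 3 m + 2 j + N`, `FS.card = 1 + m + j + N`.  `euler`: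
`VS.card ≥ S.card + 2 - FS.card = 2 m + j + 1`.
-/

set_option autoImplicit false

namespace NLC

open Finset Relation
open scoped Classical

variable {V A F : Type}

variable [Infinite V] [Infinite A] [Infinite F]

private theorem CntA_tri {D : Dg V A F} (hN : D.NoDig) {f : F} (hf : D.TriF f) :
    3 ≤ (D.inF f).card := by
  obtain ⟨e₁, m1, e₂, m2, e₃, m3, h12, h23, h31, r1, r2, r3, _⟩ := hf
  have n12 : e₁ ≠ e₂ := by
    rintro rfl
    exact hN.loop m1 h12.symm
  have n23 : e₂ ≠ e₃ := by
    rintro rfl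
    exact hN.loop m2 h23.symm
  have n13 : e₁ ≠ e₃ := by
    rintro rfl
    exact hN.loop m1 h31.symm
  have hsub : ({e₁, e₂, e₃} : Finset A) ⊆ D.inF f := by
    intro a ha
    rw [mem_insert, mem_insert, mem_singleton] at ha
    rcases ha with rfl | rfl | rfl
    · exact Dg.mem_inF.mpr ⟨m1, r1⟩
    · exact Dg.mem_inF.mpr ⟨m2, r2⟩
    · exact Dg.mem_inF.mpr ⟨m3, r3⟩
  calc 3 = ({e₁, e₂, e₃} : Finset A).card := (card_eq_three.mpr ⟨_, _, _, n12, n13, n23, rfl⟩).symm
    _ ≤ _ := card_le_card hsub

private theorem CntA_two {D : Dg V A F} (hN : D.NoDig) {s : F} {α β γ : A}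
    (ho : D.OutTri s α β γ) {f : F} (hf : D.TwoF α β γ f) : (D.inF f).card = 2 := by
  obtain ⟨x, y, hxy, rx, ry, hin, _⟩ := hf
  have hx : x ∈ D.S ∧ y ∈ D.S ∧ x ≠ y := by
    rcases hxy with ⟨rfl, rfl⟩ | ⟨rfl, rfl⟩ | ⟨rfl, rfl⟩
    · exact ⟨ho.mα, ho.mβ, ho.αβ hN⟩
    · exact ⟨ho.mβ, ho.mγ, ho.βγ hN⟩
    · exact ⟨ho.mγ, ho.mα, ho.γα hN⟩
  have heq : D.inF f = {x, y} := by
    ext a
    rw [Dg.mem_inF, mem_insert, mem_singleton]
    constructor
    · rintro ⟨h1, h2⟩; exact hin a h1 h2
    · rintro (rfl | rfl)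
      · exact ⟨hx.1, rx⟩
      · exact ⟨hx.2.1, ry⟩
  rw [heq, card_pair hx.2.2]

namespace MinC

variable {D : Dg V A F} {s : F} {α β γ : A}

/-- the faces with exactly two entering arcs, both outer -/
noncomputable def _root_.NLC.Dg.WF (D : Dg V A F) (α β γ : A) : Finset F :=
  D.FS.filter (fun f => D.TwoF α β γ f)

theorem cntA (h : MinC D s α β γ) : 2 * D.TF.card + (D.WF α β γ).card + 1 ≤ D.VS.card := by
  have hS : D.S.card = ∑ f ∈ D.FS, (D.inF f).card := by
    have := Finset.card_eq_sum_card_fiberwise (f := D.r) (s := D.S) (t := D.FS)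
      (fun a ha => Dg.mem_FS.mpr ⟨a, ha, Or.inr rfl⟩)
    rw [this]
    rfl
  have hE := Dg.euler h.dual ⟨α, h.out.mα⟩
  have hpt : ∀ f ∈ D.FS, 1 + 2 * (if D.TriF f then 1 else 0) +
      (if D.TwoF α β γ f then 1 else 0) ≤ (D.inF f).card + (if f = s then 1 else 0) := by
    intro f hf
    by_cases hfs : f = s
    · have hemp : (D.inF f).card = 0 := by
        rw [Finset.card_eq_zero]
        ext a
        rw [Dg.mem_inF]
        constructor
        · rintro ⟨h1, h2⟩
          exact absurd (h2.trans hfs) (h.out.nor a h1)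
        · intro ha
          exact absurd ha (notMem_empty a)
      have h1 : ¬ D.TriF f := fun h1 => by
        have := CntA_tri h.nodig h1
        omega
      have h2 : ¬ D.TwoF α β γ f := fun h2 => by
        have := CntA_two h.nodig h.out h2
        omega
      rw [if_neg h1, if_neg h2, if_pos hfs]
      omega
    · rw [if_neg hfs]
      by_cases h1 : D.TriF f
      · have h3 := CntA_tri h.nodig h1
        have h2 : ¬ D.TwoF α β γ f := fun h2 => by
          have := CntA_two h.nodig h.out h2
          omega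
        rw [if_pos h1, if_neg h2]
        omega
      · rw [if_neg h1]
        by_cases h2 : D.TwoF α β γ f
        · have := CntA_two h.nodig h.out h2
          rw [if_pos h2]
          omega
        · rw [if_neg h2]
          have h3 := (h.face_class (Dg.mem_FS.mp hf) hfs).resolve_left h1
          have h4 := h3.resolve_right h2
          omega
  have hsum := Finset.sum_le_sum hpt
  rw [sum_add_distrib, sum_add_distrib, sum_add_distrib, ← mul_sum, ← hS, ← card_filter,
    ← card_filter, sum_const, smul_eq_mul, mul_one, sum_ite_eq'] at hsum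
  have h1 : (D.FS.filter (fun f => D.TriF f)) = D.TF := rfl
  have h2 : (D.FS.filter (fun f => D.TwoF α β γ f)) = D.WF α β γ := rfl
  rw [h1, h2] at hsum
  split_ifs at hsum <;> omega

end MinC

end NLC
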