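import Pool.Agent.NLC.CntA

/-!
# NLC / CntB : vertices without directed triangular face

The map `v ↦ f` from the vertices with `kk v = 0` to `WF`: take an arc `a ∈ D.S` at `v` with `ρ (r a)` maximal (`ρ` from
`h.rank`), `f = r a`.  No arc at `v` has `l b = f` (then `ρ (r b) > ρ f`).  So by `ortho` with the indicators of `v` and `f`:
`#{b | h b = v, r b = f} = #{b | t b = v, r b = f}`, so there are at least two arcs `b ≠ b'` in `inF f` at `v` (no loops).
`f ≠ s`.  `face_class`: `TriF f` is impossible, because then `D.On v f` and `kk v ≥ 1`; `card = 1` is impossible; so `TwoF f`,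
`{b, b'} = {x, y}`, `Cons α β γ x y`, and `v` is the common vertex `h x = t y` (the three outer vertices are distinct).
The map is injective: if `f` is also the face for `v'` with the arcs `x', y'`: `{x, y} = inF f = {x', y'}`, so the
common vertex is the same.
-/

set_option autoImplicit false

namespace NLC

open Finset Relation
open scoped Classical

variable {V A F : Type}

variable [Infinite V] [Infinite A] [Infinite F]

namespace MinC

variable {D : Dg V A F} {s : F} {α β γ : A}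

omit [Infinite V] [Infinite A] [Infinite F] in
private theorem cntb_cons (h : D.OutTri s α β γ) {x y : A} (hc : Cons α β γ x y) :
    x ∈ D.S ∧ y ∈ D.S ∧ D.h x = D.t y := by
  rcases hc with ⟨rfl, rfl⟩ | ⟨rfl, rfl⟩ | ⟨rfl, rfl⟩
  · exact ⟨h.mα, h.mβ, h.hα⟩
  · exact ⟨h.mβ, h.mγ, h.hβ⟩
  · exact ⟨h.mγ, h.mα, h.hγ⟩

private theorem cntb_ex (h : MinC D s α β γ) {v : V} (hv : v ∈ D.VS) (hk : D.kk v = 0) :
    ∃ f ∈ D.WF α β γ, ∃ x y, Cons α β γ x y ∧ D.r x = f ∧ D.r y = f ∧
      (∀ a ∈ D.S, D.r a = f → a = x ∨ a = y) ∧ v = D.h x := by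
  obtain ⟨ρ, hρ⟩ := h.rank
  obtain ⟨a0, ha0, hi0⟩ := Dg.mem_VS.1 hv
  have hne : (D.S.filter (fun a => D.Inc a v)).Nonempty := ⟨a0, Finset.mem_filter.2 ⟨ha0, hi0⟩⟩
  obtain ⟨a, ha, hmax⟩ := Finset.exists_max_image _ (fun a => ρ (D.r a)) hne
  rw [Finset.mem_filter] at ha
  obtain ⟨haS, hav⟩ := ha
  set f := D.r a with hf
  have hl : ∀ b ∈ D.S, D.Inc b v → D.l b ≠ f := by
    intro b hb hbv hlb
    have h1 := hρ b hb
    have h2 := hmax b (Finset.mem_filter.2 ⟨hb, hbv⟩)
    rw [hlb] at h1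
    exact absurd h1 (not_lt.2 h2)
  have hex : ∃ b ∈ D.S, b ≠ a ∧ D.Inc b v ∧ D.r b = f := by
    by_contra hno
    have h0 := h.dual.ortho (fun u => if u = v then 1 else 0) (fun g => if g = f then 1 else 0)
    rw [Finset.sum_eq_single_of_mem a haS] at h0
    · unfold Dg.dv Dg.df at h0
      beta_reduce at h0
      rw [if_pos hf.symm, if_neg (hl a haS hav), sub_zero, mul_one] at h0
      have hloop := h.nodig.loop haS
      rcases hav with h1 | h1
      · rw [if_pos h1, if_neg (fun h2 => hloop (h1.trans h2.symm))] at h0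
        norm_num at h0
      · rw [if_pos h1, if_neg (fun h2 => hloop (h2.trans h1.symm))] at h0
        norm_num at h0
    · intro b hb hba
      unfold Dg.dv Dg.df
      beta_reduce
      by_cases hbv : D.Inc b v
      · have h1 : D.r b ≠ f := fun h2 => hno ⟨b, hb, hba, hbv, h2⟩
        rw [if_neg h1, if_neg (hl b hb hbv), sub_zero, mul_zero]
      · have h1 : D.h b ≠ v := fun h2 => hbv (Or.inr h2)
        have h2 : D.t b ≠ v := fun h2 => hbv (Or.inl h2)
        rw [if_neg h1, if_neg h2, sub_zero, zero_mul]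
  obtain ⟨b, hb, hba, hbv, hbf⟩ := hex
  have hfS : f ∈ D.FS := Dg.mem_FS.2 ⟨a, haS, Or.inr rfl⟩
  have hfs : f ≠ s := h.out.nor a haS
  rcases h.face_class ⟨a, haS, Or.inr rfl⟩ hfs with ht | ht | ht
  · exfalso
    have h1 : f ∈ D.TF.filter (fun f => D.On v f) := by
      unfold Dg.TF
      exact Finset.mem_filter.2 ⟨Finset.mem_filter.2 ⟨hfS, ht⟩, a, haS, rfl, hav⟩
    have h2 : 0 < D.kk v := Finset.card_pos.2 ⟨f, h1⟩
    omega
  · exfalso
    obtain ⟨w, hw⟩ := Finset.card_eq_one.1 ht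
    have h1 : a ∈ D.inF f := Dg.mem_inF.2 ⟨haS, rfl⟩
    have h2 : b ∈ D.inF f := Dg.mem_inF.2 ⟨hb, hbf⟩
    rw [hw, Finset.mem_singleton] at h1 h2
    exact hba (h2.trans h1.symm)
  · have hW : f ∈ D.WF α β γ := by
      unfold Dg.WF
      exact Finset.mem_filter.2 ⟨hfS, ht⟩
    obtain ⟨x, y, hc, hx, hy, hin, -⟩ := ht
    refine ⟨f, hW, x, y, hc, hx, hy, hin, ?_⟩
    obtain ⟨mx, my, hxy⟩ := cntb_cons h.out hc
    have hboth : D.Inc x v ∧ D.Inc y v := by
      rcases hin a haS rfl with h1 | h1 <;> rcases hin b hb hbf with h2 | h2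
      · exact absurd (h2.trans h1.symm) hba
      · rw [← h1, ← h2]; exact ⟨hav, hbv⟩
      · rw [← h1, ← h2]; exact ⟨hbv, hav⟩
      · exact absurd (h2.trans h1.symm) hba
    obtain ⟨h1 | h1, h2⟩ := hboth
    · rcases h2 with h2 | h2
      · exact absurd (h1.trans (h2.symm.trans hxy.symm)) (h.nodig.loop mx)
      · exact absurd ⟨h1.trans h2.symm, hxy⟩ (h.nodig x mx y my)
    · exact h1.symm

theorem cntB (h : MinC D s α β γ) :
    (D.VS.filter (fun v => D.kk v = 0)).card ≤ (D.WF α β γ).card := by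
  have hex : ∀ v : V, ∃ f : F, v ∈ D.VS.filter (fun v => D.kk v = 0) →
      f ∈ D.WF α β γ ∧ ∃ x y, Cons α β γ x y ∧ D.r x = f ∧ D.r y = f ∧
      (∀ a ∈ D.S, D.r a = f → a = x ∨ a = y) ∧ v = D.h x := by
    intro v
    by_cases hv : v ∈ D.VS.filter (fun v => D.kk v = 0)
    · rw [Finset.mem_filter] at hv
      obtain ⟨f, hf, hx⟩ := cntb_ex h hv.1 hv.2
      exact ⟨f, fun _ => ⟨hf, hx⟩⟩
    · exact ⟨s, fun h1 => absurd h1 hv⟩
  choose φ hφ using hex
  refine Finset.card_le_card_of_injOn φ (fun v hv => (hφ v hv).1) ?_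
  intro v hv v' hv' he
  obtain ⟨-, x, y, hc, hx, hy, hin, hvx⟩ := hφ v hv
  obtain ⟨-, x', y', hc', hx', hy', hin', hvx'⟩ := hφ v' hv'
  obtain ⟨mx, my, hxy⟩ := cntb_cons h.out hc
  obtain ⟨mx', my', hxy'⟩ := cntb_cons h.out hc'
  rcases hin x' mx' (hx'.trans he.symm) with h1 | h1
  · rw [hvx, hvx', h1]
  · exfalso
    rcases hin y' my' (hy'.trans he.symm) with h2 | h2
    · rw [h1, h2] at hxy'
      exact h.nodig x mx y my ⟨hxy'.symm, hxy⟩
    · rw [h1, h2] at hxy'
      exact h.nodig.loop my hxy'.symm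

end MinC

end NLC
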