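import Pool.Agent.NLC.Exc

/-!
# NLC / CntD : vertices with exactly one directed triangular face

By `sum_one` it suffices: for `f ∈ TF`, `n₁ f = #{v ∈ VS | kk v = 1 ∧ On v f} ≤ 1` if `f ≠ r β`, and `n₁ (r β) ≤ 2`.  The vertices `v`
with `On v f` are the three vertices `t e₁, t e₂, t e₃` of the triangle (`TriF f`).  If `n₁ f ≥ 2` then two of them have
`kk = 1`, and the arc `e_i` of the triangle between them satisfies `e_i = β` by `h.exc`, so `f = r β`.  If `n₁ f = 3` then
`e₁ = e₂ = e₃ = β`: contradiction (no loops).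
-/

set_option autoImplicit false

namespace NLC

open Finset Relation
open scoped Classical

variable {V A F : Type}

variable [Infinite V] [Infinite A] [Infinite F]

namespace MinC

variable {D : Dg V A F} {s : F} {α β γ : A}

theorem cntD (h : MinC D s α β γ) :
    (D.VS.filter (fun v => D.kk v = 1)).card ≤ D.TF.card + 1 := by
  rw [Dg.sum_one]
  have hpt : ∀ f ∈ D.TF, (D.VS.filter (fun v => D.kk v = 1 ∧ D.On v f)).card ≤
      1 + (if f = D.r β then 1 else 0) := by
    intro f hf
    have hT : D.TriF f := (mem_filter.mp hf).2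
    obtain ⟨e₁, m1, e₂, m2, e₃, m3, h12, h23, h31, r1, r2, r3, hx⟩ := hT
    have hT' : D.TriF f := (mem_filter.mp hf).2
    have hsub : ∀ v, v ∈ D.VS.filter (fun v => D.kk v = 1 ∧ D.On v f) →
        D.kk v = 1 ∧ (v = D.t e₁ ∨ v = D.t e₂ ∨ v = D.t e₃) := by
      intro v hv
      obtain ⟨_, hk, a, ha, har, hav⟩ := mem_filter.mp hv
      refine ⟨hk, ?_⟩
      rcases hx a ha (Or.inr har) with rfl | rfl | rfl
      · rcases hav with h1 | h1
        · exact Or.inl h1.symm
        · exact Or.inr (Or.inl (h1.symm.trans h12))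
      · rcases hav with h1 | h1
        · exact Or.inr (Or.inl h1.symm)
        · exact Or.inr (Or.inr (h1.symm.trans h23))
      · rcases hav with h1 | h1
        · exact Or.inr (Or.inr h1.symm)
        · exact Or.inl (h1.symm.trans h31)
    have x1 : D.kk (D.t e₁) = 1 → D.kk (D.t e₂) = 1 → e₁ = β := fun a b =>
      h.exc m1 (by rw [r1]; exact hT') a (by rw [h12]; exact b)
    have x2 : D.kk (D.t e₂) = 1 → D.kk (D.t e₃) = 1 → e₂ = β := fun a b =>
      h.exc m2 (by rw [r2]; exact hT') a (by rw [h23]; exact b)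
    have x3 : D.kk (D.t e₃) = 1 → D.kk (D.t e₁) = 1 → e₃ = β := fun a b =>
      h.exc m3 (by rw [r3]; exact hT') a (by rw [h31]; exact b)
    by_cases hfβ : f = D.r β
    · rw [if_pos hfβ]
      by_contra hc
      push Not at hc
      have hle : D.VS.filter (fun v => D.kk v = 1 ∧ D.On v f) ⊆ {D.t e₁, D.t e₂, D.t e₃} := by
        intro v hv
        rw [mem_insert, mem_insert, mem_singleton]
        exact (hsub v hv).2
      have hcard : ({D.t e₁, D.t e₂, D.t e₃} : Finset V).card ≤ 3 := card_le_three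
      have heq := Finset.eq_of_subset_of_card_le hle (hcard.trans (by omega))
      have hin : ∀ v, (v = D.t e₁ ∨ v = D.t e₂ ∨ v = D.t e₃) → D.kk v = 1 := by
        intro v hv
        have : v ∈ D.VS.filter (fun v => D.kk v = 1 ∧ D.On v f) := by
          rw [heq, mem_insert, mem_insert, mem_singleton]
          exact hv
        exact (mem_filter.mp this).2.1
      have k1 := hin _ (Or.inl rfl)
      have k2 := hin _ (Or.inr (Or.inl rfl))
      have k3 := hin _ (Or.inr (Or.inr rfl))
      have e12 : e₁ = e₂ := (x1 k1 k2).trans (x2 k2 k3).symm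
      apply h.nodig.loop m1
      rw [h12, ← e12]
    · rw [if_neg hfβ, add_zero]
      rw [Finset.card_le_one]
      intro u hu v hv
      by_contra huv
      obtain ⟨ku, hu⟩ := hsub u hu
      obtain ⟨kv, hv⟩ := hsub v hv
      have y1 : ¬ (D.kk (D.t e₁) = 1 ∧ D.kk (D.t e₂) = 1) := fun hh =>
        hfβ (by rw [← x1 hh.1 hh.2]; exact r1.symm)
      have y2 : ¬ (D.kk (D.t e₂) = 1 ∧ D.kk (D.t e₃) = 1) := fun hh =>
        hfβ (by rw [← x2 hh.1 hh.2]; exact r2.symm)
      have y3 : ¬ (D.kk (D.t e₃) = 1 ∧ D.kk (D.t e₁) = 1) := fun hh =>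
        hfβ (by rw [← x3 hh.1 hh.2]; exact r3.symm)
      rcases hu with hu | hu | hu <;> rcases hv with hv | hv | hv <;> rw [hu] at ku <;>
        rw [hv] at kv <;>
        first
          | exact huv (hu.trans hv.symm)
          | exact y1 ⟨ku, kv⟩
          | exact y1 ⟨kv, ku⟩
          | exact y2 ⟨ku, kv⟩
          | exact y2 ⟨kv, ku⟩
          | exact y3 ⟨ku, kv⟩
          | exact y3 ⟨kv, ku⟩
  refine (Finset.sum_le_sum hpt).trans ?_
  rw [sum_add_distrib, sum_const, smul_eq_mul, mul_one, sum_ite_eq']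
  split_ifs <;> omega

end MinC

end NLC
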