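import Pool.Agent.NLC.Ear

/-!
# NLC / ColArc : precolouring the ends of an outer arc

Choose new `α ≠ γ ∉ D.S`, `y`, `s'` (`Infinite.exists_notMem_finset`), `D' = D.ear e α γ y s'`; it has
`D.S.card + 2` arcs.  A good colouring of `D'` is good for `D` (`t`, `h` agree on `D.S`).  If `i = j`: `PB` for
`D', s', α, e, γ` gives `c (t e) = c (h e)`; flip if necessary (`GoodOn.flip`).  If `i ≠ j`: `PB` for
`D', s', e, γ, α` (`OutTri.rot`) gives `c (h e) = c y`; then `c (t e) ≠ c (h e)`, because
otherwise `t e → h e → y → t e` would be monochromatic.  Flip if necessary.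
-/

set_option autoImplicit false

namespace NLC

open Finset Relation
open scoped Classical

variable {V A F : Type}

variable [Infinite V] [Infinite A] [Infinite F]

theorem col_arc {n : ℕ} (hn : PB V A F n) (D : Dg V A F) (hc : D.S.card + 2 ≤ n) (hD : D.Dual)
    (hN : D.NoDig) {e : A} (he : e ∈ D.S) (hs : D.Rooted (D.l e)) (i j : Bool) :
    ∃ c : V → Bool, D.Good c ∧ c (D.t e) = i ∧ c (D.h e) = j := by
  obtain ⟨α, hα⟩ := Infinite.exists_notMem_finset D.S
  obtain ⟨γ, hγ'⟩ := Infinite.exists_notMem_finset (insert α D.S)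
  obtain ⟨y, hy'⟩ := Infinite.exists_notMem_finset (D.S.image D.t ∪ D.S.image D.h)
  obtain ⟨s', hs''⟩ := Infinite.exists_notMem_finset (D.S.image D.l ∪ D.S.image D.r)
  have hγ : γ ∉ D.S := fun h => hγ' (mem_insert_of_mem h)
  have hαγ : α ≠ γ := fun h => hγ' (by rw [← h]; exact mem_insert_self _ _)
  have hy : ∀ a ∈ D.S, D.t a ≠ y ∧ D.h a ≠ y := fun a ha =>
    ⟨fun h => hy' (mem_union_left _ (by rw [← h]; exact mem_image_of_mem _ ha)),
      fun h => hy' (mem_union_right _ (by rw [← h]; exact mem_image_of_mem _ ha))⟩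
  have hs' : ∀ a ∈ D.S, D.l a ≠ s' ∧ D.r a ≠ s' := fun a ha =>
    ⟨fun h => hs'' (mem_union_left _ (by rw [← h]; exact mem_image_of_mem _ ha)),
      fun h => hs'' (mem_union_right _ (by rw [← h]; exact mem_image_of_mem _ ha))⟩
  set D' := D.ear e α γ y s' with hD'
  have hS' : D'.S = insert α (insert γ D.S) := rfl
  have hcard : D'.S.card ≤ n := by
    rw [hS', card_insert_of_notMem, card_insert_of_notMem hγ]
    · exact hc
    · rw [mem_insert, not_or]
      exact ⟨hαγ, hα⟩
  have ht : ∀ a ∈ D.S, D'.t a = D.t a := by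
    intro a ha
    change Function.update (Function.update D.t α y) γ (D.h e) a = D.t a
    rw [Function.update_of_ne (fun h => hγ (by rw [← h]; exact ha)),
      Function.update_of_ne (fun h => hα (by rw [← h]; exact ha))]
  have hh : ∀ a ∈ D.S, D'.h a = D.h a := by
    intro a ha
    change Function.update (Function.update D.h α (D.t e)) γ y a = D.h a
    rw [Function.update_of_ne (fun h => hγ (by rw [← h]; exact ha)),
      Function.update_of_ne (fun h => hα (by rw [← h]; exact ha))]
  have hdual : D'.Dual := Dg.ear_dual hD he hα hγ hαγ hy hs'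
  have hroot : D'.Rooted s' := Dg.ear_rooted hs he hα hγ hαγ
  have hnod : D'.NoDig := Dg.ear_nodig hN he hα hγ hαγ hy
  have hout : D'.OutTri s' α e γ := Dg.ear_outTri he hα hγ hαγ hs'
  have hgood : ∀ c : V → Bool, D'.Good c → D.Good c := by
    intro c hcg v hv
    refine hcg v (TransGen.mono ?_ v v hv)
    rintro u w ⟨a, ha, h1, h2, h3⟩
    refine ⟨a, ?_, ?_, ?_, h3⟩
    · rw [hS']
      exact mem_insert_of_mem (mem_insert_of_mem ha)
    · rw [ht a ha, h1]
    · rw [hh a ha, h2]
  by_cases hij : i = j
  · subst hij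
    obtain ⟨c, hcg, hce⟩ := hn D' s' α e γ hcard hdual hnod hroot hout
    rw [ht e he, hh e he] at hce
    by_cases hi : c (D.t e) = i
    · exact ⟨c, hgood c hcg, hi, by rw [← hce, hi]⟩
    · have hi' : (!(c (D.t e))) = i := by
        cases h1 : c (D.t e) <;> cases i <;> simp_all
      exact ⟨fun v => !(c v), (hgood c hcg).flip, hi', by
        change (!(c (D.h e))) = i
        rw [← hce]
        exact hi'⟩
  · obtain ⟨c, hcg, hce⟩ := hn D' s' e γ α hcard hdual hnod hroot hout.rot
    have h1 : D'.t γ = D.h e := by
      change Function.update (Function.update D.t α y) γ (D.h e) γ = D.h e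
      rw [Function.update_self]
    have h2 : D'.h γ = y := by
      change Function.update (Function.update D.h α (D.t e)) γ y γ = y
      rw [Function.update_self]
    have h3 : D'.t α = y := by
      change Function.update (Function.update D.t α y) γ (D.h e) α = y
      rw [Function.update_of_ne hαγ, Function.update_self]
    have h4 : D'.h α = D.t e := by
      change Function.update (Function.update D.h α (D.t e)) γ y α = D.t e
      rw [Function.update_of_ne hαγ, Function.update_self]
    rw [h1, h2] at hce
    have hne : c (D.t e) ≠ c (D.h e) := by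
      intro heq
      have m1 : D'.MS D'.S c (D.t e) (D.h e) := by
        refine ⟨e, ?_, ht e he, hh e he, heq⟩
        rw [hS']
        exact mem_insert_of_mem (mem_insert_of_mem he)
      have m2 : D'.MS D'.S c (D.h e) y := by
        refine ⟨γ, ?_, h1, h2, hce⟩
        rw [hS']
        exact mem_insert_of_mem (mem_insert_self _ _)
      have m3 : D'.MS D'.S c y (D.t e) := by
        refine ⟨α, ?_, h3, h4, ?_⟩
        · rw [hS']
          exact mem_insert_self _ _
        · rw [← hce, heq]
      exact hcg (D.t e) (((TransGen.single m1).tail m2).tail m3)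
    by_cases hi : c (D.t e) = i
    · refine ⟨c, hgood c hcg, hi, ?_⟩
      cases h5 : c (D.t e) <;> cases h6 : c (D.h e) <;> cases i <;> cases j <;> simp_all
    · refine ⟨fun v => !(c v), (hgood c hcg).flip, ?_, ?_⟩
      · change (!(c (D.t e))) = i
        cases h5 : c (D.t e) <;> cases h6 : c (D.h e) <;> cases i <;> cases j <;> simp_all
      · change (!(c (D.h e))) = j
        cases h5 : c (D.t e) <;> cases h6 : c (D.h e) <;> cases i <;> cases j <;> simp_all

end NLC
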