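import Pool.Agent.NLC.ColArc

/-!
# NLC / ColOne : precolouring one vertex

If `D.S = ∅` every colouring is good.  Otherwise `Rooted.exists_l` gives `e ∈ D.S` with `l e = s`; take any
colouring from `col_arc` and flip it if `c v ≠ i` (`GoodOn.flip`).
-/

set_option autoImplicit false

namespace NLC

open Finset Relation
open scoped Classical

variable {V A F : Type}

variable [Infinite V] [Infinite A] [Infinite F]

theorem col_one {n : ℕ} (hn : PB V A F n) (D : Dg V A F) (hc : D.S.card + 2 ≤ n) (hD : D.Dual)
    (hN : D.NoDig) {s : F} (hs : D.Rooted s) (v : V) (i : Bool) :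
    ∃ c : V → Bool, D.Good c ∧ c v = i := by
  rcases D.S.eq_empty_or_nonempty with h0 | hne
  · refine ⟨fun _ => i, ?_, rfl⟩
    intro w hw
    obtain ⟨b, ⟨a, ha, -⟩, -⟩ := TransGen.head'_iff.1 hw
    rw [h0] at ha
    exact absurd ha (notMem_empty a)
  · obtain ⟨e, he, hle⟩ := hs.exists_l hne
    obtain ⟨c, hcg, -, -⟩ := col_arc hn D hc hD hN he (by rw [hle]; exact hs) true true
    by_cases hi : c v = i
    · exact ⟨c, hcg, hi⟩
    · refine ⟨fun v => !(c v), hcg.flip, ?_⟩
      change (!(c v)) = i
      cases h5 : c v <;> cases i <;> simp_all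

end NLC
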