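import Pool.Agent.NLC.Del

/-!
# NLC / Cont : contraction of one arc

`op_dual`: immediate (`dv`, `df` are exchanged; `mul_comm`).  `con_dual`: `D.con e = (D.op.del e).op`
(definitionally), so `op_dual (del_dual (op_dual hD) he)`.

`con_rooted`: claim: if `ReflTransGen D.FStep s f` then `ReflTransGen (D.con e).FStep s f`; strong induction
on `ρ f`.  If `f = s`: refl.  Otherwise the last step uses `a ∈ D.S` with `r a = f`, and `l a` is reachable
in `D`, `ρ (l a) < ρ f`, so `l a` is reachable in `D.con e`.  If `a ≠ e`: the same step.  If `a = e`: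
use `e₂`: `r e₂ = f`, `l e₂` is reachable in `D` (`hs`), `ρ (l e₂) < ρ f`, `e₂ ≠ e`.
-/

set_option autoImplicit false

namespace NLC

open Finset Relation
open scoped Classical

variable {V A F : Type}

namespace Dg

variable {D : Dg V A F}

theorem op_dual (hD : D.Dual) : D.op.Dual where
  ortho := fun ψ φ => by
    rw [← hD.ortho φ ψ]
    refine sum_congr rfl fun a _ => ?_
    exact mul_comm _ _
  circ := fun c hc => hD.cut c hc
  cut := fun z hz => hD.circ z hz

theorem con_dual (hD : D.Dual) {e : A} (he : e ∈ D.S) : (D.con e).Dual := by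
  have h1 : (D.op.del e).op.Dual := op_dual (del_dual (op_dual hD) he)
  exact h1

theorem con_rooted {s : F} (hs : D.Rooted s) {ρ : F → ℕ} (hρ : ∀ a ∈ D.S, ρ (D.l a) < ρ (D.r a))
    {e e₂ : A} (he₂ : e₂ ∈ D.S) (hne : e₂ ≠ e) (hr : D.r e₂ = D.r e) : (D.con e).Rooted s := by
  have key : ∀ n : ℕ, ∀ f : F, ρ f = n → ReflTransGen D.FStep s f →
      ReflTransGen (D.con e).FStep s f := by
    intro n
    induction n using Nat.strong_induction_on with
    | _ n ih =>
      intro f hf hsf
      rcases ReflTransGen.cases_tail hsf with h1 | ⟨g, h1, a, ha, h2, h3⟩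
      · rw [h1]
      · by_cases hae : a = e
        · have h4 : D.r e₂ = f := by rw [hr, ← hae, h3]
          have h5 := ih (ρ (D.l e₂)) (by rw [← hf, ← h4]; exact hρ e₂ he₂) (D.l e₂) rfl (hs e₂ he₂)
          refine h5.tail ⟨e₂, ?_, rfl, h4⟩
          exact mem_erase.2 ⟨hne, he₂⟩
        · have h4 : ρ g < n := by
            rw [← hf, ← h3, ← h2]
            exact hρ a ha
          have h5 := ih (ρ g) h4 g rfl h1
          refine h5.tail ⟨a, ?_, h2, h3⟩
          exact mem_erase.2 ⟨hae, ha⟩
  intro a ha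
  have ha' : a ∈ D.S := (mem_erase.1 ha).2
  exact key _ _ rfl (hs a ha')

end Dg

end NLC
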