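import Pool.Agent.NLC.Cont
import Pool.Agent.NLC.SimpM

/-!
# NLC / Contr : contraction in a minimal counterexample

`D' = D.con e`, `p = t e`, `q = h e`, `m = mg p q` (sends `q` to `p`).  `m u = m v` iff `u = v` or `{u, v} = {p, q}`.
* `D'.Dual` (`con_dual`), `D'.Rooted s` (`con_rooted`, `h.rank`), `D'.OutTri s α β γ` (`l, r` unchanged; the outer arcs are
  `≠ e`), `D'.S.card < D.S.card`.
* `D'.NoDig`: let `x, y ∈ D.S`, `≠ e`, `m (t x) = m (h y)`, `m (h x) = m (t y)`.  (1) `t x = h y`, `h x = t y`: digon in `D`.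
  (2) `t x = h y`, `{h x, t y} = {p, q}`: if `h x = p`, `t y = q`: `hdir` for `y, x`; if `h x = q`, `t y = p`: `htr` for `y, x`.
  (3) `{t x, h y} = {p, q}`, `h x = t y`: if `t x = p`, `h y = q`: `htr` for `x, y`; if `t x = q`, `h y = p`: `hdir` for `x, y`.
  (4) `{t x, h y} = {p, q} = {h x, t y}`: `x` is a loop or parallel or antiparallel to `e`: contradiction to `h.simp`
  and `x ≠ e`.
* `PB` (`h.ih`) gives `c'` good for `D'` with `c' (m (t β)) = c' (m (h β))`.  `c = c' ∘ m` is good for `D`: contradiction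
  to `h.bad`.  Goodness: every monochromatic step of `D` by an arc `a ≠ e` gives the step `m u → m v` of `D'`, a
  step by `e` gives `m u = m v`.  So a cycle through `v` gives `ReflTransGen` from `m v` to `m v` in `D'`, which must be
  trivial (otherwise a cycle of `D'`); i.e. claim: `TransGen (D.MS D.S c) u w → TransGen (D'.MS D'.S c') (m u) (m w) ∨
  (u = p ∧ w = q)` (two consecutive steps by `e` are impossible; `p ≠ q`).
-/

set_option autoImplicit false

namespace NLC

open Finset Relation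
open scoped Classical

variable {V A F : Type}

private theorem Contr_mg {T : Type} {p q : T} (hpq : p ≠ q) (u v : T) :
    mg p q u = mg p q v ↔ u = v ∨ (u = p ∧ v = q) ∨ (u = q ∧ v = p) := by
  unfold mg
  by_cases hu : u = q
  · by_cases hv : v = q
    · rw [if_pos hu, if_pos hv]
      exact ⟨fun _ => Or.inl (hu.trans hv.symm), fun _ => rfl⟩
    · rw [if_pos hu, if_neg hv]
      constructor
      · intro h; exact Or.inr (Or.inr ⟨hu, h.symm⟩)
      · rintro (h | ⟨_, h⟩ | ⟨_, h⟩)
        · exact absurd (h.symm.trans hu) hv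
        · exact absurd h hv
        · exact h.symm
  · by_cases hv : v = q
    · rw [if_neg hu, if_pos hv]
      constructor
      · intro h; exact Or.inr (Or.inl ⟨h, hv⟩)
      · rintro (h | ⟨h, _⟩ | ⟨h, _⟩)
        · exact absurd (h.trans hv) hu
        · exact h
        · exact absurd h hu
    · rw [if_neg hu, if_neg hv]
      constructor
      · intro h; exact Or.inl h
      · rintro (h | ⟨_, h⟩ | ⟨h, _⟩)
        · exact h
        · exact absurd h hv
        · exact absurd h hu

private theorem Contr_good {D : Dg V A F} {e : A} (hpq : D.t e ≠ D.h e)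
    {c' : V → Bool} (hc' : (D.con e).Good c') : D.Good (fun v => c' (mg (D.t e) (D.h e) v)) := by
  have hmq : mg (D.t e) (D.h e) (D.h e) = D.t e := by unfold mg; rw [if_pos rfl]
  have hmp : mg (D.t e) (D.h e) (D.t e) = D.t e := by unfold mg; rw [if_neg hpq]
  have hstep : ∀ a ∈ D.S, a ≠ e → ∀ u w, D.t a = u → D.h a = w →
      c' (mg (D.t e) (D.h e) u) = c' (mg (D.t e) (D.h e) w) →
      (D.con e).MS (D.con e).S c' (mg (D.t e) (D.h e) u) (mg (D.t e) (D.h e) w) := by
    intro a ha hae u w hu hw hc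
    refine ⟨a, mem_erase.mpr ⟨hae, ha⟩, ?_, ?_, hc⟩
    · change mg (D.t e) (D.h e) (D.t a) = _
      rw [hu]
    · change mg (D.t e) (D.h e) (D.h a) = _
      rw [hw]
  have key : ∀ u w, TransGen (D.MS D.S (fun v => c' (mg (D.t e) (D.h e) v))) u w →
      TransGen ((D.con e).MS (D.con e).S c') (mg (D.t e) (D.h e) u) (mg (D.t e) (D.h e) w) ∨
        (u = D.t e ∧ w = D.h e) := by
    intro u w huw
    induction huw with
    | single hst =>
      obtain ⟨a, ha, h1, h2, h3⟩ := hst
      by_cases hae : a = e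
      · subst hae
        exact Or.inr ⟨h1.symm, h2.symm⟩
      · exact Or.inl (TransGen.single (hstep a ha hae _ _ h1 h2 h3))
    | tail _ hst ih =>
      obtain ⟨a, ha, h1, h2, h3⟩ := hst
      rcases ih with ih | ⟨ih1, ih2⟩
      · by_cases hae : a = e
        · subst hae
          left
          rw [← h2, hmq]
          rw [← h1, hmp] at ih
          exact ih
        · exact Or.inl (ih.tail (hstep a ha hae _ _ h1 h2 h3))
      · have hae : a ≠ e := by
          rintro rfl
          exact hpq (h1.trans ih2)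
        left
        rw [ih1, hmp]
        have := hstep a ha hae _ _ h1 h2 h3
        rw [ih2, hmq] at this
        exact TransGen.single this
  intro v hv
  rcases key v v hv with h1 | ⟨h1, h2⟩
  · exact hc' _ h1
  · exact hpq (h1.symm.trans h2)

variable [Infinite V] [Infinite A] [Infinite F]

namespace MinC

variable {D : Dg V A F} {s : F} {α β γ : A}

theorem contract (h : MinC D s α β γ) {e e₂ : A} (he : e ∈ D.S) (h1 : e ≠ α) (h2 : e ≠ β)
    (h3 : e ≠ γ) (he₂ : e₂ ∈ D.S) (hne : e₂ ≠ e) (hr : D.r e₂ = D.r e)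
    (hdir : ∀ x ∈ D.S, ∀ y ∈ D.S, ¬ (D.t x = D.h e ∧ D.h x = D.t y ∧ D.h y = D.t e))
    (htr : ∀ x ∈ D.S, ∀ y ∈ D.S, ¬ (D.t x = D.t e ∧ D.h x = D.t y ∧ D.h y = D.h e)) : False := by
  obtain ⟨ρ, hρ⟩ := h.rank
  have hpq : D.t e ≠ D.h e := h.nodig.loop he
  have hM := fun u v : V => Contr_mg hpq u v
  have hND : (D.con e).NoDig := by
    intro x hx y hy hxy
    obtain ⟨hxe, hxS⟩ := mem_erase.mp hx
    obtain ⟨hye, hyS⟩ := mem_erase.mp hy
    have a1 : mg (D.t e) (D.h e) (D.t x) = mg (D.t e) (D.h e) (D.h y) := hxy.1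
    have a2 : mg (D.t e) (D.h e) (D.h x) = mg (D.t e) (D.h e) (D.t y) := hxy.2
    rw [hM] at a1 a2
    rcases a1 with a1 | ⟨a1, b1⟩ | ⟨a1, b1⟩
    · rcases a2 with a2 | ⟨a2, b2⟩ | ⟨a2, b2⟩
      · exact h.nodig x hxS y hyS ⟨a1, a2⟩
      · exact hdir y hyS x hxS ⟨b2, a1.symm, a2⟩
      · exact htr y hyS x hxS ⟨b2, a1.symm, a2⟩
    · rcases a2 with a2 | ⟨a2, b2⟩ | ⟨a2, b2⟩
      · exact htr x hxS y hyS ⟨a1, a2, b1⟩
      · exact h.nodig.loop hxS (a1.trans a2.symm)
      · exact hxe (h.simp.par x hxS e he a1 a2)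
    · rcases a2 with a2 | ⟨a2, b2⟩ | ⟨a2, b2⟩
      · exact hdir x hxS y hyS ⟨a1, a2, b1⟩
      · exact h.nodig x hxS e he ⟨a1, a2⟩
      · exact h.nodig.loop hxS (a1.trans a2.symm)
  have o := h.out
  have hO : (D.con e).OutTri s α β γ :=
    { mα := mem_erase.mpr ⟨h1.symm, o.mα⟩
      mβ := mem_erase.mpr ⟨h2.symm, o.mβ⟩
      mγ := mem_erase.mpr ⟨h3.symm, o.mγ⟩
      hα := by
        change mg (D.t e) (D.h e) (D.h α) = mg (D.t e) (D.h e) (D.t β)
        rw [o.hα]
      hβ := by
        change mg (D.t e) (D.h e) (D.h β) = mg (D.t e) (D.h e) (D.t γ)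
        rw [o.hβ]
      hγ := by
        change mg (D.t e) (D.h e) (D.h γ) = mg (D.t e) (D.h e) (D.t α)
        rw [o.hγ]
      lα := o.lα
      lβ := o.lβ
      lγ := o.lγ
      only := fun x hx hl => o.only x (mem_of_mem_erase hx) hl
      nor := fun x hx => o.nor x (mem_of_mem_erase hx) }
  have hcard : (D.con e).S.card < D.S.card := Finset.card_erase_lt_of_mem he
  obtain ⟨c', hc', hβ'⟩ := h.ih _ hcard (D.con e) s α β γ le_rfl (Dg.con_dual h.dual he) hND
    (Dg.con_rooted h.rooted hρ he₂ hne hr) hO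
  exact h.bad ⟨_, Contr_good hpq hc', hβ'⟩

end MinC

end NLC
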