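import Mathlib

/-!
# NLC / Defs : oriented graphs with an algebraic dual

A `Dg V A F` is a finite set `S` of arcs; the arc `a` goes from the vertex `t a` (tail) to the vertex
`h a` (head) and has the face `l a` on its left and the face `r a` on its right.  `Dual` says that
(over `ℚ`) the circulations are exactly the functions `a ↦ φ (r a) - φ (l a)` and that the functions
orthogonal to all of these are exactly the functions `a ↦ ψ (h a) - ψ (t a)`.  For a plane digraph this
holds; deletion of an arc of `D` merges its two faces, contraction merges its two end vertices.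

`Rooted s`: all faces can be reached from `s` by crossing arcs from left to right; for a plane digraph
with outer face `s` this means: there is no counterclockwise directed cycle.
-/

set_option autoImplicit false

namespace NLC

open Finset Relation
open scoped Classical

/-- arcs `S`, tail `t`, head `h`, left face `l`, right face `r` -/
structure Dg (V A F : Type) where
  S : Finset A
  t : A → V
  h : A → V
  l : A → F
  r : A → F

variable {V A F : Type}

namespace Dg

/-- coboundary of a function on the vertices -/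
def dv (D : Dg V A F) (ψ : V → ℚ) (a : A) : ℚ := ψ (D.h a) - ψ (D.t a)

/-- coboundary of a function on the faces -/
def df (D : Dg V A F) (φ : F → ℚ) (a : A) : ℚ := φ (D.r a) - φ (D.l a)

/-- algebraic duality -/
structure Dual (D : Dg V A F) : Prop where
  ortho : ∀ (ψ : V → ℚ) (φ : F → ℚ), ∑ a ∈ D.S, D.dv ψ a * D.df φ a = 0
  circ : ∀ c : A → ℚ, (∀ ψ : V → ℚ, ∑ a ∈ D.S, c a * D.dv ψ a = 0) →
    ∃ φ : F → ℚ, ∀ a ∈ D.S, c a = D.df φ a
  cut : ∀ z : A → ℚ, (∀ φ : F → ℚ, ∑ a ∈ D.S, z a * D.df φ a = 0) →
    ∃ ψ : V → ℚ, ∀ a ∈ D.S, z a = D.dv ψ a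

/-- `a` is incident with the vertex `v` -/
def Inc (D : Dg V A F) (a : A) (v : V) : Prop := D.t a = v ∨ D.h a = v

/-- `a` is incident with the face `f` -/
def IncF (D : Dg V A F) (a : A) (f : F) : Prop := D.l a = f ∨ D.r a = f

/-- arcs leaving `v` -/
noncomputable def outs (D : Dg V A F) (v : V) : Finset A := D.S.filter (fun a => D.t a = v)

/-- arcs entering `v` -/
noncomputable def ins (D : Dg V A F) (v : V) : Finset A := D.S.filter (fun a => D.h a = v)

/-- arcs crossing into the face `f` (which have `f` on their right) -/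
noncomputable def inF (D : Dg V A F) (f : F) : Finset A := D.S.filter (fun a => D.r a = f)

/-- arcs crossing out of the face `f` (which have `f` on their left) -/
noncomputable def outF (D : Dg V A F) (f : F) : Finset A := D.S.filter (fun a => D.l a = f)

/-- one arc from `u` to `v` -/
def VStep (D : Dg V A F) (u v : V) : Prop := ∃ a ∈ D.S, D.t a = u ∧ D.h a = v

/-- one step in the dual: cross an arc from left to right -/
def FStep (D : Dg V A F) (f g : F) : Prop := ∃ a ∈ D.S, D.l a = f ∧ D.r a = g

/-- all arcs can be reached from `s` in the dual -/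
def Rooted (D : Dg V A F) (s : F) : Prop := ∀ a ∈ D.S, ReflTransGen D.FStep s (D.l a)

/-- no loops and no directed 2-cycles (with `a = b`: no loops) -/
def NoDig (D : Dg V A F) : Prop := ∀ a ∈ D.S, ∀ b ∈ D.S, ¬ (D.t a = D.h b ∧ D.h a = D.t b)

/-- moreover no parallel arcs -/
structure Simp (D : Dg V A F) : Prop where
  nodig : D.NoDig
  par : ∀ a ∈ D.S, ∀ b ∈ D.S, D.t a = D.t b → D.h a = D.h b → a = b

/-- monochromatic arc of `X` from `u` to `v` -/
def MS (D : Dg V A F) (X : Finset A) (c : V → Bool) (u v : V) : Prop :=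
  ∃ a ∈ X, D.t a = u ∧ D.h a = v ∧ c u = c v

/-- no monochromatic directed cycle with arcs in `X` -/
def GoodOn (D : Dg V A F) (X : Finset A) (c : V → Bool) : Prop :=
  ∀ v, ¬ TransGen (D.MS X c) v v

/-- no monochromatic directed cycle -/
def Good (D : Dg V A F) (c : V → Bool) : Prop := D.GoodOn D.S c

/-- The face `s` is bounded by the directed triangle `α β γ` which has `s` on its left. -/
structure OutTri (D : Dg V A F) (s : F) (α β γ : A) : Prop where
  mα : α ∈ D.S
  mβ : β ∈ D.S
  mγ : γ ∈ D.S
  hα : D.h α = D.t β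
  hβ : D.h β = D.t γ
  hγ : D.h γ = D.t α
  lα : D.l α = s
  lβ : D.l β = s
  lγ : D.l γ = s
  only : ∀ x ∈ D.S, D.l x = s → x = α ∨ x = β ∨ x = γ
  nor : ∀ x ∈ D.S, D.r x ≠ s

/-- The face `f` is bounded by a directed triangle which has `f` on its right. -/
def TriF (D : Dg V A F) (f : F) : Prop :=
  ∃ e₁ ∈ D.S, ∃ e₂ ∈ D.S, ∃ e₃ ∈ D.S, D.h e₁ = D.t e₂ ∧ D.h e₂ = D.t e₃ ∧ D.h e₃ = D.t e₁ ∧
    D.r e₁ = f ∧ D.r e₂ = f ∧ D.r e₃ = f ∧
    ∀ x ∈ D.S, D.IncF x f → x = e₁ ∨ x = e₂ ∨ x = e₃

end Dg

/-- Extension statement for at most `n` arcs: if the outer face is the directed triangle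
`α β γ` then there is a good colouring for which `β` is monochromatic. -/
def PB (V A F : Type) (n : ℕ) : Prop :=
  ∀ (D : Dg V A F) (s : F) (α β γ : A), D.S.card ≤ n → D.Dual → D.NoDig → D.Rooted s →
    D.OutTri s α β γ → ∃ c : V → Bool, D.Good c ∧ c (D.t β) = c (D.h β)

/-- a minimal counterexample -/
structure MinC (D : Dg V A F) (s : F) (α β γ : A) : Prop where
  dual : D.Dual
  nodig : D.NoDig
  rooted : D.Rooted s
  out : D.OutTri s α β γ
  bad : ¬ ∃ c : V → Bool, D.Good c ∧ c (D.t β) = c (D.h β)
  ih : ∀ n, n < D.S.card → PB V A F n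

/-- `x, y` are two consecutive ones of the three outer arcs -/
def Cons (α β γ x y : A) : Prop := (x = α ∧ y = β) ∨ (x = β ∧ y = γ) ∨ (x = γ ∧ y = α)

/-- The face `f` has exactly two entering arcs `x, y`; these are two consecutive outer arcs and their
common vertex is not incident with any other arc. -/
def Dg.TwoF (D : Dg V A F) (α β γ : A) (f : F) : Prop :=
  ∃ x y, Cons α β γ x y ∧ D.r x = f ∧ D.r y = f ∧ (∀ a ∈ D.S, D.r a = f → a = x ∨ a = y) ∧
    ∀ a ∈ D.S, D.Inc a (D.h x) → a = x ∨ a = y

/-- replace `y` by `x` -/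
noncomputable def mg {T : Type} (x y z : T) : T := if z = y then x else z

namespace Dg

/-- deletion of the arc `e` (the faces `l e` and `r e` are merged) -/
noncomputable def del (D : Dg V A F) (e : A) : Dg V A F where
  S := D.S.erase e
  t := D.t
  h := D.h
  l := fun a => mg (D.l e) (D.r e) (D.l a)
  r := fun a => mg (D.l e) (D.r e) (D.r a)

/-- contraction of the arc `e` (the vertices `t e` and `h e` are merged) -/
noncomputable def con (D : Dg V A F) (e : A) : Dg V A F where
  S := D.S.erase e
  t := fun a => mg (D.t e) (D.h e) (D.t a)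
  h := fun a => mg (D.t e) (D.h e) (D.h a)
  l := D.l
  r := D.r

/-- exchange vertices and faces -/
def op (D : Dg V A F) : Dg F A V where
  S := D.S
  t := D.l
  h := D.r
  l := D.t
  r := D.h

/-- mirror image with all arcs reversed -/
def mir (D : Dg V A F) : Dg V A F where
  S := D.S
  t := D.h
  h := D.t
  l := D.l
  r := D.r

/-- reverse the arc `e` -/
noncomputable def rv (D : Dg V A F) (e : A) : Dg V A F where
  S := D.S
  t := Function.update D.t e (D.h e)
  h := Function.update D.h e (D.t e)
  l := Function.update D.l e (D.r e)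
  r := Function.update D.r e (D.l e)

/-- Add a new vertex `y`, the new arcs `α : y → t e`, `γ : h e → y` and the new outer face `s'`
(bounded by `α, e, γ`, which have it on their left; the old face `l e` is now to the right of `α` and
`γ`). -/
noncomputable def ear (D : Dg V A F) (e α γ : A) (y : V) (s' : F) : Dg V A F where
  S := insert α (insert γ D.S)
  t := Function.update (Function.update D.t α y) γ (D.h e)
  h := Function.update (Function.update D.h α (D.t e)) γ y
  l := Function.update (Function.update (Function.update D.l e s') α s') γ s'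
  r := Function.update (Function.update D.r α (D.l e)) γ (D.l e)

/-- `D'` is obtained from `D` by deletion of the arcs in `X`; the faces change by `m`. -/
structure IsDel (D D' : Dg V A F) (X : Finset A) (m : F → F) : Prop where
  S : D'.S = D.S \ X
  t : D'.t = D.t
  h : D'.h = D.h
  l : ∀ a, D'.l a = m (D.l a)
  r : ∀ a, D'.r a = m (D.r a)
  dual : D'.Dual
  root : ∀ s, D.Rooted s → D'.Rooted (m s)
  fix : ∀ f, (∀ x ∈ X, x ∈ D.S → D.l x ≠ f ∧ D.r x ≠ f) → m f = f ∧ ∀ g, m g = f → g = f

end Dg

end NLC
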