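import Pool.Agent.NLC.Basic

/-!
# NLC / Del : deletion of one arc

`D' = D.del e`, `m = mg (l e) (r e)` (it sends `r e` to `l e` and is the identity otherwise).  A function
`φ : F → ℚ` with `φ (r e) = φ (l e)` satisfies `φ ∘ m = φ`; and `φ ∘ m` always has this property.
* ortho: `∑_{a ≠ e} dv ψ a * (φ (m (r a)) - φ (m (l a))) = ∑_a dv ψ a * D.df (φ ∘ m) a = 0`, because the
  term of `e` vanishes.
* circ: let `c' = c` off `e` and `c' e = 0`; it is a circulation of `D`, so `c' = D.df φ`; then
  `φ (r e) = φ (l e)`, so `φ = φ ∘ m` and `c a = D'.df φ a` for `a ≠ e`.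
* cut: let `B φ = ∑_{a ≠ e} z a * D.df φ a` (linear in `φ`).  `B φ = 0` if `φ (r e) = φ (l e)` (then
  `D.df φ a = D'.df φ a`).  If `l e = r e`: put `k = 0`.  Otherwise let `k = - B 1_{r e}`; for a general `φ` let
  `φ₀ = φ - (φ (r e) - φ (l e)) 1_{r e}`: `B φ₀ = 0`, so `B φ = - k (φ (r e) - φ (l e))`.  So `z` with the
  value `k` at `e` is orthogonal to all `D.df φ`, and `D.cut` gives `ψ`.
* rooted: every step `f → g` of `D` gives `m f → m g` or `m f = m g` (if it uses `e`):
  `ReflTransGen.lift'` or an induction.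
-/

set_option autoImplicit false

namespace NLC

open Finset Relation
open scoped Classical

variable {V A F : Type}

namespace Dg

variable {D : Dg V A F}

private theorem Del_mgq (p q : F) : mg p q q = p := by unfold mg; simp

private theorem Del_mgp (p q : F) : mg p q p = p := by unfold mg; split_ifs <;> rfl

private theorem Del_comp {p q : F} {φ : F → ℚ} (h : φ q = φ p) (z : F) : φ (mg p q z) = φ z := by
  unfold mg
  split_ifs with h1
  · rw [h1, h]
  · rfl

theorem del_dual (hD : D.Dual) {e : A} (he : e ∈ D.S) : (D.del e).Dual := by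
  refine ⟨?_, ?_, ?_⟩
  · intro ψ φ
    have h1 := hD.ortho ψ (fun z => φ (mg (D.l e) (D.r e) z))
    have h2 : ∑ a ∈ D.S.erase e, D.dv ψ a * D.df (fun z => φ (mg (D.l e) (D.r e) z)) a =
        ∑ a ∈ D.S, D.dv ψ a * D.df (fun z => φ (mg (D.l e) (D.r e) z)) a := by
      refine sum_erase _ ?_
      show D.dv ψ e * (φ (mg (D.l e) (D.r e) (D.r e)) - φ (mg (D.l e) (D.r e) (D.l e))) = 0
      rw [Del_mgq, Del_mgp, sub_self, mul_zero]
    rw [h1] at h2
    exact h2
  · intro c hc
    have h1 : ∀ ψ : V → ℚ, ∑ a ∈ D.S, (Function.update c e 0) a * D.dv ψ a = 0 := by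
      intro ψ
      have h2 : ∑ a ∈ D.S.erase e, (Function.update c e 0) a * D.dv ψ a =
          ∑ a ∈ D.S, (Function.update c e 0) a * D.dv ψ a := by
        refine sum_erase _ ?_
        rw [Function.update_self, zero_mul]
      rw [← h2]
      have h3 : ∑ a ∈ D.S.erase e, (Function.update c e 0) a * D.dv ψ a =
          ∑ a ∈ D.S.erase e, c a * D.dv ψ a := by
        refine sum_congr rfl fun a ha => ?_
        rw [Function.update_of_ne (ne_of_mem_erase ha)]
      rw [h3]
      exact hc ψ
    obtain ⟨φ, hφ⟩ := hD.circ _ h1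
    have h4 : φ (D.r e) = φ (D.l e) := by
      have := hφ e he
      rw [Function.update_self] at this
      unfold df at this
      linarith
    refine ⟨φ, fun a ha => ?_⟩
    have ha1 : a ∈ D.S := mem_of_mem_erase ha
    have ha2 : a ≠ e := ne_of_mem_erase ha
    have h5 := hφ a ha1
    rw [Function.update_of_ne ha2] at h5
    rw [h5]
    show φ (D.r a) - φ (D.l a) = φ (mg (D.l e) (D.r e) (D.r a)) - φ (mg (D.l e) (D.r e) (D.l a))
    rw [Del_comp h4, Del_comp h4]
  · intro z hz
    have hz' : ∀ φ : F → ℚ, φ (D.r e) = φ (D.l e) → ∑ a ∈ D.S.erase e, z a * D.df φ a = 0 := by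
      intro φ hφ
      rw [← hz φ]
      refine sum_congr rfl fun a _ => ?_
      show z a * (φ (D.r a) - φ (D.l a)) =
        z a * (φ (mg (D.l e) (D.r e) (D.r a)) - φ (mg (D.l e) (D.r e) (D.l a)))
      rw [Del_comp hφ, Del_comp hφ]
    have hk : ∃ k : ℚ, ∀ φ : F → ℚ, ∑ a ∈ D.S.erase e, z a * D.df φ a = - k * D.df φ e := by
      by_cases hpq : D.l e = D.r e
      · refine ⟨0, fun φ => ?_⟩
        rw [hz' φ (by rw [hpq])]
        ring
      · refine ⟨- ∑ a ∈ D.S.erase e, z a * D.df (fun f => if f = D.r e then 1 else 0) a,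
          fun φ => ?_⟩
        have h1 := hz' (fun f => φ f - (φ (D.r e) - φ (D.l e)) * (if f = D.r e then 1 else 0))
          (by
            show φ (D.r e) - (φ (D.r e) - φ (D.l e)) * (if D.r e = D.r e then 1 else 0) =
              φ (D.l e) - (φ (D.r e) - φ (D.l e)) * (if D.l e = D.r e then 1 else 0)
            rw [if_pos rfl, if_neg hpq]
            ring)
        have h2 : ∑ a ∈ D.S.erase e, z a * D.df (fun f => φ f - (φ (D.r e) - φ (D.l e)) *
            (if f = D.r e then 1 else 0)) a = ∑ a ∈ D.S.erase e, z a * D.df φ a -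
            (φ (D.r e) - φ (D.l e)) *
              ∑ a ∈ D.S.erase e, z a * D.df (fun f => if f = D.r e then 1 else 0) a := by
          rw [mul_sum, ← sum_sub_distrib]
          refine sum_congr rfl fun a _ => ?_
          unfold df
          ring
        rw [h2] at h1
        show _ = - - (∑ a ∈ D.S.erase e, z a * D.df (fun f => if f = D.r e then 1 else 0) a) *
          (φ (D.r e) - φ (D.l e))
        linarith
    obtain ⟨k, hk⟩ := hk
    obtain ⟨ψ, hψ⟩ := hD.cut (Function.update z e k) (by
      intro φ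
      rw [← add_sum_erase _ _ he, Function.update_self]
      have h3 : ∑ a ∈ D.S.erase e, (Function.update z e k) a * D.df φ a =
          ∑ a ∈ D.S.erase e, z a * D.df φ a := by
        refine sum_congr rfl fun a ha => ?_
        rw [Function.update_of_ne (ne_of_mem_erase ha)]
      rw [h3, hk φ]
      ring)
    refine ⟨ψ, fun a ha => ?_⟩
    have ha1 : a ∈ D.S := mem_of_mem_erase ha
    have ha2 : a ≠ e := ne_of_mem_erase ha
    have h5 := hψ a ha1
    rw [Function.update_of_ne ha2] at h5
    exact h5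

theorem del_rooted {s : F} (hs : D.Rooted s) {e : A} (he : e ∈ D.S) :
    (D.del e).Rooted (mg (D.l e) (D.r e) s) := by
  intro a ha
  refine ReflTransGen.lift' (mg (D.l e) (D.r e)) ?_ _ _ (hs a (mem_of_mem_erase ha))
  rintro f g ⟨b, hb, rfl, rfl⟩
  by_cases hbe : b = e
  · subst hbe
    show ReflTransGen (D.del b).FStep (mg (D.l b) (D.r b) (D.l b)) (mg (D.l b) (D.r b) (D.r b))
    rw [Del_mgq, Del_mgp]
  · exact ReflTransGen.single ⟨b, mem_erase.2 ⟨hbe, hb⟩, rfl, rfl⟩

end Dg

end NLC
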