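import Pool.Agent.NLC.Del

/-!
# NLC / DelSet : deletion of a set of arcs

Induction on `X` (`Finset.induction_on`).  `X = ∅`: `D' = D`, `m = id`.  Step `insert e X`: let `D₁, m₁`
be given for `X`.  If `e ∈ D₁.S` take `D₁.del e` and `m = mg (D₁.l e) (D₁.r e) ∘ m₁`; if `e ∉ D₁.S` take
`D₁, m₁` (then `D.S \ insert e X = D.S \ X`).  For `fix`: if `f` is untouched by `insert e X` then
`m₁ f = f` and `m₁ g = f → g = f`; so `D₁.l e = m₁ (D.l e) ≠ f` and `D₁.r e ≠ f`; so
`mg (D₁.l e) (D₁.r e)` fixes `f` and sends nothing else to `f`.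
-/

set_option autoImplicit false

namespace NLC

open Finset Relation
open scoped Classical

variable {V A F : Type}

namespace Dg

variable {D : Dg V A F}

theorem exists_del (hD : D.Dual) (X : Finset A) :
    ∃ D' : Dg V A F, ∃ m : F → F, D.IsDel D' X m := by
  induction X using Finset.induction_on with
  | empty =>
    exact ⟨D, id, by simp, rfl, rfl, fun _ => rfl, fun _ => rfl, hD, fun _ hs => hs,
      fun _ _ => ⟨rfl, fun _ hg => hg⟩⟩
  | insert e X heX ih =>
    obtain ⟨D₁, m₁, H⟩ := ih
    by_cases he : e ∈ D₁.S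
    · have heS : e ∈ D.S := by
        rw [H.S] at he
        exact (mem_sdiff.1 he).1
      refine ⟨D₁.del e, fun f => mg (D₁.l e) (D₁.r e) (m₁ f), ?_, ?_, ?_, ?_, ?_, ?_, ?_, ?_⟩
      · change D₁.S.erase e = _
        rw [H.S]
        ext x
        simp only [mem_erase, mem_sdiff, mem_insert]
        tauto
      · exact H.t
      · exact H.h
      · intro a
        change mg (D₁.l e) (D₁.r e) (D₁.l a) = _
        rw [H.l a]
      · intro a
        change mg (D₁.l e) (D₁.r e) (D₁.r a) = _
        rw [H.r a]
      · exact del_dual H.dual he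
      · exact fun s hs => del_rooted (H.root s hs) he
      · intro f hf
        obtain ⟨h1, h2⟩ := H.fix f fun x hx hxS => hf x (mem_insert_of_mem hx) hxS
        obtain ⟨h3, h4⟩ := hf e (mem_insert_self _ _) heS
        have h5 : D₁.l e ≠ f := fun h => h3 (h2 _ (by rw [← H.l e]; exact h))
        have h6 : D₁.r e ≠ f := fun h => h4 (h2 _ (by rw [← H.r e]; exact h))
        constructor
        · change mg (D₁.l e) (D₁.r e) (m₁ f) = f
          rw [h1]
          unfold mg
          rw [if_neg (Ne.symm h6)]
        · intro g hg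
          change mg (D₁.l e) (D₁.r e) (m₁ g) = f at hg
          unfold mg at hg
          split_ifs at hg with h7
          · exact absurd hg h5
          · exact h2 g hg
    · refine ⟨D₁, m₁, ?_, H.t, H.h, H.l, H.r, H.dual, H.root, ?_⟩
      · rw [H.S] at he ⊢
        ext x
        simp only [mem_sdiff, mem_insert] at he ⊢
        constructor
        · rintro ⟨h1, h2⟩
          refine ⟨h1, ?_⟩
          rintro (rfl | h3)
          · exact he ⟨h1, h2⟩
          · exact h2 h3
        · rintro ⟨h1, h2⟩
          exact ⟨h1, fun h3 => h2 (Or.inr h3)⟩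
      · exact fun f hf => H.fix f fun x hx hxS => hf x (mem_insert_of_mem hx) hxS

end Dg

end NLC
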