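import Pool.Agent.NLC.Basic

/-!
# NLC / Ear : adding an ear outside

Write `D' = D.ear e α γ y s'`, `b = t e`, `c = h e`, `s = l e`.  New arcs `α : y → b`, `γ : c → y`, both with
left face `s'` and right face `s`; the arc `e` now has left face `s'`; all the rest is unchanged
(`Function.update`; `α, γ ∉ D.S`, `α ≠ γ`, `e ∈ D.S`, so `e ≠ α, γ`).
* ortho: `∑_{D'} = ∑_D dv ψ a * df φ a + (φ s - φ s') * ((ψ c - ψ b) + (ψ b - ψ y) + (ψ y - ψ c))`.
* circ: testing with `ψ = 1_y` gives `c α = c γ =: k`.  `c₀ a = c a` for `a ≠ e`, `c₀ e = c e - k` is a circulation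
  of `D`, so `= D.df φ`.  Put `φ' = φ` except `φ' s' = φ s - k` (`s'` is a new face).
* cut: testing with `φ' = φ` except `φ' s' = φ s` gives that `z` is orthogonal to all `D.df φ`, so `z = D.dv ψ`
  on `D.S`.  Testing with `1_{s'}`: `z α + z e + z γ = 0`.  Put `ψ' = ψ` except `ψ' y = ψ c + z γ`.
* rooted: by `α` we have the step `s' → s`, by `e` the step `s' → r e`.  So everything reachable from `s` in
  `D` is reachable from `s'` in `D'`.
* nodig: `t e ≠ h e`, and `y` is a new vertex.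
-/

set_option autoImplicit false

namespace NLC

open Finset Relation
open scoped Classical

variable {V A F : Type}

namespace Dg

variable {D : Dg V A F} {e α γ : A} {y : V} {s' : F}

private lemma Ear_tα (hαγ : α ≠ γ) : (D.ear e α γ y s').t α = y := by
  simp [ear, Function.update_of_ne hαγ]

private lemma Ear_tγ : (D.ear e α γ y s').t γ = D.h e := by
  simp [ear]

private lemma Ear_hα (hαγ : α ≠ γ) : (D.ear e α γ y s').h α = D.t e := by
  simp [ear, Function.update_of_ne hαγ]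

private lemma Ear_hγ : (D.ear e α γ y s').h γ = y := by
  simp [ear]

private lemma Ear_lα (hαγ : α ≠ γ) : (D.ear e α γ y s').l α = s' := by
  simp [ear, Function.update_of_ne hαγ]

private lemma Ear_lγ : (D.ear e α γ y s').l γ = s' := by
  simp [ear]

private lemma Ear_le (hα : e ≠ α) (hγ : e ≠ γ) : (D.ear e α γ y s').l e = s' := by
  simp [ear, Function.update_of_ne hα, Function.update_of_ne hγ]

private lemma Ear_rα (hαγ : α ≠ γ) : (D.ear e α γ y s').r α = D.l e := by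
  simp [ear, Function.update_of_ne hαγ]

private lemma Ear_rγ : (D.ear e α γ y s').r γ = D.l e := by
  simp [ear]

private lemma Ear_t {a : A} (h1 : a ≠ α) (h2 : a ≠ γ) : (D.ear e α γ y s').t a = D.t a := by
  simp [ear, Function.update_of_ne h1, Function.update_of_ne h2]

private lemma Ear_h {a : A} (h1 : a ≠ α) (h2 : a ≠ γ) : (D.ear e α γ y s').h a = D.h a := by
  simp [ear, Function.update_of_ne h1, Function.update_of_ne h2]

private lemma Ear_r {a : A} (h1 : a ≠ α) (h2 : a ≠ γ) : (D.ear e α γ y s').r a = D.r a := by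
  simp [ear, Function.update_of_ne h1, Function.update_of_ne h2]

private lemma Ear_l {a : A} (h1 : a ≠ α) (h2 : a ≠ γ) (h3 : a ≠ e) :
    (D.ear e α γ y s').l a = D.l a := by
  simp [ear, Function.update_of_ne h1, Function.update_of_ne h2, Function.update_of_ne h3]

private lemma Ear_S {a : A} : a ∈ (D.ear e α γ y s').S ↔ a = α ∨ a = γ ∨ a ∈ D.S := by
  simp [ear]

private lemma Ear_sum (hα : α ∉ D.S) (hγ : γ ∉ D.S) (hαγ : α ≠ γ) (f : A → ℚ) :
    ∑ a ∈ (D.ear e α γ y s').S, f a = f α + (f γ + ∑ a ∈ D.S, f a) := by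
  have h1 : (D.ear e α γ y s').S = insert α (insert γ D.S) := rfl
  rw [h1, Finset.sum_insert, Finset.sum_insert hγ]
  rw [Finset.mem_insert]
  rintro (h2 | h2)
  · exact hαγ h2
  · exact hα h2

private lemma Ear_dvα (hαγ : α ≠ γ) (ψ : V → ℚ) :
    (D.ear e α γ y s').dv ψ α = ψ (D.t e) - ψ y := by
  unfold dv; rw [Ear_hα hαγ, Ear_tα hαγ]

private lemma Ear_dvγ (ψ : V → ℚ) :
    (D.ear e α γ y s').dv ψ γ = ψ y - ψ (D.h e) := by
  unfold dv; rw [Ear_hγ, Ear_tγ]

private lemma Ear_dv (ψ : V → ℚ) {a : A} (h1 : a ≠ α) (h2 : a ≠ γ) :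
    (D.ear e α γ y s').dv ψ a = D.dv ψ a := by
  unfold dv; rw [Ear_h h1 h2, Ear_t h1 h2]

private lemma Ear_dfα (hαγ : α ≠ γ) (φ : F → ℚ) :
    (D.ear e α γ y s').df φ α = φ (D.l e) - φ s' := by
  unfold df; rw [Ear_rα hαγ, Ear_lα hαγ]

private lemma Ear_dfγ (φ : F → ℚ) :
    (D.ear e α γ y s').df φ γ = φ (D.l e) - φ s' := by
  unfold df; rw [Ear_rγ, Ear_lγ]

private lemma Ear_dfe (h1 : e ≠ α) (h2 : e ≠ γ) (φ : F → ℚ) :
    (D.ear e α γ y s').df φ e = φ (D.r e) - φ s' := by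
  unfold df; rw [Ear_r h1 h2, Ear_le h1 h2]

private lemma Ear_df (φ : F → ℚ) {a : A} (h1 : a ≠ α) (h2 : a ≠ γ) (h3 : a ≠ e) :
    (D.ear e α γ y s').df φ a = D.df φ a := by
  unfold df; rw [Ear_r h1 h2, Ear_l h1 h2 h3]

private lemma Ear_df' (φ : F → ℚ) {a : A} (h1 : a ≠ α) (h2 : a ≠ γ) :
    (D.ear e α γ y s').df φ a = D.df φ a + if a = e then φ (D.l e) - φ s' else 0 := by
  by_cases h3 : a = e
  · subst h3
    rw [if_pos rfl, Ear_dfe h1 h2]
    unfold df; ring
  · rw [if_neg h3, Ear_df φ h1 h2 h3, add_zero]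

theorem ear_dual (hD : D.Dual) (he : e ∈ D.S) (hα : α ∉ D.S) (hγ : γ ∉ D.S) (hαγ : α ≠ γ)
    (hy : ∀ a ∈ D.S, D.t a ≠ y ∧ D.h a ≠ y) (hs' : ∀ a ∈ D.S, D.l a ≠ s' ∧ D.r a ≠ s') :
    (D.ear e α γ y s').Dual := by
  have nα : ∀ a ∈ D.S, a ≠ α := fun a ha h1 => hα (h1 ▸ ha)
  have nγ : ∀ a ∈ D.S, a ≠ γ := fun a ha h1 => hγ (h1 ▸ ha)
  refine ⟨?_, ?_, ?_⟩
  · intro ψ φ
    rw [Ear_sum hα hγ hαγ, Ear_dvα hαγ, Ear_dvγ, Ear_dfα hαγ, Ear_dfγ]
    have h1 : ∑ a ∈ D.S, (D.ear e α γ y s').dv ψ a * (D.ear e α γ y s').df φ a =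
        ∑ a ∈ D.S, D.dv ψ a * D.df φ a +
          ∑ a ∈ D.S, (if a = e then D.dv ψ a * (φ (D.l e) - φ s') else 0) := by
      rw [← Finset.sum_add_distrib]
      refine Finset.sum_congr rfl fun a ha => ?_
      rw [Ear_dv ψ (nα a ha) (nγ a ha), Ear_df' φ (nα a ha) (nγ a ha)]
      split_ifs <;> ring
    rw [h1, hD.ortho, Finset.sum_ite_eq' , if_pos he]
    unfold dv
    ring
  · intro c hc
    -- test with the indicator of y
    have hk : c α = c γ := by
      have h1 := hc (fun u => if u = y then 1 else 0)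
      rw [Ear_sum hα hγ hαγ, Ear_dvα hαγ, Ear_dvγ] at h1
      have h2 : ∑ a ∈ D.S, c a * (D.ear e α γ y s').dv (fun u => if u = y then 1 else 0) a = 0 := by
        refine Finset.sum_eq_zero fun a ha => ?_
        rw [Ear_dv _ (nα a ha) (nγ a ha)]
        unfold dv
        simp only [if_neg (hy a ha).1, if_neg (hy a ha).2, sub_self, mul_zero]
      rw [h2] at h1
      simp only [if_neg (hy e he).1, if_neg (hy e he).2, if_true] at h1
      linarith
    obtain ⟨φ, hφ⟩ := hD.circ (fun a => if a = e then c e - c α else c a) (by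
      intro ψ
      have h1 := hc ψ
      rw [Ear_sum hα hγ hαγ, Ear_dvα hαγ, Ear_dvγ] at h1
      have h2 : ∑ a ∈ D.S, c a * (D.ear e α γ y s').dv ψ a = ∑ a ∈ D.S, c a * D.dv ψ a :=
        Finset.sum_congr rfl fun a ha => by rw [Ear_dv ψ (nα a ha) (nγ a ha)]
      rw [h2] at h1
      have h3 : ∑ a ∈ D.S, (if a = e then c e - c α else c a) * D.dv ψ a =
          ∑ a ∈ D.S, c a * D.dv ψ a - ∑ a ∈ D.S, (if a = e then c α * D.dv ψ a else 0) := by
        rw [← Finset.sum_sub_distrib]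
        refine Finset.sum_congr rfl fun a _ => ?_
        by_cases h4 : a = e
        · rw [if_pos h4, if_pos h4, h4]; ring
        · rw [if_neg h4, if_neg h4]; ring
      rw [h3, Finset.sum_ite_eq', if_pos he]
      unfold dv at h1 ⊢
      rw [← hk] at h1
      linarith)
    refine ⟨Function.update φ s' (φ (D.l e) - c α), ?_⟩
    have hup : ∀ f, f ≠ s' → Function.update φ s' (φ (D.l e) - c α) f = φ f :=
      fun f hf => Function.update_of_ne hf _ _
    have hself : Function.update φ s' (φ (D.l e) - c α) s' = φ (D.l e) - c α :=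
      Function.update_self _ _ _
    intro a ha
    rcases Ear_S.mp ha with h1 | h1 | h1
    · rw [h1, Ear_dfα hαγ, hup _ (hs' e he).1, hself]; ring
    · rw [h1, Ear_dfγ, hup _ (hs' e he).1, hself, ← hk]; ring
    · by_cases h2 : a = e
      · have h3 := hφ e he
        simp only [if_true] at h3
        rw [h2, Ear_dfe (nα e he) (nγ e he), hup _ (hs' e he).2, hself]
        unfold df at h3
        linarith
      · have h3 := hφ a h1
        simp only [if_neg h2] at h3
        rw [Ear_df _ (nα a h1) (nγ a h1) h2, h3]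
        unfold df
        rw [hup _ (hs' a h1).1, hup _ (hs' a h1).2]
  · intro z hz
    obtain ⟨ψ, hψ⟩ := hD.cut z (by
      intro φ
      have h1 := hz (Function.update φ s' (φ (D.l e)))
      have hup : ∀ f, f ≠ s' → Function.update φ s' (φ (D.l e)) f = φ f :=
        fun f hf => Function.update_of_ne hf _ _
      have hself : Function.update φ s' (φ (D.l e)) s' = φ (D.l e) :=
        Function.update_self _ _ _
      rw [Ear_sum hα hγ hαγ, Ear_dfα hαγ, Ear_dfγ, hup _ (hs' e he).1, hself, sub_self, mul_zero,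
        mul_zero, zero_add, zero_add] at h1
      rw [← h1]
      refine Finset.sum_congr rfl fun a ha => ?_
      by_cases h2 : a = e
      · rw [h2, Ear_dfe (nα e he) (nγ e he), hup _ (hs' e he).2, hself]
        rfl
      · rw [Ear_df _ (nα a ha) (nγ a ha) h2]
        unfold df
        rw [hup _ (hs' a ha).1, hup _ (hs' a ha).2])
    have hsum : z α + (z γ + z e) = 0 := by
      have h1 := hz (fun f => if f = s' then 1 else 0)
      rw [Ear_sum hα hγ hαγ, Ear_dfα hαγ, Ear_dfγ] at h1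
      have h2 : ∑ a ∈ D.S, z a * (D.ear e α γ y s').df (fun f => if f = s' then 1 else 0) a =
          ∑ a ∈ D.S, (if a = e then -z a else 0) := by
        refine Finset.sum_congr rfl fun a ha => ?_
        by_cases h3 : a = e
        · rw [if_pos h3, h3, Ear_dfe (nα e he) (nγ e he)]
          simp only [if_neg (hs' e he).2, if_true]
          ring
        · rw [if_neg h3, Ear_df _ (nα a ha) (nγ a ha) h3]
          unfold df
          simp only [if_neg (hs' a ha).1, if_neg (hs' a ha).2, sub_self, mul_zero]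
      rw [h2, Finset.sum_ite_eq', if_pos he] at h1
      simp only [if_neg (hs' e he).1, if_true] at h1
      linarith
    refine ⟨Function.update ψ y (ψ (D.h e) + z γ), ?_⟩
    have hup : ∀ f, f ≠ y → Function.update ψ y (ψ (D.h e) + z γ) f = ψ f :=
      fun f hf => Function.update_of_ne hf _ _
    have hself : Function.update ψ y (ψ (D.h e) + z γ) y = ψ (D.h e) + z γ :=
      Function.update_self _ _ _
    have hze := hψ e he
    unfold dv at hze
    intro a ha
    rcases Ear_S.mp ha with h1 | h1 | h1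
    · rw [h1, Ear_dvα hαγ, hup _ (hy e he).1, hself]; linarith
    · rw [h1, Ear_dvγ, hup _ (hy e he).2, hself]; ring
    · rw [Ear_dv _ (nα a h1) (nγ a h1), hψ a h1]
      unfold dv
      rw [hup _ (hy a h1).1, hup _ (hy a h1).2]

theorem ear_rooted (hs : D.Rooted (D.l e)) (he : e ∈ D.S) (hα : α ∉ D.S) (hγ : γ ∉ D.S)
    (hαγ : α ≠ γ) : (D.ear e α γ y s').Rooted s' := by
  have nα : ∀ a ∈ D.S, a ≠ α := fun a ha h1 => hα (h1 ▸ ha)
  have nγ : ∀ a ∈ D.S, a ≠ γ := fun a ha h1 => hγ (h1 ▸ ha)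
  have key : ∀ g, ReflTransGen D.FStep (D.l e) g →
      ReflTransGen (D.ear e α γ y s').FStep s' g := by
    intro g hg
    induction hg with
    | refl =>
      exact ReflTransGen.single ⟨α, Ear_S.mpr (Or.inl rfl), Ear_lα hαγ, Ear_rα hαγ⟩
    | tail _ hstep ih =>
      obtain ⟨x, hx, hxl, hxr⟩ := hstep
      by_cases h1 : x = e
      · subst h1
        refine ReflTransGen.single ⟨x, Ear_S.mpr (Or.inr (Or.inr hx)), Ear_le (nα x hx) (nγ x hx), ?_⟩
        rw [Ear_r (nα x hx) (nγ x hx), hxr]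
      · refine ih.tail ⟨x, Ear_S.mpr (Or.inr (Or.inr hx)), ?_, ?_⟩
        · rw [Ear_l (nα x hx) (nγ x hx) h1, hxl]
        · rw [Ear_r (nα x hx) (nγ x hx), hxr]
  intro a ha
  rcases Ear_S.mp ha with h1 | h1 | h1
  · rw [h1, Ear_lα hαγ]
  · rw [h1, Ear_lγ]
  · by_cases h2 : a = e
    · rw [h2, Ear_le (nα e he) (nγ e he)]
    · rw [Ear_l (nα a h1) (nγ a h1) h2]
      exact key _ (hs a h1)

theorem ear_nodig (hN : D.NoDig) (he : e ∈ D.S) (hα : α ∉ D.S) (hγ : γ ∉ D.S) (hαγ : α ≠ γ)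
    (hy : ∀ a ∈ D.S, D.t a ≠ y ∧ D.h a ≠ y) : (D.ear e α γ y s').NoDig := by
  have nα : ∀ a ∈ D.S, a ≠ α := fun a ha h1 => hα (h1 ▸ ha)
  have nγ : ∀ a ∈ D.S, a ≠ γ := fun a ha h1 => hγ (h1 ▸ ha)
  rintro a ha b hb ⟨h1, h2⟩
  rcases Ear_S.mp ha with h3 | h3 | h3
  · subst h3
    rw [Ear_tα hαγ] at h1
    rw [Ear_hα hαγ] at h2
    rcases Ear_S.mp hb with h4 | h4 | h4
    · subst h4
      rw [Ear_hα hαγ] at h1
      exact (hy e he).1 h1.symm
    · subst h4
      rw [Ear_tγ] at h2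
      exact hN.loop he h2
    · rw [Ear_h (nα b h4) (nγ b h4)] at h1
      exact (hy b h4).2 h1.symm
  · subst h3
    rw [Ear_tγ] at h1
    rw [Ear_hγ] at h2
    rcases Ear_S.mp hb with h4 | h4 | h4
    · subst h4
      rw [Ear_hα hαγ] at h1
      exact hN.loop he h1.symm
    · subst h4
      rw [Ear_tγ] at h2
      exact (hy e he).2 h2.symm
    · rw [Ear_t (nα b h4) (nγ b h4)] at h2
      exact (hy b h4).1 h2.symm
  · rw [Ear_t (nα a h3) (nγ a h3)] at h1
    rw [Ear_h (nα a h3) (nγ a h3)] at h2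
    rcases Ear_S.mp hb with h4 | h4 | h4
    · subst h4
      rw [Ear_tα hαγ] at h2
      exact (hy a h3).2 h2
    · subst h4
      rw [Ear_hγ] at h1
      exact (hy a h3).1 h1
    · rw [Ear_h (nα b h4) (nγ b h4)] at h1
      rw [Ear_t (nα b h4) (nγ b h4)] at h2
      exact hN a h3 b h4 ⟨h1, h2⟩

theorem ear_outTri (he : e ∈ D.S) (hα : α ∉ D.S) (hγ : γ ∉ D.S) (hαγ : α ≠ γ)
    (hs' : ∀ a ∈ D.S, D.l a ≠ s' ∧ D.r a ≠ s') : (D.ear e α γ y s').OutTri s' α e γ := by
  have nα : ∀ a ∈ D.S, a ≠ α := fun a ha h1 => hα (h1 ▸ ha)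
  have nγ : ∀ a ∈ D.S, a ≠ γ := fun a ha h1 => hγ (h1 ▸ ha)
  refine ⟨Ear_S.mpr (Or.inl rfl), Ear_S.mpr (Or.inr (Or.inr he)), Ear_S.mpr (Or.inr (Or.inl rfl)),
    ?_, ?_, ?_, Ear_lα hαγ, Ear_le (nα e he) (nγ e he), Ear_lγ, ?_, ?_⟩
  · rw [Ear_hα hαγ, Ear_t (nα e he) (nγ e he)]
  · rw [Ear_h (nα e he) (nγ e he), Ear_tγ]
  · rw [Ear_hγ, Ear_tα hαγ]
  · intro x hx hxl
    rcases Ear_S.mp hx with h1 | h1 | h1
    · exact Or.inl h1
    · exact Or.inr (Or.inr h1)
    · by_cases h2 : x = e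
      · exact Or.inr (Or.inl h2)
      · rw [Ear_l (nα x h1) (nγ x h1) h2] at hxl
        exact absurd hxl (hs' x h1).1
  · intro x hx
    rcases Ear_S.mp hx with h1 | h1 | h1
    · rw [h1, Ear_rα hαγ]; exact (hs' e he).1
    · rw [h1, Ear_rγ]; exact (hs' e he).1
    · rw [Ear_r (nα x h1) (nγ x h1)]; exact (hs' x h1).2

end Dg

end NLC
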