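import Pool.Agent.NLC.Basic

/-!
# NLC / Euler : Euler inequality

Restrict everything to the finite sets `S, VS, FS`.  Let `∂ : (D.S → ℚ) →ₗ (D.VS → ℚ)`,
`(∂ c) v = ∑_{a, h a = v} c a - ∑_{a, t a = v} c a`.
* The range of `∂` is contained in the functions with sum zero, a proper subspace, so its dimension is at most
  `VS.card - 1` (`VS` is nonempty).
* The kernel of `∂` consists of circulations (`∑_a c a * dv ψ a = ∑_v ψ v * (∂ c) v`), so by `hD.circ` it is contained in the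
  range of `δ : (D.FS → ℚ) →ₗ (D.S → ℚ)`, `(δ φ) a = φ (r a) - φ (l a)`, whose kernel contains the constant functions;
  so its dimension is at most `FS.card - 1`.
* rank-nullity for `∂`: `S.card = dim ker + dim range`.
-/

set_option autoImplicit false

namespace NLC

open Finset Relation
open scoped Classical

variable {V A F : Type}

namespace Dg

noncomputable def VS (D : Dg V A F) : Finset V := D.S.image D.t ∪ D.S.image D.h
noncomputable def FS (D : Dg V A F) : Finset F := D.S.image D.l ∪ D.S.image D.r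

theorem mem_VS {D : Dg V A F} {v : V} : v ∈ D.VS ↔ ∃ a ∈ D.S, D.Inc a v := by
  unfold VS Inc
  rw [mem_union, mem_image, mem_image]
  constructor
  · rintro (⟨a, ha, h⟩ | ⟨a, ha, h⟩)
    · exact ⟨a, ha, Or.inl h⟩
    · exact ⟨a, ha, Or.inr h⟩
  · rintro ⟨a, ha, h | h⟩
    · exact Or.inl ⟨a, ha, h⟩
    · exact Or.inr ⟨a, ha, h⟩

theorem mem_FS {D : Dg V A F} {f : F} : f ∈ D.FS ↔ ∃ a ∈ D.S, D.IncF a f := by
  unfold FS IncF
  rw [mem_union, mem_image, mem_image]
  constructor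
  · rintro (⟨a, ha, h⟩ | ⟨a, ha, h⟩)
    · exact ⟨a, ha, Or.inl h⟩
    · exact ⟨a, ha, Or.inr h⟩
  · rintro ⟨a, ha, h | h⟩
    · exact Or.inl ⟨a, ha, h⟩
    · exact Or.inr ⟨a, ha, h⟩

private theorem Euler_rank {ι : Type} [Fintype ι] [Nonempty ι] {M : Type} [AddCommGroup M]
    [Module ℚ M] (f : (ι → ℚ) →ₗ[ℚ] M) (hf : f (fun _ => 1) = 0) :
    Module.finrank ℚ (LinearMap.range f) + 1 ≤ Fintype.card ι := by
  have h1 := LinearMap.finrank_range_add_finrank_ker f
  rw [Module.finrank_fintype_fun_eq_card] at h1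
  have h2 : 0 < Module.finrank ℚ (LinearMap.ker f) := by
    rw [Module.finrank_pos_iff_exists_ne_zero]
    refine ⟨⟨fun _ => 1, LinearMap.mem_ker.2 hf⟩, ?_⟩
    intro h
    have h3 := congrArg (fun x : LinearMap.ker f => (x : ι → ℚ) (Classical.arbitrary ι)) h
    simp at h3
  omega

private noncomputable def Euler_V (D : Dg V A F) :
    ({v // v ∈ D.VS} → ℚ) →ₗ[ℚ] ({a // a ∈ D.S} → ℚ) where
  toFun ψ a := ψ ⟨D.h a.1, mem_VS.2 ⟨a.1, a.2, Or.inr rfl⟩⟩ -
    ψ ⟨D.t a.1, mem_VS.2 ⟨a.1, a.2, Or.inl rfl⟩⟩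
  map_add' ψ ψ' := by
    funext a
    simp only [Pi.add_apply]
    ring
  map_smul' c ψ := by
    funext a
    simp only [Pi.smul_apply, smul_eq_mul, RingHom.id_apply]
    ring

private noncomputable def Euler_F (D : Dg V A F) :
    ({f // f ∈ D.FS} → ℚ) →ₗ[ℚ] ({a // a ∈ D.S} → ℚ) where
  toFun φ a := φ ⟨D.r a.1, mem_FS.2 ⟨a.1, a.2, Or.inr rfl⟩⟩ -
    φ ⟨D.l a.1, mem_FS.2 ⟨a.1, a.2, Or.inl rfl⟩⟩
  map_add' φ φ' := by
    funext a
    simp only [Pi.add_apply]
    ring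
  map_smul' c φ := by
    funext a
    simp only [Pi.smul_apply, smul_eq_mul, RingHom.id_apply]
    ring

private noncomputable def Euler_P (ι : Type) [Fintype ι] :
    Module.Dual ℚ (ι → ℚ) →ₗ[ℚ] (ι → ℚ) where
  toFun ℓ i := ℓ (fun j => if i = j then 1 else 0)
  map_add' ℓ ℓ' := rfl
  map_smul' c ℓ := rfl

private theorem Euler_P_apply {ι : Type} [Fintype ι] (ℓ : Module.Dual ℚ (ι → ℚ)) (x : ι → ℚ) :
    ℓ x = ∑ i, x i * Euler_P ι ℓ i := by
  rw [LinearMap.pi_apply_eq_sum_univ ℓ x]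
  rfl

theorem euler {D : Dg V A F} (hD : D.Dual) (hne : D.S.Nonempty) :
    D.S.card + 2 ≤ D.VS.card + D.FS.card := by
  obtain ⟨a0, ha0⟩ := hne
  have nV : Nonempty {v // v ∈ D.VS} := ⟨⟨D.t a0, mem_VS.2 ⟨a0, ha0, Or.inl rfl⟩⟩⟩
  have nF : Nonempty {f // f ∈ D.FS} := ⟨⟨D.l a0, mem_FS.2 ⟨a0, ha0, Or.inl rfl⟩⟩⟩
  have hV := Euler_rank (Euler_V D) (by
    funext a
    change (1 : ℚ) - 1 = 0
    ring)
  have hF := Euler_rank (Euler_F D) (by
    funext a
    change (1 : ℚ) - 1 = 0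
    ring)
  rw [Fintype.card_coe] at hV hF
  have hdual := Subspace.finrank_add_finrank_dualAnnihilator_eq (LinearMap.range (Euler_V D))
  rw [Module.finrank_fintype_fun_eq_card, Fintype.card_coe] at hdual
  have hPinj : Function.Injective (Euler_P {a // a ∈ D.S}) := by
    intro ℓ ℓ' h
    apply LinearMap.ext
    intro x
    rw [Euler_P_apply, Euler_P_apply, h]
  have hle : (LinearMap.range (Euler_V D)).dualAnnihilator.map (Euler_P {a // a ∈ D.S}) ≤
      LinearMap.range (Euler_F D) := by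
    rintro _ ⟨ℓ, hℓ, rfl⟩
    have hℓ' : ∀ w ∈ LinearMap.range (Euler_V D), ℓ w = 0 := by
      intro w hw
      exact (Submodule.mem_dualAnnihilator ℓ).1 hℓ w hw
    obtain ⟨φ, hφ⟩ := hD.circ (fun a => if h : a ∈ D.S then Euler_P _ ℓ ⟨a, h⟩ else 0) (by
      intro ψ
      have h1 := hℓ' (Euler_V D (fun v => ψ v.1)) ⟨_, rfl⟩
      rw [Euler_P_apply] at h1
      rw [← Finset.sum_coe_sort]
      rw [← h1]
      apply Finset.sum_congr rfl
      intro a _
      simp only [a.2, dif_pos]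
      rw [mul_comm]
      rfl)
    refine ⟨fun f => φ f.1, ?_⟩
    funext a
    have h2 := hφ a.1 a.2
    simp only [a.2, dif_pos] at h2
    rw [h2]
    rfl
  have h3 := Submodule.finrank_mono hle
  have h4 : Module.finrank ℚ ((LinearMap.range (Euler_V D)).dualAnnihilator.map
      (Euler_P {a // a ∈ D.S})) =
      Module.finrank ℚ (LinearMap.range (Euler_V D)).dualAnnihilator :=
    (LinearEquiv.finrank_eq (Submodule.equivMapOfInjective _ hPinj _)).symm
  omega

end Dg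

end NLC
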