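import Pool.Agent.NLC.VDel

/-!
# NLC / VOut : degrees of the outer vertices

Let `a = t α = h γ`, `b = t β = h α`, `c = t γ = h β`.  The colour of `a` must differ from the one of `b, c`.
Let `v ∈ {a, b, c}` be incident with an arc which is not outer, so with at least three arcs (two of them
outer).  `X = D.S.filter (¬ Inc · v)` has `X.card + 3 ≤ D.S.card`, so `sub_arc` (`n = D.S.card - 1`) applies to `X` and the
outer arc which is not incident with `v` (it has `l e = s`).
* `out_a`: if `(D.outs a).card ≤ 1` then `outs a = {α}`.  `sub_arc` for `β` with the colours `true, true`, and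
  give `a` the colour `false`: `good_add` (`h α = b`).
* `in_b`: if `(D.ins b).card ≤ 1` then `ins b = {α}`.  `sub_arc` for `γ : c → a` with the colours `true, false`, give `b`
  the colour `true`: `good_add'` (`t α = a`).
In both cases the result is good with `c (t β) = c (h β)`: contradiction to `h.bad`.
* `in_a` and `out_c`: mirror image (`h.mir : MinC D.mir s γ β α`; in `D.mir` we have `t' γ = h γ = t α`,
  `t' β = h β = t γ`).
-/

set_option autoImplicit false

namespace NLC

open Finset Relation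
open scoped Classical

variable {V A F : Type}

variable [Infinite V] [Infinite A] [Infinite F]

/-- only outer arcs at `v` -/
def Dg.Bare (D : Dg V A F) (α β γ : A) (v : V) : Prop :=
  ∀ a ∈ D.S, D.Inc a v → a = α ∨ a = β ∨ a = γ

namespace MinC

variable {D : Dg V A F} {s : F} {α β γ : A}

/-- the arcs not incident with an outer vertex which is not bare are at most `|S| - 3` -/
private theorem VOut_card (h : MinC D s α β γ) {v : V} {x y : A} (hx : x ∈ D.S) (hy : y ∈ D.S)
    (hxy : x ≠ y) (hxv : D.Inc x v) (hyv : D.Inc y v)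
    (hb : ∃ a ∈ D.S, D.Inc a v ∧ a ≠ x ∧ a ≠ y) :
    (D.S.filter (fun a => ¬ D.Inc a v)).card + 2 ≤ D.S.card - 1 := by
  obtain ⟨z, hz, hzv, hzx, hzy⟩ := hb
  have h1 : (D.S.filter (fun a => ¬ D.Inc a v)).card + (D.S.filter (fun a => D.Inc a v)).card
      = D.S.card := by
    rw [add_comm]
    exact card_filter_add_card_filter_not (s := D.S) (fun a => D.Inc a v)
  have h2 : ({x, y, z} : Finset A) ⊆ D.S.filter (fun a => D.Inc a v) := by
    intro w hw
    simp only [mem_insert, mem_singleton] at hw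
    rcases hw with rfl | rfl | rfl
    · exact mem_filter.2 ⟨hx, hxv⟩
    · exact mem_filter.2 ⟨hy, hyv⟩
    · exact mem_filter.2 ⟨hz, hzv⟩
  have h3 : ({x, y, z} : Finset A).card = 3 := by
    rw [card_eq_three]
    exact ⟨x, y, z, hxy, hzx.symm, hzy.symm, rfl⟩
  have h4 := card_le_card h2
  omega

private theorem VOut_bare {v : V} (hb : ¬ D.Bare α β γ v) :
    ∃ a ∈ D.S, D.Inc a v ∧ a ≠ α ∧ a ≠ β ∧ a ≠ γ := by
  unfold Dg.Bare at hb
  push Not at hb
  obtain ⟨a, ha, h1, h2⟩ := hb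
  exact ⟨a, ha, h1, h2⟩

theorem out_a (h : MinC D s α β γ) (hb : ¬ D.Bare α β γ (D.t α)) : 2 ≤ (D.outs (D.t α)).card := by
  by_contra hcon
  have hn := h.nodig
  have ho := h.out
  have hαo : α ∈ D.outs (D.t α) := Dg.mem_outs.2 ⟨ho.mα, rfl⟩
  have huniq : ∀ a ∈ D.S, D.t a = D.t α → a = α := by
    intro a ha hta
    have h1 : (D.outs (D.t α)).card ≤ 1 := by omega
    exact card_le_one.1 h1 a (Dg.mem_outs.2 ⟨ha, hta⟩) α hαo
  obtain ⟨z, hz, hzv, hzα, hzβ, hzγ⟩ := VOut_bare hb
  have hc := VOut_card h ho.mα ho.mγ (ho.γα hn).symm (Or.inl rfl) (Or.inr ho.hγ)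
    ⟨z, hz, hzv, hzα, hzγ⟩
  have hβX : β ∈ D.S.filter (fun a => ¬ D.Inc a (D.t α)) := by
    refine mem_filter.2 ⟨ho.mβ, ?_⟩
    rintro (h1 | h1)
    · exact ho.tαβ hn h1.symm
    · rw [ho.hβ] at h1
      exact ho.tγα hn h1
  have hrt : D.Rooted (D.l β) := by rw [ho.lβ]; exact h.rooted
  obtain ⟨c, hcg, hc1, hc2⟩ := Dg.sub_arc h.dual hn hrt h.ih' (filter_subset _ _) hc hβX true true
  refine h.bad ⟨Function.update c (D.t α) false, ?_, ?_⟩
  · refine Dg.good_add hcg (fun u hu => Function.update_of_ne hu _ _) ?_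
    intro a ha hta
    have := huniq a ha hta
    subst this
    have hne : D.h a ≠ D.t a := (hn.loop ha).symm
    rw [Function.update_self, Function.update_of_ne hne, ho.hα, hc1]
    simp
  · have h1 : D.t β ≠ D.t α := (ho.tαβ hn).symm
    have h2 : D.h β ≠ D.t α := by rw [ho.hβ]; exact ho.tγα hn
    rw [Function.update_of_ne h1, Function.update_of_ne h2, hc1, hc2]

theorem in_b (h : MinC D s α β γ) (hb : ¬ D.Bare α β γ (D.t β)) : 2 ≤ (D.ins (D.t β)).card := by
  by_contra hcon
  have hn := h.nodig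
  have ho := h.out
  have hαo : α ∈ D.ins (D.t β) := Dg.mem_ins.2 ⟨ho.mα, ho.hα⟩
  have huniq : ∀ a ∈ D.S, D.h a = D.t β → a = α := by
    intro a ha hta
    have h1 : (D.ins (D.t β)).card ≤ 1 := by omega
    exact card_le_one.1 h1 a (Dg.mem_ins.2 ⟨ha, hta⟩) α hαo
  obtain ⟨z, hz, hzv, hzα, hzβ, hzγ⟩ := VOut_bare hb
  have hc := VOut_card h ho.mα ho.mβ (ho.αβ hn) (Or.inr ho.hα) (Or.inl rfl)
    ⟨z, hz, hzv, hzα, hzβ⟩
  have hγX : γ ∈ D.S.filter (fun a => ¬ D.Inc a (D.t β)) := by
    refine mem_filter.2 ⟨ho.mγ, ?_⟩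
    rintro (h1 | h1)
    · exact ho.tβγ hn h1.symm
    · rw [ho.hγ] at h1
      exact ho.tαβ hn h1
  have hrt : D.Rooted (D.l γ) := by rw [ho.lγ]; exact h.rooted
  obtain ⟨c, hcg, hc1, hc2⟩ := Dg.sub_arc h.dual hn hrt h.ih' (filter_subset _ _) hc hγX true false
  refine h.bad ⟨Function.update c (D.t β) true, ?_, ?_⟩
  · refine Dg.good_add' hcg (fun u hu => Function.update_of_ne hu _ _) ?_
    intro a ha hta
    have := huniq a ha hta
    subst this
    have hne : D.t a ≠ D.t β := ho.tαβ hn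
    rw [Function.update_self, Function.update_of_ne hne, ← ho.hγ, hc2]
    simp
  · have h2 : D.h β ≠ D.t β := (hn.loop ho.mβ).symm
    rw [Function.update_self, Function.update_of_ne h2, ho.hβ, hc1]

theorem in_a (h : MinC D s α β γ) (hb : ¬ D.Bare α β γ (D.t α)) : 2 ≤ (D.ins (D.t α)).card := by
  have h1 := h.mir
  have ht : D.mir.t γ = D.t α := h.out.hγ
  have hb' : ¬ D.mir.Bare γ β α (D.mir.t γ) := by
    rw [ht]
    intro hb2
    apply hb
    intro a ha hia
    rcases hb2 a ha (Dg.mir_inc.2 hia) with h2 | h2 | h2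
    · exact Or.inr (Or.inr h2)
    · exact Or.inr (Or.inl h2)
    · exact Or.inl h2
  have h2 := out_a h1 hb'
  rw [ht] at h2
  exact h2

theorem out_c (h : MinC D s α β γ) (hb : ¬ D.Bare α β γ (D.t γ)) : 2 ≤ (D.outs (D.t γ)).card := by
  have h1 := h.mir
  have ht : D.mir.t β = D.t γ := h.out.hβ
  have hb' : ¬ D.mir.Bare γ β α (D.mir.t β) := by
    rw [ht]
    intro hb2
    apply hb
    intro a ha hia
    rcases hb2 a ha (Dg.mir_inc.2 hia) with h2 | h2 | h2
    · exact Or.inr (Or.inr h2)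
    · exact Or.inr (Or.inl h2)
    · exact Or.inl h2
  have h2 := in_b h1 hb'
  rw [ht] at h2
  exact h2

end MinC

end NLC
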