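import Pool.Agent.NLC.KK
import Pool.Agent.NLC.Bal
import Pool.Agent.NLC.Class
import Pool.Agent.NLC.VOut

/-!
# NLC / Exc : an exceptional arc is β

`exc_out`: Let `x = t e`, `f = r e` with `TriF f`, `kk x = 1`, and let `x` have another out-arc `e₁ ≠ e`.  Then there is
`e' ∈ D.S` with `t e' = x`, `r e' = l e`.  This is `bal` with `t₀ = f`, `ρ` from `h.rank`:
`hle`: `TriF f`: an arc with `l a = f` would be one of the three with `r = f`: contradiction to `ρ`.
`huniq`: the arcs with `r a = f` are `e₁', e₂', e₃'` of the triangle, only one has tail `x`.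
`hent`: let `a ≠ b`, both incident with `x`, `r a = r b = g ≠ f`; `g ≠ s` (`nor`).  `face_class`: `TriF g`: then `f, g` are two different
elements of `TF` at `x`: `kk x ≥ 2`.  `(inF g).card = 1`: contradiction.  `TwoF g`: `{a, b} = {x', y'}` consecutive outer arcs
with common vertex `h x' = t y'`; the three outer vertices are distinct, so `x = h x'`, and all arcs at `x` are `x'` or `y'`;
but `e` is an arc at `x` with `r e = f ≠ g`.
`exc_in`: mirror image (`D.mir.kk = D.kk`, `D.mir.TriF ↔ D.TriF`: `mir_triF_iff`).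

`exc`: (1) Not both `x = t e` has a second out-arc and `y = h e` a second in-arc: otherwise `e'` (`t e' = x`, `r e' = l e`) and
`e''` (`h e'' = y`, `r e'' = l e`) exist.  `l e = s` is impossible (`nor`).  `face_class (l e)`: `TriF (l e)`: then `e` (incident with `l e`)
has `r e = l e`: contradiction to `ρ`.  `card = 1`: `e' = e''` has tail `x` and head `y`, so `e' = e` by `Simp`, but
`r e' = l e ≠ r e`.  `TwoF (l e)`: as before `e' ≠ e''`, so `{e', e''} = {x', y'}`, `h x' = t y'`; if `e' = x'`, `e'' = y'`: the third outer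
arc goes from `h y' = y` to `t x' = x`, a digon with `e`; if `e' = y'`, `e'' = x'`: `x = t y' = h x' = y`: loop.
(2) `x` (and `y`) is not bare: if only outer arcs are at `x` then the two arcs of the triangle `f` at `x` (one entering, one
leaving) are consecutive outer arcs `x', y'` with `r x' = r y' = f`; the third arc of the triangle is parallel to the third
outer arc, so equal to it (`Simp`): contradiction to `h.notAll`.
(3) If `x` has no second out-arc: `(D.outs x).card ≤ 1`; by `deg_out`, `out_a`, `out_c` and (2) we get `x = t β`, and `β ∈ outs x`, so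
`e = β`.  If `y` has no second in-arc: `(D.ins y).card ≤ 1`; by `deg_in`, `in_a`, `in_b` we get `y = t γ = h β`, so `e = β`.
-/

set_option autoImplicit false

namespace NLC

open Finset Relation
open scoped Classical

variable {V A F : Type}

variable [Infinite V] [Infinite A] [Infinite F]

namespace MinC

variable {D : Dg V A F} {s : F} {α β γ : A}

omit [Infinite V] [Infinite A] [Infinite F] in
private theorem Exc_tri {e : A} (he : e ∈ D.S) (hT : D.TriF (D.r e)) :
    ∃ e₂ ∈ D.S, ∃ e₃ ∈ D.S, D.h e = D.t e₂ ∧ D.h e₂ = D.t e₃ ∧ D.h e₃ = D.t e ∧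
      D.r e₂ = D.r e ∧ D.r e₃ = D.r e ∧
      ∀ x ∈ D.S, D.IncF x (D.r e) → x = e ∨ x = e₂ ∨ x = e₃ := by
  obtain ⟨a₁, h1, a₂, h2, a₃, h3, b1, b2, b3, r1, r2, r3, hx⟩ := hT
  rcases hx e he (Or.inr rfl) with h | h | h
  · rw [← h] at b1 b3 hx
    exact ⟨a₂, h2, a₃, h3, b1, b2, b3, r2, r3, hx⟩
  · rw [← h] at b1 b2 hx
    refine ⟨a₃, h3, a₁, h1, b2, b3, b1, r3, r1, fun x hxS hxf => ?_⟩
    rcases hx x hxS hxf with h | h | h
    · exact Or.inr (Or.inr h)
    · exact Or.inl h
    · exact Or.inr (Or.inl h)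
  · rw [← h] at b2 b3 hx
    refine ⟨a₁, h1, a₂, h2, b3, b1, b2, r1, r2, fun x hxS hxf => ?_⟩
    rcases hx x hxS hxf with h | h | h
    · exact Or.inr (Or.inl h)
    · exact Or.inr (Or.inr h)
    · exact Or.inl h

omit [Infinite V] [Infinite A] [Infinite F] in
private theorem Exc_cons (ho : D.OutTri s α β γ) {x y : A} (hc : Cons α β γ x y) :
    D.h x = D.t y ∧ ∃ z ∈ D.S, D.t z = D.h y ∧ D.h z = D.t x := by
  rcases hc with ⟨rfl, rfl⟩ | ⟨rfl, rfl⟩ | ⟨rfl, rfl⟩
  · exact ⟨ho.hα, γ, ho.mγ, ho.hβ.symm, ho.hγ⟩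
  · exact ⟨ho.hβ, α, ho.mα, ho.hγ.symm, ho.hα⟩
  · exact ⟨ho.hγ, β, ho.mβ, ho.hα.symm, ho.hβ⟩

omit [Infinite V] [Infinite A] [Infinite F] in
private theorem Exc_bare1 (hS : D.Simp) (ho : D.OutTri s α β γ) {p q w : A}
    (hp : p ∈ D.S) (hw : w ∈ D.S) (hpq : D.h p = D.t q) (hqw : D.h q = D.t w)
    (hwp : D.h w = D.t p) (hr1 : D.r p = D.r q) (hr2 : D.r q = D.r w) (hpα : p = α)
    (hq : q = α ∨ q = β ∨ q = γ) : D.r α = D.r β ∧ D.r β = D.r γ := by
  subst hpα
  rcases hq with rfl | rfl | rfl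
  · exact absurd hpq.symm (hS.nodig.loop hp)
  · have h1 : w = γ := hS.par w hw γ ho.mγ (hqw.symm.trans ho.hβ) (hwp.trans ho.hγ.symm)
    rw [← h1]
    exact ⟨hr1, hr2⟩
  · exact absurd (ho.hα.symm.trans hpq) (ho.tβγ hS.nodig)

private theorem Exc_bare (h : MinC D s α β γ) {p q w : A} (hp : p ∈ D.S) (hq : q ∈ D.S)
    (hw : w ∈ D.S) (hpq : D.h p = D.t q) (hqw : D.h q = D.t w) (hwp : D.h w = D.t p)
    (hr1 : D.r p = D.r q) (hr2 : D.r q = D.r w) : ¬ D.Bare α β γ (D.h p) := by
  intro hb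
  have hpo := hb p hp (Or.inr rfl)
  have hqo := hb q hq (Or.inl hpq.symm)
  rcases hpo with hpo | hpo | hpo
  · exact h.notAll (Exc_bare1 h.simp h.out hp hw hpq hqw hwp hr1 hr2 hpo hqo)
  · have h1 := Exc_bare1 h.simp h.out.rot hp hw hpq hqw hwp hr1 hr2 hpo (by
      rcases hqo with h | h | h
      · exact Or.inr (Or.inr h)
      · exact Or.inl h
      · exact Or.inr (Or.inl h))
    exact h.notAll ⟨(h1.1.trans h1.2).symm, h1.1⟩
  · have h1 := Exc_bare1 h.simp h.out.rot.rot hp hw hpq hqw hwp hr1 hr2 hpo (by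
      rcases hqo with h | h | h
      · exact Or.inr (Or.inl h)
      · exact Or.inr (Or.inr h)
      · exact Or.inl h)
    exact h.notAll ⟨h1.2, (h1.1.trans h1.2).symm⟩

theorem exc_out (h : MinC D s α β γ) {e e₁ : A} (he : e ∈ D.S) (hT : D.TriF (D.r e))
    (hk : D.kk (D.t e) = 1) (he₁ : e₁ ∈ D.S) (ht : D.t e₁ = D.t e) (hne : e₁ ≠ e) :
    ∃ e' ∈ D.S, D.t e' = D.t e ∧ D.r e' = D.l e := by
  obtain ⟨ρ, hρ⟩ := h.rank
  obtain ⟨e₂, m₂, e₃, m₃, b1, b2, b3, r2, r3, hx⟩ := Exc_tri he hT
  have hloop : ∀ a ∈ D.S, D.t a ≠ D.h a := fun a ha => h.nodig.loop ha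
  refine bal h.dual hρ hloop he rfl rfl ?_ ?_ ?_ he₁ ht hne
  · intro a ha hla
    have h1 := hρ a ha
    rcases hx a ha (Or.inl hla) with rfl | rfl | rfl
    · rw [hla] at h1; exact lt_irrefl _ h1
    · rw [hla, r2] at h1; exact lt_irrefl _ h1
    · rw [hla, r3] at h1; exact lt_irrefl _ h1
  · intro a ha hta hra
    rcases hx a ha (Or.inr hra) with rfl | rfl | rfl
    · rfl
    · exact absurd (hta.symm.trans b1.symm) (hloop e he)
    · exact absurd (hta.trans b3.symm) (hloop _ m₃)
  · intro a ha b hb hax hbx hab hra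
    by_contra hne'
    have hs : D.r a ≠ s := h.out.nor a ha
    rcases h.face_class (f := D.r a) ⟨a, ha, Or.inr rfl⟩ hs with h1 | h1 | h1
    · have h2 : 1 < D.kk (D.t e) := by
        unfold Dg.kk
        refine Finset.one_lt_card.mpr ⟨D.r e, ?_, D.r a, ?_, hra.symm⟩
        · rw [mem_filter]
          refine ⟨?_, e, he, rfl, Or.inl rfl⟩
          unfold Dg.TF
          rw [mem_filter]
          exact ⟨Dg.mem_FS.mpr ⟨e, he, Or.inr rfl⟩, hT⟩
        · rw [mem_filter]
          refine ⟨?_, a, ha, rfl, hax⟩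
          unfold Dg.TF
          rw [mem_filter]
          exact ⟨Dg.mem_FS.mpr ⟨a, ha, Or.inr rfl⟩, h1⟩
      omega
    · exact hne' (Finset.card_le_one.mp h1.le a (Dg.mem_inF.mpr ⟨ha, rfl⟩) b
        (Dg.mem_inF.mpr ⟨hb, hab.symm⟩))
    · obtain ⟨x', y', hc, rx, ry, honly, hbare⟩ := h1
      obtain ⟨hxy, z, hz, hz1, hz2⟩ := Exc_cons h.out hc
      have hxS : x' ∈ D.S := by
        rcases honly a ha rfl with h5 | h5
        · rw [← h5]; exact ha
        · rcases honly b hb hab.symm with h6 | h6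
          · rw [← h6]; exact hb
          · exact absurd (h5.trans h6.symm) hne'
      have hyS : y' ∈ D.S := by
        rcases honly a ha rfl with h5 | h5
        · rcases honly b hb hab.symm with h6 | h6
          · exact absurd (h5.trans h6.symm) hne'
          · rw [← h6]; exact hb
        · rw [← h5]; exact ha
      have hix : D.Inc x' (D.t e) ∧ D.Inc y' (D.t e) := by
        rcases honly a ha rfl with h5 | h5
        · rcases honly b hb hab.symm with h6 | h6
          · exact absurd (h5.trans h6.symm) hne'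
          · rw [← h5, ← h6]; exact ⟨hax, hbx⟩
        · rcases honly b hb hab.symm with h6 | h6
          · rw [← h5, ← h6]; exact ⟨hbx, hax⟩
          · exact absurd (h5.trans h6.symm) hne'
      have hte : D.h x' = D.t e := by
        rcases hix.1 with h7 | h7
        · rcases hix.2 with h8 | h8
          · exact absurd (h7.trans (h8.symm.trans hxy.symm)) (hloop _ hxS)
          · exact absurd (hz1.trans (h8.trans (h7.symm.trans hz2.symm))) (hloop _ hz)
        · exact h7
      rcases hbare e he (Or.inl hte.symm) with h7 | h7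
      · exact hra (by rw [h7]; exact rx.symm)
      · exact hra (by rw [h7]; exact ry.symm)

omit [Infinite V] [Infinite A] [Infinite F] in
private theorem Exc_kk (v : V) : D.mir.kk v = D.kk v := by
  unfold Dg.kk
  congr 1
  ext f
  rw [mem_filter, mem_filter]
  unfold Dg.TF
  rw [mem_filter, mem_filter, Dg.mir_triF_iff]
  have h1 : D.mir.On v f ↔ D.On v f := by
    unfold Dg.On
    constructor
    · rintro ⟨a, ha, h1, h2⟩; exact ⟨a, ha, h1, Dg.mir_inc.mp h2⟩
    · rintro ⟨a, ha, h1, h2⟩; exact ⟨a, ha, h1, Dg.mir_inc.mpr h2⟩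
  rw [h1]
  exact Iff.rfl

theorem exc_in (h : MinC D s α β γ) {e e₁ : A} (he : e ∈ D.S) (hT : D.TriF (D.r e))
    (hk : D.kk (D.h e) = 1) (he₁ : e₁ ∈ D.S) (ht : D.h e₁ = D.h e) (hne : e₁ ≠ e) :
    ∃ e' ∈ D.S, D.h e' = D.h e ∧ D.r e' = D.l e := by
  refine h.mir.exc_out (e := e) (e₁ := e₁) he (Dg.mir_triF hT) ?_ he₁ ht hne
  rw [Exc_kk]
  exact hk

theorem exc (h : MinC D s α β γ) {e : A} (he : e ∈ D.S) (hT : D.TriF (D.r e))
    (hk : D.kk (D.t e) = 1) (hk' : D.kk (D.h e) = 1) : e = β := by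
  obtain ⟨ρ, hρ⟩ := h.rank
  have hlr : D.l e ≠ D.r e := by
    intro h1
    have := hρ e he
    rw [h1] at this
    exact lt_irrefl _ this
  have hloop : ∀ a ∈ D.S, D.t a ≠ D.h a := fun a ha => h.nodig.loop ha
  obtain ⟨e₂, m₂, e₃, m₃, b1, b2, b3, r2, r3, hx⟩ := Exc_tri he hT
  have hbt : ¬ D.Bare α β γ (D.t e) := by
    rw [← b3]
    exact Exc_bare h m₃ he m₂ b3 b1 b2 r3 r2.symm
  have hbh : ¬ D.Bare α β γ (D.h e) :=
    Exc_bare h he m₂ m₃ b1 b2 b3 r2.symm (r2.trans r3.symm)
  by_cases ho : ∃ e₁ ∈ D.S, D.t e₁ = D.t e ∧ e₁ ≠ e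
  · by_cases hi : ∃ e₁ ∈ D.S, D.h e₁ = D.h e ∧ e₁ ≠ e
    · exfalso
      obtain ⟨p, hp, hp1, hp2⟩ := ho
      obtain ⟨q, hq, hq1, hq2⟩ := hi
      obtain ⟨e', he', h1, h2⟩ := h.exc_out he hT hk hp hp1 hp2
      obtain ⟨e'', he'', h3, h4⟩ := h.exc_in he hT hk' hq hq1 hq2
      have hls : D.l e ≠ s := by
        rw [← h2]; exact h.out.nor e' he'
      have hneq : e' ≠ e'' := by
        rintro rfl
        have h5 : e' = e := h.simp.par e' he' e he h1 h3
        rw [h5] at h2
        exact hlr h2.symm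
      rcases h.face_class (f := D.l e) ⟨e, he, Or.inl rfl⟩ hls with h5 | h5 | h5
      · obtain ⟨a₁, _, a₂, _, a₃, _, _, _, _, r1, r2, r3, hx⟩ := h5
        rcases hx e he (Or.inl rfl) with h6 | h6 | h6
        · rw [← h6] at r1; exact hlr r1.symm
        · rw [← h6] at r2; exact hlr r2.symm
        · rw [← h6] at r3; exact hlr r3.symm
      · exact hneq (Finset.card_le_one.mp h5.le e' (Dg.mem_inF.mpr ⟨he', h2⟩) e''
          (Dg.mem_inF.mpr ⟨he'', h4⟩))
      · obtain ⟨x', y', hc, rx, ry, honly, hbare⟩ := h5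
        obtain ⟨hxy, z, hz, hz1, hz2⟩ := Exc_cons h.out hc
        rcases honly e' he' h2 with h6 | h6
        · rcases honly e'' he'' h4 with h7 | h7
          · exact hneq (h6.trans h7.symm)
          · refine h.nodig e he z hz ⟨?_, ?_⟩
            · rw [hz2, ← h6, h1]
            · rw [hz1, ← h7, h3]
        · rcases honly e'' he'' h4 with h7 | h7
          · refine hloop e he ?_
            rw [← h1, ← h3, h6, h7, hxy]
          · exact hneq (h6.trans h7.symm)
    · have hcard : (D.ins (D.h e)).card ≤ 1 := by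
        rw [Finset.card_le_one]
        intro a ha b hb
        rw [Dg.mem_ins] at ha hb
        have h1 : a = e := by
          by_contra h2
          exact hi ⟨a, ha.1, ha.2, h2⟩
        have h2 : b = e := by
          by_contra h2
          exact hi ⟨b, hb.1, hb.2, h2⟩
        rw [h1, h2]
      by_cases h1 : D.h e = D.t α
      · rw [h1] at hcard hbh
        have := h.in_a hbh
        omega
      · by_cases h2 : D.h e = D.t β
        · rw [h2] at hcard hbh
          have := h.in_b hbh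
          omega
        · by_cases h3 : D.h e = D.t γ
          · by_contra h4
            exact hi ⟨β, h.out.mβ, h.out.hβ.trans h3.symm, fun h5 => h4 h5.symm⟩
          · have := h.deg_in h1 h2 h3 ⟨e, he, Or.inr rfl⟩
            omega
  · have hcard : (D.outs (D.t e)).card ≤ 1 := by
      rw [Finset.card_le_one]
      intro a ha b hb
      rw [Dg.mem_outs] at ha hb
      have h1 : a = e := by
        by_contra h2
        exact ho ⟨a, ha.1, ha.2, h2⟩
      have h2 : b = e := by
        by_contra h2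
        exact ho ⟨b, hb.1, hb.2, h2⟩
      rw [h1, h2]
    by_cases h1 : D.t e = D.t α
    · rw [h1] at hcard hbt
      have := h.out_a hbt
      omega
    · by_cases h3 : D.t e = D.t γ
      · rw [h3] at hcard hbt
        have := h.out_c hbt
        omega
      · by_cases h2 : D.t e = D.t β
        · by_contra h4
          exact ho ⟨β, h.out.mβ, h2.symm, fun h5 => h4 h5.symm⟩
        · have := h.deg_out h1 h2 h3 ⟨e, he, Or.inl rfl⟩
          omega

end MinC

end NLC
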