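import Pool.Agent.NLC.Basic

/-!
# NLC / Glue : gluing colourings

`glue` (abstract).  Let `R u v = R₁ u v ∨ R₂ u v`.
(1) For `x ∈ U₁` and `TransGen R x y`: either `y ∈ U₁` and `TransGen R₁ x y`, or there is `q ∈ U₁ ∩ U₂` with
`ReflTransGen R₁ x q` and `TransGen R₂ q y` (then `y ∈ U₂`).  Induction on the path (add the last step `y → y'`).
Case one: a step `R₁` stays in case one; a step `R₂ y y'`: `y ∈ U₁ ∩ U₂`, take `q = y`.  Case two: a step `R₂`: stay.
A step `R₁ y y'`: `y ∈ U₁ ∩ U₂`; `TransGen R₂ q y`: `q ≠ y` by `a2`, so by `hs` `TransGen R₁ q y`: case one.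
(2) So there is no cycle through a point `x ∈ U₁`: case one contradicts `a1`; in case two `x ∈ U₁ ∩ U₂` and
`TransGen R₂ q x`: if `q = x` contradiction to `a2`, otherwise `hs` gives `TransGen R₁ q x` and so a cycle
of `R₁` through `x`.
(3) A cycle through `v`: all its steps are in `R₂` (contradiction to `a2`) or it contains a point of
`U₁` (the start of an `R₁`-step), and then there is a cycle through this point.

`glueD`: `R₁ = D.MS X₁ c`, `R₂ = D.MS X₂ c`, `U_i` = vertices incident with `X_i`; on `U_i` we have `c = c_i`,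
so `D.MS X_i c = D.MS X_i c_i`.
-/

set_option autoImplicit false

namespace NLC

open Finset Relation
open scoped Classical

variable {V A F : Type}

theorem glue {R₁ R₂ : V → V → Prop} {U₁ U₂ : V → Prop} (h1 : ∀ u v, R₁ u v → U₁ u ∧ U₁ v)
    (h2 : ∀ u v, R₂ u v → U₂ u ∧ U₂ v) (a1 : ∀ v, ¬ TransGen R₁ v v) (a2 : ∀ v, ¬ TransGen R₂ v v)
    (hs : ∀ p q, p ≠ q → U₁ p → U₂ p → U₁ q → U₂ q → TransGen R₂ p q → TransGen R₁ p q) :
    ∀ v, ¬ TransGen (fun u w => R₁ u w ∨ R₂ u w) v v := by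
  have hU2 : ∀ q y, TransGen R₂ q y → U₂ y := by
    intro q y h
    obtain ⟨b, -, hb⟩ := TransGen.tail'_iff.1 h
    exact (h2 _ _ hb).2
  have claim : ∀ x, U₁ x → ∀ y, TransGen (fun u w => R₁ u w ∨ R₂ u w) x y →
      (U₁ y ∧ TransGen R₁ x y) ∨
        ∃ q, U₁ q ∧ U₂ q ∧ ReflTransGen R₁ x q ∧ TransGen R₂ q y := by
    intro x hx y h
    induction h with
    | single hst =>
      rcases hst with hst | hst
      · exact Or.inl ⟨(h1 _ _ hst).2, TransGen.single hst⟩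
      · exact Or.inr ⟨x, hx, (h2 _ _ hst).1, ReflTransGen.refl, TransGen.single hst⟩
    | tail _ hst ih =>
      rcases ih with ⟨hy, hT⟩ | ⟨q, hq1, hq2, hT1, hT2⟩
      · rcases hst with hst | hst
        · exact Or.inl ⟨(h1 _ _ hst).2, hT.tail hst⟩
        · exact Or.inr ⟨_, hy, (h2 _ _ hst).1, hT.to_reflTransGen, TransGen.single hst⟩
      · rcases hst with hst | hst
        · left
          refine ⟨(h1 _ _ hst).2, ?_⟩
          have hne : ∀ z, TransGen R₂ q z → q ≠ z := by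
            rintro z hz rfl
            exact a2 _ hz
          have h3 := hs q _ (hne _ hT2) hq1 hq2 (h1 _ _ hst).1 (hU2 _ _ hT2) hT2
          exact (TransGen.trans_right hT1 h3).tail hst
        · exact Or.inr ⟨q, hq1, hq2, hT1, hT2.tail hst⟩
  have hx : ∀ x, U₁ x → ¬ TransGen (fun u w => R₁ u w ∨ R₂ u w) x x := by
    intro x hx h
    rcases claim x hx x h with ⟨-, h3⟩ | ⟨q, hq1, hq2, hT1, hT2⟩
    · exact a1 x h3
    · by_cases hqx : q = x
      · subst hqx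
        exact a2 _ hT2
      · have h3 := hs q x hqx hq1 hq2 hx (hU2 _ _ hT2) hT2
        exact a1 x (TransGen.trans_right hT1 h3)
  have claim3 : ∀ v w, TransGen (fun u w => R₁ u w ∨ R₂ u w) v w → TransGen R₂ v w ∨
      ∃ u, U₁ u ∧ ReflTransGen (fun u w => R₁ u w ∨ R₂ u w) v u ∧
        ReflTransGen (fun u w => R₁ u w ∨ R₂ u w) u w := by
    intro v w h
    induction h with
    | single hst =>
      rcases hst with hst | hst
      · exact Or.inr ⟨v, (h1 _ _ hst).1, ReflTransGen.refl, ReflTransGen.single (Or.inl hst)⟩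
      · exact Or.inl (TransGen.single hst)
    | tail hr hst ih =>
      rcases ih with hT | ⟨u, hu, hT1, hT2⟩
      · rcases hst with hst | hst
        · exact Or.inr ⟨_, (h1 _ _ hst).1, hr.to_reflTransGen, ReflTransGen.single (Or.inl hst)⟩
        · exact Or.inl (hT.tail hst)
      · exact Or.inr ⟨u, hu, hT1, hT2.tail hst⟩
  intro v hv
  rcases claim3 v v hv with h | ⟨u, hu, hT1, hT2⟩
  · exact a2 v h
  · exact hx u hu (TransGen.trans_right hT2 (TransGen.trans_left hv hT1))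

theorem Dg.glueD {D : Dg V A F} {X₁ X₂ : Finset A} {c₁ c₂ c : V → Bool} (h1 : D.GoodOn X₁ c₁)
    (h2 : D.GoodOn X₂ c₂) (e1 : ∀ v, (∃ a ∈ X₁, D.Inc a v) → c v = c₁ v)
    (e2 : ∀ v, (∃ a ∈ X₂, D.Inc a v) → c v = c₂ v)
    (hs : ∀ p q, p ≠ q → (∃ a ∈ X₁, D.Inc a p) → (∃ a ∈ X₂, D.Inc a p) →
      (∃ a ∈ X₁, D.Inc a q) → (∃ a ∈ X₂, D.Inc a q) → TransGen (D.MS X₂ c) p q →
      TransGen (D.MS X₁ c) p q) : D.GoodOn (X₁ ∪ X₂) c := by
  have h3 := glue (R₁ := D.MS X₁ c) (R₂ := D.MS X₂ c) (U₁ := fun v => ∃ a ∈ X₁, D.Inc a v)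
    (U₂ := fun v => ∃ a ∈ X₂, D.Inc a v)
    (by
      rintro u v ⟨a, ha, h3, h4, -⟩
      exact ⟨⟨a, ha, Or.inl h3⟩, ⟨a, ha, Or.inr h4⟩⟩)
    (by
      rintro u v ⟨a, ha, h3, h4, -⟩
      exact ⟨⟨a, ha, Or.inl h3⟩, ⟨a, ha, Or.inr h4⟩⟩)
    (by
      intro v hv
      refine h1 v (TransGen.mono ?_ v v hv)
      rintro u w ⟨a, ha, h3, h4, h5⟩
      refine ⟨a, ha, h3, h4, ?_⟩
      rw [← e1 u ⟨a, ha, Or.inl h3⟩, ← e1 w ⟨a, ha, Or.inr h4⟩, h5])
    (by
      intro v hv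
      refine h2 v (TransGen.mono ?_ v v hv)
      rintro u w ⟨a, ha, h3, h4, h5⟩
      refine ⟨a, ha, h3, h4, ?_⟩
      rw [← e2 u ⟨a, ha, Or.inl h3⟩, ← e2 w ⟨a, ha, Or.inr h4⟩, h5])
    hs
  intro v hv
  refine h3 v (TransGen.mono ?_ v v hv)
  rintro u w ⟨a, ha, h4⟩
  rcases mem_union.1 ha with ha | ha
  · exact Or.inl ⟨a, ha, h4⟩
  · exact Or.inr ⟨a, ha, h4⟩

end NLC
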