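import Pool.Agent.NLC.Circ
import Pool.Agent.NLC.DelSet

/-!
# NLC / Side : the two sides of a triangle

`exists_side`: `hD.circ` gives `φ` with `c = df φ` on `D.S`.  Let `k = max (φ (l e₁)) (φ (r e₁))`,
`Y₀ f ↔ k ≤ φ f`.  `1_{Y₀}` (indicator) gives a circulation `df 1_{Y₀}` (`ortho`, `mul_comm`), and it vanishes at all arcs
where `c = 0` (there `φ (l a) = φ (r a)`).  So it is `k' * c`; at `e₁`: `df 1_{Y₀} e₁ = c e₁ = ± 1` (if
`φ (r e₁) = φ (l e₁) + 1` then `Y₀ (r e₁)`, `¬ Y₀ (l e₁)`, etc.), so `k' = 1`.  If `¬ Y₀ s`: `Y = Y₀`, `σ = 1`.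
Otherwise `Y = ¬ Y₀`, `σ = -1`.

`facial`: all arcs except the three have no face in `Y` (`hin` and `eq`, as `c a = 0` gives `Y (l a) ↔ Y (r a)`).  Let
`f` be the face of `e₁` in `Y`.  `df 1_f` is a circulation with support in the three arcs, so it is `k * c`;
at `e₁` it is `σ * c e₁`, so `k = σ`.  So for `x ∈ {e₁, e₂, e₃}`: `df 1_f x = σ * c x = ± 1`.

`root`: let `X` = the three arcs and the arcs with `Y (l a)`.  `D', m` from `exists_del hD (D.S \ X)`, `s' = m s`.  The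
deleted arcs have both faces not in `Y` (`eq` with `c a = 0`), so by `fix`: `m f = f` for `Y f`, and `Y (m g) → Y g`.  So
for `x ∈ D'.S` other than the three both faces in `D'` are in `Y`, and `¬ Y s'`.  For `x` one of the three: one face is
in `Y`, the other not: (`σ * c x = 1`: `¬ Y (l' x)`, `Y (r' x)`; `σ * c x = -1`: `Y (l' x)`, `¬ Y (r' x)`); call the latter
the outer face of `x`.  Let `g` be the outer face of `e₁` in `D'`.
`c'' a = if a ∈ D'.S then D'.df 1_g a else 0` is a circulation of `D` (`D'.dual.ortho`) with support in the three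
arcs, so `c'' = k * c`; `c'' e₁ = ± 1` so `k ≠ 0`; so `g` is the outer face of all three.  There is `x` with
`σ * c x = 1`: otherwise no arc of `D'` has `¬ Y (l' a)`, `Y (r' a)`, but `l' e₁ ∈ Y` can be reached from `s'`.  For
this `x`: `g = l' x` can be reached from `s'`.  If `s' ≠ g` then the first arc `a` of the path has `l' a = s'`, `¬ Y s'`;
so it is one of the three with `σ * c a = 1`, and `l' a = g`: contradiction.  So `s' = g`.
-/

set_option autoImplicit false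

namespace NLC

open Finset Relation
open scoped Classical

variable {V A F : Type}

namespace Dg

/-- `Y` is the set of the faces inside the triangle (`s` is outside). -/
structure Side (D : Dg V A F) (s : F) (c : A → ℚ) (Y : F → Prop) (σ : ℚ) : Prop where
  ns : ¬ Y s
  sg : σ = 1 ∨ σ = -1
  eq : ∀ a ∈ D.S, σ * c a = (if Y (D.r a) then 1 else 0) - (if Y (D.l a) then 1 else 0)

variable {D : Dg V A F} {e₁ e₂ e₃ : A} {c : A → ℚ} {s : F} {Y : F → Prop} {σ : ℚ}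

private noncomputable def Side_ind (Y : F → Prop) (f : F) : ℚ := if Y f then 1 else 0

private theorem Side_ind_pos {Y : F → Prop} {f : F} (h : Y f) : Side_ind Y f = 1 := by
  unfold Side_ind; rw [if_pos h]

private theorem Side_ind_neg {Y : F → Prop} {f : F} (h : ¬ Y f) : Side_ind Y f = 0 := by
  unfold Side_ind; rw [if_neg h]

private theorem Side_ind_cases (Y : F → Prop) (f : F) :
    (Y f ∧ Side_ind Y f = 1) ∨ (¬ Y f ∧ Side_ind Y f = 0) := by
  by_cases h : Y f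
  · exact Or.inl ⟨h, Side_ind_pos h⟩
  · exact Or.inr ⟨h, Side_ind_neg h⟩

private theorem Side_one_pos {f x : F} (h : x = f) : Side_ind (fun g => g = f) x = 1 :=
  Side_ind_pos (Y := fun g => g = f) h

private theorem Side_one_neg {f x : F} (h : x ≠ f) : Side_ind (fun g => g = f) x = 0 :=
  Side_ind_neg (Y := fun g => g = f) h

private theorem Side_circ (hD : D.Dual) (φ : F → ℚ) (ψ : V → ℚ) :
    ∑ a ∈ D.S, D.df φ a * D.dv ψ a = 0 := by
  rw [← hD.ortho ψ φ]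
  exact sum_congr rfl fun a _ => mul_comm _ _

private theorem Side.eq' (hY : D.Side s c Y σ) {a : A} (ha : a ∈ D.S) :
    σ * c a = Side_ind Y (D.r a) - Side_ind Y (D.l a) := hY.eq a ha

/-- arcs of value `1` -/
private theorem Side.pos (hY : D.Side s c Y σ) {a : A} (ha : a ∈ D.S) (h : σ * c a = 1) :
    Y (D.r a) ∧ ¬ Y (D.l a) := by
  have h1 := hY.eq' ha
  rcases Side_ind_cases Y (D.r a) with ⟨h2, h3⟩ | ⟨h2, h3⟩ <;>
    rcases Side_ind_cases Y (D.l a) with ⟨h4, h5⟩ | ⟨h4, h5⟩ <;> rw [h, h3, h5] at h1 <;>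
    first
      | exact ⟨h2, h4⟩
      | norm_num at h1

private theorem Side.neg (hY : D.Side s c Y σ) {a : A} (ha : a ∈ D.S) (h : σ * c a = -1) :
    Y (D.l a) ∧ ¬ Y (D.r a) := by
  have h1 := hY.eq' ha
  rcases Side_ind_cases Y (D.r a) with ⟨h2, h3⟩ | ⟨h2, h3⟩ <;>
    rcases Side_ind_cases Y (D.l a) with ⟨h4, h5⟩ | ⟨h4, h5⟩ <;> rw [h, h3, h5] at h1 <;>
    first
      | exact ⟨h4, h2⟩
      | norm_num at h1

private theorem Side.zero (hY : D.Side s c Y σ) {a : A} (ha : a ∈ D.S) (h : c a = 0) :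
    Y (D.r a) ↔ Y (D.l a) := by
  have h1 := hY.eq' ha
  rw [h, mul_zero] at h1
  rcases Side_ind_cases Y (D.r a) with ⟨h2, h3⟩ | ⟨h2, h3⟩ <;>
    rcases Side_ind_cases Y (D.l a) with ⟨h4, h5⟩ | ⟨h4, h5⟩ <;> rw [h3, h5] at h1 <;>
    first
      | exact ⟨fun _ => h4, fun _ => h2⟩
      | exact ⟨fun h => absurd h h2, fun h => absurd h h4⟩
      | norm_num at h1

private theorem Side_val (hC : D.Circuit e₁ e₂ e₃ c) (hs : σ = 1 ∨ σ = -1) {x : A}
    (hx : x = e₁ ∨ x = e₂ ∨ x = e₃) : σ * c x = 1 ∨ σ * c x = -1 := by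
  have h1 : c x = 1 ∨ c x = -1 := by
    rcases hx with rfl | rfl | rfl
    · exact hC.v₁
    · exact hC.v₂
    · exact hC.v₃
  rcases hs with h | h <;> rcases h1 with h1 | h1 <;> rw [h, h1] <;> norm_num

private theorem Side_mem (hC : D.Circuit e₁ e₂ e₃ c) {x : A}
    (hx : x = e₁ ∨ x = e₂ ∨ x = e₃) : x ∈ D.S := by
  rcases hx with rfl | rfl | rfl
  · exact hC.m₁
  · exact hC.m₂
  · exact hC.m₃

private theorem Side_sup (hC : D.Circuit e₁ e₂ e₃ c) {x : A} (hxS : x ∈ D.S)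
    (hx : ¬ (x = e₁ ∨ x = e₂ ∨ x = e₃)) : c x = 0 := by
  push Not at hx
  exact hC.sup x hxS hx.1 hx.2.1 hx.2.2

theorem exists_side (hD : D.Dual) (hC : D.Circuit e₁ e₂ e₃ c) (s : F) :
    ∃ (Y : F → Prop) (σ : ℚ), D.Side s c Y σ := by
  obtain ⟨φ, hφ⟩ := hD.circ c hC.circ
  set Y₀ : F → Prop := fun f => max (φ (D.l e₁)) (φ (D.r e₁)) ≤ φ f with hY₀
  have hz : ∀ a ∈ D.S, c a = 0 → (Y₀ (D.r a) ↔ Y₀ (D.l a)) := by
    intro a ha h
    have h1 := hφ a ha
    rw [h] at h1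
    unfold df at h1
    have h2 : φ (D.r a) = φ (D.l a) := by linarith
    simp only [hY₀]
    rw [h2]
  obtain ⟨k', hk'⟩ := hC.uniq (D.df (Side_ind Y₀)) (Side_circ hD _) (by
    intro a ha h1 h2 h3
    have h4 := hz a ha (hC.sup a ha h1 h2 h3)
    unfold df
    rcases Side_ind_cases Y₀ (D.r a) with ⟨h5, h6⟩ | ⟨h5, h6⟩
    · rw [h6, Side_ind_pos (h4.1 h5)]; norm_num
    · rw [h6, Side_ind_neg (fun h => h5 (h4.2 h))]; norm_num)
  have hk1 : k' = 1 := by
    have h1 := hk' e₁ hC.m₁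
    have h2 := hφ e₁ hC.m₁
    unfold df at h1 h2
    rcases hC.v₁ with h3 | h3
    · rw [h3] at h1 h2
      have h4 : Y₀ (D.r e₁) := by
        simp only [hY₀]
        exact max_le (by linarith) le_rfl
      have h5 : ¬ Y₀ (D.l e₁) := by
        simp only [hY₀]
        intro h
        have := (le_max_right _ _).trans h
        linarith
      rw [Side_ind_pos h4, Side_ind_neg h5] at h1
      linarith
    · rw [h3] at h1 h2
      have h4 : Y₀ (D.l e₁) := by
        simp only [hY₀]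
        exact max_le le_rfl (by linarith)
      have h5 : ¬ Y₀ (D.r e₁) := by
        simp only [hY₀]
        intro h
        have := (le_max_left _ _).trans h
        linarith
      rw [Side_ind_pos h4, Side_ind_neg h5] at h1
      linarith
  subst hk1
  clear_value Y₀
  by_cases hs : Y₀ s
  · refine ⟨fun f => ¬ Y₀ f, -1, ⟨fun h => h hs, Or.inr rfl, fun a ha => ?_⟩⟩
    have h1 := hk' a ha
    unfold df at h1
    have h2 : ∀ f, Side_ind (fun g => ¬ Y₀ g) f = 1 - Side_ind Y₀ f := by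
      intro f
      rcases Side_ind_cases Y₀ f with ⟨h5, h6⟩ | ⟨h5, h6⟩
      · rw [h6, Side_ind_neg (Y := fun g => ¬ Y₀ g) (fun h => h h5)]; norm_num
      · rw [h6, Side_ind_pos (Y := fun g => ¬ Y₀ g) h5]; norm_num
    show -1 * c a = Side_ind (fun g => ¬ Y₀ g) (D.r a) - Side_ind (fun g => ¬ Y₀ g) (D.l a)
    rw [h2, h2]
    linarith
  · refine ⟨Y₀, 1, ⟨hs, Or.inl rfl, fun a ha => ?_⟩⟩
    have h1 := hk' a ha
    rw [← h1]
    rfl

theorem facial (hD : D.Dual) (hC : D.Circuit e₁ e₂ e₃ c) (hY : D.Side s c Y σ)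
    (hin : ∀ a ∈ D.S, a ≠ e₁ → a ≠ e₂ → a ≠ e₃ → ¬ Y (D.l a)) :
    ∃ f, (∀ x ∈ D.S, D.IncF x f → x = e₁ ∨ x = e₂ ∨ x = e₃) ∧
      ∀ x, (x = e₁ ∨ x = e₂ ∨ x = e₃) → (σ * c x = 1 → D.r x = f) ∧ (σ * c x = -1 → D.l x = f) := by
  have hin' : ∀ a ∈ D.S, ¬ (a = e₁ ∨ a = e₂ ∨ a = e₃) → ¬ Y (D.l a) ∧ ¬ Y (D.r a) := by
    intro a ha h
    have h0 := Side_sup hC ha h
    push Not at h
    have h1 := hin a ha h.1 h.2.1 h.2.2
    exact ⟨h1, fun h2 => h1 ((hY.zero ha h0).1 h2)⟩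
  -- the face
  obtain ⟨f, hf, hf1⟩ : ∃ f, Y f ∧ Side_ind (fun g => g = f) (D.r e₁) -
      Side_ind (fun g => g = f) (D.l e₁) = σ * c e₁ := by
    rcases Side_val hC hY.sg (Or.inl rfl : e₁ = e₁ ∨ e₁ = e₂ ∨ e₁ = e₃) with h | h
    · have h1 := hY.pos hC.m₁ h
      refine ⟨D.r e₁, h1.1, ?_⟩
      rw [Side_one_pos rfl, Side_one_neg (fun h2 => h1.2 (by rw [h2]; exact h1.1)), h]
      norm_num
    · have h1 := hY.neg hC.m₁ h
      refine ⟨D.l e₁, h1.1, ?_⟩
      rw [Side_one_pos (x := D.l e₁) rfl, Side_one_neg (fun h2 => h1.2 (by rw [h2]; exact h1.1)), h]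
      norm_num
  have hne : ∀ a ∈ D.S, ¬ (a = e₁ ∨ a = e₂ ∨ a = e₃) → D.l a ≠ f ∧ D.r a ≠ f := by
    intro a ha h
    have h1 := hin' a ha h
    exact ⟨fun h2 => h1.1 (by rw [h2]; exact hf), fun h2 => h1.2 (by rw [h2]; exact hf)⟩
  obtain ⟨k, hk⟩ := hC.uniq (D.df (Side_ind (fun g => g = f))) (Side_circ hD _) (by
    intro a ha h1 h2 h3
    have h4 := hne a ha (by rintro (h | h | h) <;> contradiction)
    unfold df
    rw [Side_one_neg h4.1, Side_one_neg h4.2, sub_zero])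
  have hkσ : k = σ := by
    have h1 := hk e₁ hC.m₁
    unfold df at h1
    rw [hf1] at h1
    rcases hC.v₁ with h2 | h2 <;> rw [h2] at h1 <;> linarith
  subst hkσ
  refine ⟨f, ?_, ?_⟩
  · intro x hx hxf
    by_contra h
    have h1 := hne x hx h
    rcases hxf with h2 | h2
    · exact h1.1 h2
    · exact h1.2 h2
  · intro x hx
    have h1 := hk x (Side_mem hC hx)
    unfold df at h1
    constructor
    · intro h
      rw [h] at h1
      rcases Side_ind_cases (fun g => g = f) (D.r x) with ⟨h2, _⟩ | ⟨_, h3⟩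
      · exact h2
      · rcases Side_ind_cases (fun g => g = f) (D.l x) with ⟨_, h5⟩ | ⟨_, h5⟩ <;>
          rw [h3, h5] at h1 <;> norm_num at h1
    · intro h
      rw [h] at h1
      rcases Side_ind_cases (fun g => g = f) (D.l x) with ⟨h2, _⟩ | ⟨_, h3⟩
      · exact h2
      · rcases Side_ind_cases (fun g => g = f) (D.r x) with ⟨_, h5⟩ | ⟨_, h5⟩ <;>
          rw [h3, h5] at h1 <;> norm_num at h1

private theorem Side_cross {R : F → F → Prop} {Y : F → Prop} {u v : F} (h : ReflTransGen R u v)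
    (hu : ¬ Y u) (hv : Y v) : ∃ a b, R a b ∧ ¬ Y a ∧ Y b := by
  induction h with
  | refl => exact absurd hv hu
  | tail h1 h2 ih =>
    rename_i b c
    by_cases hb : Y b
    · exact ih hb
    · exact ⟨b, c, h2, hb, hv⟩

theorem root (hD : D.Dual) (hC : D.Circuit e₁ e₂ e₃ c) (hs : D.Rooted s) (hY : D.Side s c Y σ)
    {X : Finset A} (hX : X = D.S.filter (fun a => (a = e₁ ∨ a = e₂ ∨ a = e₃) ∨ Y (D.l a))) :
    ∃ (D' : Dg V A F) (s' : F), D'.S = X ∧ D'.t = D.t ∧ D'.h = D.h ∧ D'.Dual ∧ D'.Rooted s' ∧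
      (∀ x, (x = e₁ ∨ x = e₂ ∨ x = e₃) →
        (σ * c x = 1 → D'.l x = s' ∧ D'.r x ≠ s') ∧ (σ * c x = -1 → D'.r x = s' ∧ D'.l x ≠ s')) ∧
      (∀ x ∈ D'.S, ¬ (x = e₁ ∨ x = e₂ ∨ x = e₃) → D'.l x ≠ s' ∧ D'.r x ≠ s') ∧
      ∃ x, (x = e₁ ∨ x = e₂ ∨ x = e₃) ∧ σ * c x = 1 := by
  obtain ⟨D', m, hm⟩ := exists_del hD (D.S \ X)
  have hXS : X ⊆ D.S := by rw [hX]; exact filter_subset _ _
  have hmX : ∀ a, a ∈ X ↔ a ∈ D.S ∧ ((a = e₁ ∨ a = e₂ ∨ a = e₃) ∨ Y (D.l a)) := by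
    intro a; rw [hX, mem_filter]
  have hS : D'.S = X := by
    rw [hm.S]
    exact Finset.sdiff_sdiff_eq_self hXS
  have hrt := hm.root s hs
  have hYfix : ∀ f, Y f → m f = f ∧ ∀ g, m g = f → g = f := by
    intro f hf
    apply hm.fix
    intro x hx hxS
    rw [mem_sdiff, hmX] at hx
    have h1 : ¬ (x = e₁ ∨ x = e₂ ∨ x = e₃) := fun h => hx.2 ⟨hxS, Or.inl h⟩
    have h2 : ¬ Y (D.l x) := fun h => hx.2 ⟨hxS, Or.inr h⟩
    have h3 : ¬ Y (D.r x) := fun h => h2 ((hY.zero hxS (Side_sup hC hxS h1)).1 h)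
    exact ⟨fun h => h2 (by rw [h]; exact hf), fun h => h3 (by rw [h]; exact hf)⟩
  have hYm : ∀ g, Y (m g) ↔ Y g := by
    intro g
    constructor
    · intro h
      have h1 := (hYfix _ h).2 g rfl
      rw [h1]
      exact h
    · intro h
      rw [(hYfix g h).1]
      exact h
  have hYl : ∀ a, Y (D'.l a) ↔ Y (D.l a) := fun a => by rw [hm.l, hYm]
  have hYr : ∀ a, Y (D'.r a) ↔ Y (D.r a) := fun a => by rw [hm.r, hYm]
  have hns : ¬ Y (m s) := fun h => hY.ns ((hYm s).1 h)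
  have hother : ∀ x ∈ D'.S, ¬ (x = e₁ ∨ x = e₂ ∨ x = e₃) → Y (D'.l x) ∧ Y (D'.r x) := by
    intro x hx h
    rw [hS, hmX] at hx
    have h1 : Y (D.l x) := hx.2.resolve_left h
    exact ⟨(hYl x).2 h1, (hYr x).2 ((hY.zero hx.1 (Side_sup hC hx.1 h)).2 h1)⟩
  -- the outer face of the three arcs
  obtain ⟨g, hg, hg1⟩ : ∃ g, ¬ Y g ∧ Side_ind (fun f => f = g) (D'.r e₁) -
      Side_ind (fun f => f = g) (D'.l e₁) = - (σ * c e₁) := by
    rcases Side_val hC hY.sg (Or.inl rfl : e₁ = e₁ ∨ e₁ = e₂ ∨ e₁ = e₃) with h | h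
    · have h1 := hY.pos hC.m₁ h
      rw [← hYl, ← hYr] at h1
      refine ⟨D'.l e₁, h1.2, ?_⟩
      rw [Side_one_pos (x := D'.l e₁) rfl, Side_one_neg (fun h2 => h1.2 (by rw [← h2]; exact h1.1)), h]
      norm_num
    · have h1 := hY.neg hC.m₁ h
      rw [← hYl, ← hYr] at h1
      refine ⟨D'.r e₁, h1.2, ?_⟩
      rw [Side_one_pos (x := D'.r e₁) rfl, Side_one_neg (fun h2 => h1.2 (by rw [← h2]; exact h1.1)), h]
      norm_num
  have hdv : ∀ (ψ : V → ℚ) a, D'.dv ψ a = D.dv ψ a := by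
    intro ψ a
    unfold dv
    rw [hm.t, hm.h]
  obtain ⟨k, hk⟩ := hC.uniq (fun a => if a ∈ X then D'.df (Side_ind (fun f => f = g)) a else 0) (by
    intro ψ
    have h1 := Side_circ hm.dual (Side_ind (fun f => f = g)) ψ
    rw [hS] at h1
    refine Eq.trans ?_ h1
    symm
    have h2 : ∑ a ∈ X, D'.df (Side_ind (fun f => f = g)) a * D'.dv ψ a =
        ∑ a ∈ X, (if a ∈ X then D'.df (Side_ind (fun f => f = g)) a else 0) * D.dv ψ a := by
      refine sum_congr rfl fun a ha => ?_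
      rw [if_pos ha, hdv]
    rw [h2]
    apply sum_subset hXS
    intro a _ ha
    rw [if_neg ha, zero_mul]) (by
    intro a ha h1 h2 h3
    by_cases hXa : a ∈ X
    · rw [if_pos hXa]
      have h4 := hother a (by rw [hS]; exact hXa) (by rintro (h | h | h) <;> contradiction)
      unfold df
      rw [Side_one_neg (x := D'.r a) (fun h5 => hg (by rw [← h5]; exact h4.2)),
        Side_one_neg (x := D'.l a) (fun h5 => hg (by rw [← h5]; exact h4.1)), sub_zero]
    · rw [if_neg hXa])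
  have hmem : ∀ x, (x = e₁ ∨ x = e₂ ∨ x = e₃) → x ∈ X := by
    intro x hx
    rw [hmX]
    exact ⟨Side_mem hC hx, Or.inl hx⟩
  have hkσ : k = -σ := by
    have h1 := hk e₁ hC.m₁
    rw [if_pos (hmem e₁ (Or.inl rfl))] at h1
    unfold df at h1
    rw [hg1] at h1
    rcases hC.v₁ with h2 | h2 <;> rw [h2] at h1 <;> linarith
  have hthree : ∀ x, (x = e₁ ∨ x = e₂ ∨ x = e₃) →
      (σ * c x = 1 → D'.l x = g) ∧ (σ * c x = -1 → D'.r x = g) := by
    intro x hx
    have h1 := hk x (Side_mem hC hx)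
    rw [if_pos (hmem x hx), hkσ] at h1
    unfold df at h1
    constructor
    · intro h
      have h6 : -σ * c x = -1 := by linarith
      rw [h6] at h1
      rcases Side_ind_cases (fun f => f = g) (D'.l x) with ⟨h2, _⟩ | ⟨_, h3⟩
      · exact h2
      · rcases Side_ind_cases (fun f => f = g) (D'.r x) with ⟨_, h5⟩ | ⟨_, h5⟩ <;>
          rw [h3, h5] at h1 <;> norm_num at h1
    · intro h
      have h6 : -σ * c x = 1 := by linarith
      rw [h6] at h1
      rcases Side_ind_cases (fun f => f = g) (D'.r x) with ⟨h2, _⟩ | ⟨_, h3⟩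
      · exact h2
      · rcases Side_ind_cases (fun f => f = g) (D'.l x) with ⟨_, h5⟩ | ⟨_, h5⟩ <;>
          rw [h3, h5] at h1 <;> norm_num at h1
  -- arcs with left face outside
  have hleft : ∀ a ∈ D'.S, ¬ Y (D'.l a) → (a = e₁ ∨ a = e₂ ∨ a = e₃) ∧ σ * c a = 1 := by
    intro a ha h
    have h1 : a = e₁ ∨ a = e₂ ∨ a = e₃ := by
      by_contra h2
      exact h (hother a ha h2).1
    refine ⟨h1, ?_⟩
    rcases Side_val hC hY.sg h1 with h2 | h2
    · exact h2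
    · exact absurd ((hYl a).2 (hY.neg (Side_mem hC h1) h2).1) h
  obtain ⟨x₀, hx₀, hx₀1⟩ : ∃ x, (x = e₁ ∨ x = e₂ ∨ x = e₃) ∧ σ * c x = 1 := by
    by_contra hno
    have h1 : σ * c e₁ = -1 := by
      rcases Side_val hC hY.sg (Or.inl rfl : e₁ = e₁ ∨ e₁ = e₂ ∨ e₁ = e₃) with h | h
      · exact absurd ⟨e₁, Or.inl rfl, h⟩ hno
      · exact h
    have h2 : Y (D'.l e₁) := (hYl e₁).2 (hY.neg hC.m₁ h1).1
    have h3 := hrt e₁ (by rw [hS]; exact hmem e₁ (Or.inl rfl))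
    obtain ⟨u, v, ⟨a, ha, h4, h5⟩, h6, _⟩ := Side_cross h3 hns h2
    have h8 := hleft a ha (by rw [h4]; exact h6)
    exact hno ⟨a, h8⟩
  have hsg : m s = g := by
    have h1 := hrt x₀ (by rw [hS]; exact hmem x₀ hx₀)
    rw [(hthree x₀ hx₀).1 hx₀1] at h1
    rcases ReflTransGen.cases_head h1 with h2 | ⟨u, ⟨a, ha, h3, _⟩, _⟩
    · exact h2
    · have h4 := hleft a ha (by rw [h3]; exact hns)
      rw [← h3]
      exact (hthree a h4.1).1 h4.2
  refine ⟨D', m s, hS, hm.t, hm.h, hm.dual, hrt, ?_, ?_, x₀, hx₀, hx₀1⟩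
  · intro x hx
    have hxS := Side_mem hC hx
    constructor
    · intro h
      refine ⟨by rw [hsg]; exact (hthree x hx).1 h, fun h1 => hns ?_⟩
      rw [← h1]
      exact (hYr x).2 (hY.pos hxS h).1
    · intro h
      refine ⟨by rw [hsg]; exact (hthree x hx).2 h, fun h1 => hns ?_⟩
      rw [← h1]
      exact (hYl x).2 (hY.neg hxS h).1
  · intro x hx h
    have h1 := hother x hx h
    exact ⟨fun h2 => hns (by rw [← h2]; exact h1.1), fun h2 => hns (by rw [← h2]; exact h1.2)⟩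

end Dg

end NLC
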