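import Pool.Agent.NLC.TriConst
import Pool.Agent.NLC.Side
import Pool.Agent.NLC.SimpM

/-!
# NLC / Inner : colouring the inside of a triangle

`X` = the arcs of the triangle and the arcs inside, `X ≠ D.S`, so `X.card ≤ D.S.card - 1 = n`, `h.ih'`.
Take `D', s'` from `Dg.root` (`exists_side`...).  `D'.S = X`, `D'.t = D.t`, `D'.h = D.h`, so `D'.Simp`, and
`D'.GoodOn X c ↔ D.GoodOn X c`.
* `inner_dir`: `c x = 1` on the three arcs; `root` gives `x` with `σ * c x = 1`, so `σ = 1` and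
  `D'.OutTri s' e₁ e₂ e₃` (`only`, `nor` from the last clauses of `root`).  Apply `Dg.tri_dir`.
* `inner_tr`: `c = 1, 1, -1`.  `σ = 1`: first case of `OutTr.side`, `σ = -1`: second case.  If the colours are not
  all equal `tri_non`, otherwise `tri_const`.
-/

set_option autoImplicit false

namespace NLC

open Finset Relation
open scoped Classical

variable {V A F : Type}

variable [Infinite V] [Infinite A] [Infinite F]

namespace MinC

variable {D : Dg V A F} {s : F} {α β γ : A}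

omit [Infinite A] in
private theorem Inner_card {S X : Finset A} (hX : X ⊆ S) (hne : X ≠ S) : X.card ≤ S.card - 1 := by
  have := Finset.card_lt_card (Finset.ssubset_iff_subset_ne.mpr ⟨hX, hne⟩)
  omega

omit [Infinite V] [Infinite A] [Infinite F] in
private theorem Inner_simp {D D' : Dg V A F} (hS : D.Simp) (h1 : D'.S ⊆ D.S) (ht : D'.t = D.t)
    (hh : D'.h = D.h) : D'.Simp := by
  refine ⟨?_, ?_⟩
  · intro a ha b hb
    rw [ht, hh]
    exact hS.nodig a (h1 ha) b (h1 hb)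
  · intro a ha b hb
    rw [ht, hh]
    exact hS.par a (h1 ha) b (h1 hb)

theorem inner_dir (h : MinC D s α β γ) {e₁ e₂ e₃ : A} (m₁ : e₁ ∈ D.S) (m₂ : e₂ ∈ D.S)
    (m₃ : e₃ ∈ D.S) (h12 : D.h e₁ = D.t e₂) (h23 : D.h e₂ = D.t e₃) (h31 : D.h e₃ = D.t e₁)
    {Y : F → Prop} {σ : ℚ}
    (hY : D.Side s (fun a => if a = e₁ ∨ a = e₂ ∨ a = e₃ then 1 else 0) Y σ)
    {X : Finset A} (hX : X = D.S.filter (fun a => (a = e₁ ∨ a = e₂ ∨ a = e₃) ∨ Y (D.l a)))
    (hne : X ≠ D.S) (i₁ i₂ i₃ : Bool) (hi : ¬ (i₁ = i₂ ∧ i₂ = i₃)) :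
    ∃ c : V → Bool, D.GoodOn X c ∧ c (D.t e₁) = i₁ ∧ c (D.t e₂) = i₂ ∧ c (D.t e₃) = i₃ := by
  have hXS : X ⊆ D.S := by rw [hX]; exact Finset.filter_subset _ _
  obtain ⟨D', s', hS', ht, hh, hD', hs', h3, hrest, x, hx, hx1⟩ :=
    Dg.root h.dual (Dg.circuit_dir h.simp m₁ m₂ m₃ h12 h23 h31) h.rooted hY hX
  have hσ : σ = 1 := by
    simp only [if_pos hx, mul_one] at hx1
    exact hx1
  have k : ∀ y, (y = e₁ ∨ y = e₂ ∨ y = e₃) → D'.l y = s' ∧ D'.r y ≠ s' := by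
    intro y hy
    refine (h3 y hy).1 ?_
    simp only [if_pos hy, mul_one]
    exact hσ
  have ho : D'.OutTri s' e₁ e₂ e₃ := by
    refine ⟨?_, ?_, ?_, ?_, ?_, ?_, (k e₁ (Or.inl rfl)).1, (k e₂ (Or.inr (Or.inl rfl))).1,
      (k e₃ (Or.inr (Or.inr rfl))).1, ?_, ?_⟩
    · rw [hS', hX, Finset.mem_filter]; exact ⟨m₁, Or.inl (Or.inl rfl)⟩
    · rw [hS', hX, Finset.mem_filter]; exact ⟨m₂, Or.inl (Or.inr (Or.inl rfl))⟩
    · rw [hS', hX, Finset.mem_filter]; exact ⟨m₃, Or.inl (Or.inr (Or.inr rfl))⟩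
    · rw [hh, ht]; exact h12
    · rw [hh, ht]; exact h23
    · rw [hh, ht]; exact h31
    · intro y hy hyl
      by_contra hcon
      exact (hrest y hy hcon).1 hyl
    · intro y hy hyr
      by_cases hcon : y = e₁ ∨ y = e₂ ∨ y = e₃
      · exact (k y hcon).2 hyr
      · exact (hrest y hy hcon).2 hyr
  have hsimp : D'.Simp := Inner_simp h.simp (by rw [hS']; exact hXS) ht hh
  obtain ⟨c, hg, a1, a2, a3⟩ := Dg.tri_dir h.ih' (by rw [hS']; exact Inner_card hXS hne) hD'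
    hsimp.nodig hs' ho i₁ i₂ i₃ hi
  refine ⟨c, ?_, ?_, ?_, ?_⟩
  · unfold Dg.Good at hg
    rw [hS'] at hg
    exact (Dg.goodOn_congr ht hh X c).mp hg
  · rw [← ht]; exact a1
  · rw [← ht]; exact a2
  · rw [← ht]; exact a3

theorem inner_tr (h : MinC D s α β γ) {e₁ e₂ e₃ : A} (m₁ : e₁ ∈ D.S) (m₂ : e₂ ∈ D.S)
    (m₃ : e₃ ∈ D.S) (h12 : D.h e₁ = D.t e₂) (ht : D.t e₃ = D.t e₁) (hh : D.h e₃ = D.h e₂)
    {Y : F → Prop} {σ : ℚ}
    (hY : D.Side s (fun a => if a = e₁ ∨ a = e₂ then 1 else if a = e₃ then -1 else 0) Y σ)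
    {X : Finset A} (hX : X = D.S.filter (fun a => (a = e₁ ∨ a = e₂ ∨ a = e₃) ∨ Y (D.l a)))
    (hne : X ≠ D.S) (i₁ i₂ i₃ : Bool) :
    ∃ c : V → Bool, D.GoodOn X c ∧ c (D.t e₁) = i₁ ∧ c (D.t e₂) = i₂ ∧ c (D.h e₂) = i₃ := by
  have n13 : e₃ ≠ e₁ := by
    intro h1
    have h2 : D.h e₁ = D.h e₂ := by rw [← h1, hh]
    exact h.nodig.loop m₂ (h12.symm.trans h2)
  have n23 : e₃ ≠ e₂ := by
    intro h1
    have h2 : D.t e₂ = D.t e₁ := by rw [← h1, ht]
    exact h.nodig.loop m₁ (h2.symm.trans h12.symm)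
  have hXS : X ⊆ D.S := by rw [hX]; exact Finset.filter_subset _ _
  obtain ⟨D', s', hS', ht', hh', hD', hs', h3, hrest, -⟩ :=
    Dg.root h.dual (Dg.circuit_tr h.simp m₁ m₂ m₃ h12 ht hh) h.rooted hY hX
  have k1 := h3 e₁ (Or.inl rfl)
  have k2 := h3 e₂ (Or.inr (Or.inl rfl))
  have k3 := h3 e₃ (Or.inr (Or.inr rfl))
  simp only [true_or, or_true, if_true, mul_one, n13, n23, or_self, if_false] at k1 k2 k3
  have ho : D'.OutTr s' e₁ e₂ e₃ := by
    refine ⟨?_, ?_, ?_, ?_, ?_, ?_, ?_, ?_⟩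
    · rw [hS', hX, Finset.mem_filter]; exact ⟨m₁, Or.inl (Or.inl rfl)⟩
    · rw [hS', hX, Finset.mem_filter]; exact ⟨m₂, Or.inl (Or.inr (Or.inl rfl))⟩
    · rw [hS', hX, Finset.mem_filter]; exact ⟨m₃, Or.inl (Or.inr (Or.inr rfl))⟩
    · rw [hh', ht']; exact h12
    · rw [ht']; exact ht
    · rw [hh']; exact hh
    · rcases hY.sg with hσ | hσ
      · left
        have a1 := k1.1 hσ
        have a2 := k2.1 hσ
        have a3 := k3.2 (by rw [hσ]; norm_num)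
        exact ⟨a1.1, a2.1, a3.1, a1.2, a2.2, a3.2⟩
      · right
        have a1 := k1.2 hσ
        have a2 := k2.2 hσ
        have a3 := k3.1 (by rw [hσ]; norm_num)
        exact ⟨a1.1, a2.1, a3.1, a1.2, a2.2, a3.2⟩
    · intro y hy hyi
      by_contra hcon
      have := hrest y hy hcon
      rcases hyi with h5 | h5
      · exact this.1 h5
      · exact this.2 h5
  have hsimp : D'.Simp := Inner_simp h.simp (by rw [hS']; exact hXS) ht' hh'
  have hcard : D'.S.card ≤ D.S.card - 1 := by rw [hS']; exact Inner_card hXS hne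
  have main : ∃ c : V → Bool, D'.Good c ∧ c (D'.t e₁) = i₁ ∧ c (D'.t e₂) = i₂ ∧ c (D'.h e₂) = i₃ := by
    by_cases hi : i₁ = i₂ ∧ i₂ = i₃
    · obtain ⟨h6, h7⟩ := hi
      subst h6 h7
      exact Dg.tri_const h.ih' hcard hD' hsimp hs' ho i₁
    · exact Dg.tri_non h.ih' hcard hD' hsimp hs' ho i₁ i₂ i₃ hi
  obtain ⟨c, hg, a1, a2, a3⟩ := main
  refine ⟨c, ?_, ?_, ?_, ?_⟩
  · unfold Dg.Good at hg
    rw [hS'] at hg
    exact (Dg.goodOn_congr ht' hh' X c).mp hg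
  · rw [← ht']; exact a1
  · rw [← ht']; exact a2
  · rw [← hh']; exact a3

end MinC

end NLC
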