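import Pool.Agent.NLC.Euler

/-!
# NLC / KK : directed triangular faces at a vertex

`kk v` is the number of directed triangular faces at `v`.
`sum_kk`: double counting (`Finset.sum_card_bipartiteAbove_eq_sum_card_bipartiteBelow` or `Finset.sum_comm`) of the pairs
(`v`, `f`), `f ∈ TF`, `v ∈ VS` incident with an arc entering `f`; each `f ∈ TF` has exactly three such vertices
`t e₁, t e₂, t e₃` (distinct because there are no loops and no digons).
`sum_one`: the same restricted to the vertices with `kk v = 1`; for such `v` there is exactly one `f`.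
-/

set_option autoImplicit false

namespace NLC

open Finset Relation
open scoped Classical

variable {V A F : Type}

namespace Dg

/-- the directed triangular faces -/
noncomputable def TF (D : Dg V A F) : Finset F := D.FS.filter (fun f => D.TriF f)

/-- `v` is a vertex of the face `f` (used for `f ∈ TF`) -/
def On (D : Dg V A F) (v : V) (f : F) : Prop := ∃ a ∈ D.S, D.r a = f ∧ D.Inc a v

/-- number of directed triangular faces at `v` -/
noncomputable def kk (D : Dg V A F) (v : V) : ℕ := (D.TF.filter (fun f => D.On v f)).card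

variable {D : Dg V A F}

theorem sum_kk (hN : D.NoDig) : ∑ v ∈ D.VS, D.kk v = 3 * D.TF.card := by
  have h1 : ∑ v ∈ D.VS, D.kk v = ∑ f ∈ D.TF, (D.VS.filter (fun v => D.On v f)).card :=
    Finset.sum_card_bipartiteAbove_eq_sum_card_bipartiteBelow (s := D.VS) (t := D.TF)
      (fun v f => D.On v f)
  rw [h1]
  have h2 : ∀ f ∈ D.TF, (D.VS.filter (fun v => D.On v f)).card = 3 := by
    intro f hf
    have hT : D.TriF f := (mem_filter.1 hf).2
    obtain ⟨e₁, he1, e₂, he2, e₃, he3, a1, a2, a3, b1, b2, b3, hx⟩ := hT
    have hset : D.VS.filter (fun v => D.On v f) = {D.t e₁, D.t e₂, D.t e₃} := by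
      ext v
      rw [mem_filter, mem_insert, mem_insert, mem_singleton]
      constructor
      · rintro ⟨-, a, ha, hr, hi⟩
        rcases hx a ha (Or.inr hr) with rfl | rfl | rfl
        · rcases hi with h | h
          · exact Or.inl h.symm
          · exact Or.inr (Or.inl (by rw [← h, a1]))
        · rcases hi with h | h
          · exact Or.inr (Or.inl h.symm)
          · exact Or.inr (Or.inr (by rw [← h, a2]))
        · rcases hi with h | h
          · exact Or.inr (Or.inr h.symm)
          · exact Or.inl (by rw [← h, a3])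
      · rintro (rfl | rfl | rfl)
        · exact ⟨mem_VS.2 ⟨e₁, he1, Or.inl rfl⟩, e₁, he1, b1, Or.inl rfl⟩
        · exact ⟨mem_VS.2 ⟨e₂, he2, Or.inl rfl⟩, e₂, he2, b2, Or.inl rfl⟩
        · exact ⟨mem_VS.2 ⟨e₃, he3, Or.inl rfl⟩, e₃, he3, b3, Or.inl rfl⟩
    rw [hset]
    have h12 : D.t e₁ ≠ D.t e₂ := by rw [← a1]; exact hN.loop he1
    have h23 : D.t e₂ ≠ D.t e₃ := by rw [← a2]; exact hN.loop he2
    have h31 : D.t e₃ ≠ D.t e₁ := by rw [← a3]; exact hN.loop he3
    rw [card_insert_of_notMem, card_insert_of_notMem, card_singleton]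
    · rw [mem_singleton]
      exact h23
    · rw [mem_insert, mem_singleton, not_or]
      exact ⟨h12, h31.symm⟩
  rw [sum_congr rfl h2, sum_const, smul_eq_mul, mul_comm]

theorem sum_one : (D.VS.filter (fun v => D.kk v = 1)).card =
    ∑ f ∈ D.TF, (D.VS.filter (fun v => D.kk v = 1 ∧ D.On v f)).card := by
  have h1 : ∑ v ∈ D.VS.filter (fun v => D.kk v = 1), (D.TF.filter (fun f => D.On v f)).card =
      ∑ f ∈ D.TF, ((D.VS.filter (fun v => D.kk v = 1)).filter (fun v => D.On v f)).card :=
    Finset.sum_card_bipartiteAbove_eq_sum_card_bipartiteBelow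
      (s := D.VS.filter (fun v => D.kk v = 1)) (t := D.TF) (fun v f => D.On v f)
  have h2 : ∑ v ∈ D.VS.filter (fun v => D.kk v = 1), (D.TF.filter (fun f => D.On v f)).card =
      (D.VS.filter (fun v => D.kk v = 1)).card := by
    rw [card_eq_sum_ones]
    refine sum_congr rfl fun v hv => ?_
    exact (mem_filter.1 hv).2
  rw [← h2, h1]
  refine sum_congr rfl fun f _ => ?_
  rw [filter_filter]

end Dg

end NLC
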