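import Pool.Agent.NLC.MDefs

/-!
# NLC / MCyc : finding a directed cycle

Choose `nxt : A → A` with `nxt a ∈ B`, `t (nxt a) = h a` for `a ∈ B`; `b 0 ∈ B`, `b (i + 1) = nxt (b i)`.  By finiteness of `B`
there are `i < j` with `t (b i) = t (b j)`; choose such a pair with `j - i` minimal (`Nat.find`).  Put
`n = j - i - 1`, `a k = b (i + k)` for `k : Fin (n + 1)`.  Then `t ∘ a` is injective by minimality, and `h (a k) = t (a (k + 1))`
(for `k = n`: `h (b (j - 1)) = t (b j) = t (b i)`; `k + 1` wraps around).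
-/

set_option autoImplicit false

namespace NLC

open Finset Relation
open scoped Classical

theorem exists_cyc {V A : Type} {B : Finset A} {t h : A → V} (hne : B.Nonempty)
    (hnext : ∀ a ∈ B, ∃ b ∈ B, t b = h a) :
    ∃ (n : ℕ) (a : Fin (n + 1) → A), (∀ i, a i ∈ B) ∧ (∀ i, h (a i) = t (a (i + 1))) ∧
      Function.Injective (fun i => t (a i)) := by
  obtain ⟨a₀, ha₀⟩ := hne
  have hnx : ∀ x : {a // a ∈ B}, ∃ y : {a // a ∈ B}, t y.1 = h x.1 := by
    rintro ⟨a, ha⟩
    obtain ⟨b, hb, h1⟩ := hnext a ha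
    exact ⟨⟨b, hb⟩, h1⟩
  choose nxt hnxt using hnx
  set b : ℕ → {a // a ∈ B} := fun k => nxt^[k] ⟨a₀, ha₀⟩ with hb
  have hstep : ∀ k, t (b (k + 1)).1 = h (b k).1 := by
    intro k
    simp only [hb, Function.iterate_succ_apply']
    exact hnxt _
  have hex : ∃ d, 0 < d ∧ ∃ i, t (b i).1 = t (b (i + d)).1 := by
    obtain ⟨i, j, hij, hbij⟩ := Finite.exists_ne_map_eq_of_infinite b
    rcases Nat.lt_or_gt_of_ne hij with h1 | h1
    · exact ⟨j - i, by omega, i, by rw [Nat.add_sub_cancel' h1.le, hbij]⟩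
    · exact ⟨i - j, by omega, j, by rw [Nat.add_sub_cancel' h1.le, hbij]⟩
  obtain ⟨hd, i, hi⟩ := Nat.find_spec hex
  have hmin : ∀ d, d < Nat.find hex → ¬ (0 < d ∧ ∃ i, t (b i).1 = t (b (i + d)).1) :=
    fun d h1 => Nat.find_min hex h1
  obtain ⟨n, hn⟩ : ∃ n, Nat.find hex = n + 1 := ⟨Nat.find hex - 1, by omega⟩
  rw [hn] at hi hmin
  refine ⟨n, fun k => (b (i + k.val)).1, fun k => (b (i + k.val)).2, ?_, ?_⟩
  · intro k
    show h (b (i + k.val)).1 = t (b (i + (k + 1).val)).1
    rw [Fin.val_add_one]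
    split_ifs with h1
    · rw [h1, Fin.val_last, add_zero, hi, ← hstep]
      rfl
    · rw [← add_assoc, hstep]
  · have key : ∀ k l : Fin (n + 1), k.val < l.val → t (b (i + k.val)).1 ≠ t (b (i + l.val)).1 := by
      intro k l hkl heq
      refine hmin (l.val - k.val) (by omega) ⟨by omega, i + k.val, ?_⟩
      have : i + k.val + (l.val - k.val) = i + l.val := by omega
      rw [this]
      exact heq
    intro k l hkl
    rcases Nat.lt_trichotomy k.val l.val with h1 | h1 | h1
    · exact absurd hkl (key k l h1)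
    · exact Fin.ext h1
    · exact absurd hkl.symm (key l k h1)

end NLC
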