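import Pool.Agent.NLC.Defs

/-!
# NLC / MDefs : digraphs on surfaces given by rotation systems

`A` is the set of arcs; an arc-end is a pair `(a, true)` (the end of `a` at its tail) or `(a, false)` (the end
at its head).  `σ` turns counterclockwise around the vertices.  `fp σ d = σ⁻¹ (flp d)`: walk along the arc
from the end `d` to its other end, with the face on the left, and go on with the next arc-end clockwise.
-/

set_option autoImplicit false

namespace NLC

open Finset Relation
open scoped Classical

variable {A : Type}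

/-- exchange the two ends of every arc -/
def flp {A : Type} : Equiv.Perm (A × Bool) where
  toFun d := (d.1, !d.2)
  invFun d := (d.1, !d.2)
  left_inv d := by simp
  right_inv d := by simp

@[simp] theorem flp_true (a : A) : flp (a, true) = (a, false) := rfl
@[simp] theorem flp_false (a : A) : flp (a, false) = (a, true) := rfl
@[simp] theorem flp_flp (d : A × Bool) : flp (flp d) = d := by simp [flp]

/-- the face permutation -/
def fp (σ : Equiv.Perm (A × Bool)) : Equiv.Perm (A × Bool) := flp.trans σ.symm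

theorem fp_apply (σ : Equiv.Perm (A × Bool)) (d : A × Bool) : fp σ d = σ.symm (flp d) := rfl

/-- the vertices: cycles of `σ` -/
abbrev Vt (σ : Equiv.Perm (A × Bool)) : Type := Quotient (Equiv.Perm.SameCycle.setoid σ)

/-- the faces: cycles of `fp σ` -/
abbrev Fc (σ : Equiv.Perm (A × Bool)) : Type := Quotient (Equiv.Perm.SameCycle.setoid (fp σ))

/-- vertex of an arc-end -/
def vt (σ : Equiv.Perm (A × Bool)) (d : A × Bool) : Vt σ := Quotient.mk _ d

/-- face of an arc-end -/
def fc (σ : Equiv.Perm (A × Bool)) (d : A × Bool) : Fc σ := Quotient.mk _ d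

def tl (σ : Equiv.Perm (A × Bool)) (a : A) : Vt σ := vt σ (a, true)
def hd (σ : Equiv.Perm (A × Bool)) (a : A) : Vt σ := vt σ (a, false)
def lf (σ : Equiv.Perm (A × Bool)) (a : A) : Fc σ := fc σ (a, true)
def rt (σ : Equiv.Perm (A × Bool)) (a : A) : Fc σ := fc σ (a, false)

theorem vt_σ (σ : Equiv.Perm (A × Bool)) (d : A × Bool) : vt σ (σ d) = vt σ d := by
  apply Quotient.sound
  exact (Equiv.Perm.sameCycle_apply_left).mpr (Equiv.Perm.SameCycle.refl σ d)

theorem fc_fp (σ : Equiv.Perm (A × Bool)) (d : A × Bool) : fc σ (fp σ d) = fc σ d := by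
  apply Quotient.sound
  exact (Equiv.Perm.sameCycle_apply_left).mpr (Equiv.Perm.SameCycle.refl (fp σ) d)

/-- the corner between `d` and `σ d` -/
theorem fc_corner (σ : Equiv.Perm (A × Bool)) (d : A × Bool) : fc σ (flp (σ d)) = fc σ d := by
  rw [← fc_fp σ (flp (σ d)), fp_apply, flp_flp, Equiv.symm_apply_apply]

/-- connected -/
def Conn (σ : Equiv.Perm (A × Bool)) : Prop :=
  ∀ x y, ReflTransGen (fun u w => w = σ u ∨ w = flp u) x y

/-- the digraph of the map -/
def ofMap [Fintype A] (σ : Equiv.Perm (A × Bool)) : Dg (Vt σ) A (Fc σ) :=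
  ⟨Finset.univ, tl σ, hd σ, lf σ, rt σ⟩

/-- a directed cycle: its arcs `a 0, …, a n` -/
def IsCyc (σ : Equiv.Perm (A × Bool)) {n : ℕ} (a : Fin (n + 1) → A) : Prop :=
  (∀ i, hd σ (a i) = tl σ (a (i + 1))) ∧ Function.Injective (fun i => tl σ (a i))

/-- the directed cycle `a` is clockwise: there is a set `Y` of faces (the inside), `s ∉ Y`, such that all arcs of
`a` have their left face outside and their right face inside, and all other arcs have both faces on the same
side. -/
def IsCw (σ : Equiv.Perm (A × Bool)) (s : Fc σ) {n : ℕ} (a : Fin (n + 1) → A) : Prop :=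
  ∃ Y : Set (Fc σ), s ∉ Y ∧ ∀ x : A, (x ∈ Set.range a → lf σ x ∉ Y ∧ rt σ x ∈ Y) ∧
    (x ∉ Set.range a → (lf σ x ∈ Y ↔ rt σ x ∈ Y))

end NLC
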