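import Pool.Agent.NLC.MOrtho

/-!
# NLC / MDual : algebraic duality for maps of genus zero

`Vt σ`, `Fc σ` are finite (quotients of a finite type).  Let `n, k` be their numbers, `m = card A`, `n + k = m + 2`; so `n, k ≥ 1`
... (both nonempty as soon as `A` is nonempty, which follows from `n + k = m + 2 ≥ 2`).
Linear maps `δ : (Vt → ℚ) → (A → ℚ)`, `δ ψ = dv ψ`, and `ε : (Fc → ℚ) → (A → ℚ)`, `ε φ = df φ`.  By `conn_v`, `conn_f` the kernels are the
constant functions, so `dim range δ = n - 1`, `dim range ε = k - 1`.  The orthogonal of `range δ` (for the dot product; kernel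
of the transpose; e.g. `Matrix.rank_transpose` and rank-nullity) has dimension `m - (n - 1) = k - 1`, and contains `range ε`
(`ofMap_ortho`), so they are equal: this is `circ`.  Same for `cut`: the orthogonal of `range ε` has dimension
`m - (k - 1) = n - 1` and contains `range δ`.
-/

set_option autoImplicit false

namespace NLC

open Finset Relation
open scoped Classical

/-- difference map -/
private def MDual_map {A T : Type} (p q : A → T) : (T → ℚ) →ₗ[ℚ] (A → ℚ) where
  toFun ψ a := ψ (p a) - ψ (q a)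
  map_add' x y := by funext a; simp; ring
  map_smul' c x := by funext a; simp; ring

private theorem MDual_rank {A T : Type} [Fintype A] [Finite T] [Nonempty T] (p q : A → T)
    (h : ∀ ψ : T → ℚ, (∀ a, ψ (p a) = ψ (q a)) → ∀ u v, ψ u = ψ v) :
    Module.finrank ℚ (LinearMap.range (MDual_map p q)) + 1 = Nat.card T := by
  have : Fintype T := Fintype.ofFinite T
  have h1 := LinearMap.finrank_range_add_finrank_ker (MDual_map p q)
  have hker : LinearMap.ker (MDual_map p q) = Submodule.span ℚ {(fun _ => (1 : ℚ) : T → ℚ)} := by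
    ext ψ
    rw [LinearMap.mem_ker, Submodule.mem_span_singleton]
    constructor
    · intro h0
      have h2 : ∀ a, ψ (p a) = ψ (q a) := by
        intro a
        have h3 := congrFun h0 a
        simp only [MDual_map, LinearMap.coe_mk, AddHom.coe_mk, Pi.zero_apply] at h3
        linarith
      obtain ⟨u⟩ : Nonempty T := inferInstance
      refine ⟨ψ u, ?_⟩
      funext v
      simp only [Pi.smul_apply, smul_eq_mul, mul_one]
      exact h ψ h2 u v
    · rintro ⟨c, rfl⟩
      funext a
      simp [MDual_map]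
  have hk1 : Module.finrank ℚ (LinearMap.ker (MDual_map p q)) = 1 := by
    rw [hker]
    apply finrank_span_singleton
    intro h0
    obtain ⟨u⟩ : Nonempty T := inferInstance
    have := congrFun h0 u
    simp at this
  rw [hk1, Module.finrank_fintype_fun_eq_card] at h1
  rw [h1, Nat.card_eq_fintype_card]

private theorem MDual_orth {A : Type} [Fintype A] (M N : Submodule ℚ (A → ℚ))
    (hMN : ∀ x ∈ M, ∀ y ∈ N, ∑ a, y a * x a = 0)
    (hd : Module.finrank ℚ M + Module.finrank ℚ N = Fintype.card A)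
    (c : A → ℚ) (hc : ∀ x ∈ M, ∑ a, c a * x a = 0) : c ∈ N := by
  let e : (A → ℚ) ≃ₗ[ℚ] Module.Dual ℚ (A → ℚ) := dotProductEquiv ℚ A
  have he : ∀ x y : A → ℚ, e x y = ∑ a, x a * y a := fun x y => rfl
  have h1 : Module.finrank ℚ M + Module.finrank ℚ M.dualAnnihilator = Fintype.card A := by
    rw [Subspace.finrank_add_finrank_dualAnnihilator_eq, Module.finrank_fintype_fun_eq_card]
  have h2 : Module.finrank ℚ (N.map e.toLinearMap) = Module.finrank ℚ N :=
    LinearEquiv.finrank_map_eq e N
  have h3 : N.map e.toLinearMap ≤ M.dualAnnihilator := by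
    rintro _ ⟨y, hy, rfl⟩
    rw [Submodule.mem_dualAnnihilator]
    intro x hx
    exact hMN x hx y hy
  have h4 : N.map e.toLinearMap = M.dualAnnihilator :=
    Submodule.eq_of_le_of_finrank_eq h3 (by omega)
  have h5 : e c ∈ M.dualAnnihilator := by
    rw [Submodule.mem_dualAnnihilator]
    intro x hx
    exact hc x hx
  rw [← h4] at h5
  obtain ⟨y, hy, hy2⟩ := h5
  have : y = c := e.injective hy2
  rw [← this]
  exact hy

theorem ofMap_dual {A : Type} [Fintype A] (σ : Equiv.Perm (A × Bool)) (hconn : Conn σ)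
    (hg : Nat.card (Vt σ) + Nat.card (Fc σ) = Fintype.card A + 2) : (ofMap σ).Dual := by
  have hortho := ofMap_ortho σ
  rcases isEmpty_or_nonempty A with hA | ⟨⟨a₀⟩⟩
  · refine ⟨fun ψ φ => hortho ψ φ, fun c _ => ⟨fun _ => 0, fun a _ => hA.elim a⟩,
      fun c _ => ⟨fun _ => 0, fun a _ => hA.elim a⟩⟩
  have hnV : Nonempty (Vt σ) := ⟨vt σ (a₀, true)⟩
  have hnF : Nonempty (Fc σ) := ⟨fc σ (a₀, true)⟩
  have hfV : Finite (Vt σ) := inferInstance
  have hfF : Finite (Fc σ) := inferInstance
  have hV := MDual_rank (hd σ) (tl σ) (fun ψ h => conn_v σ hconn ψ h)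
  have hF := MDual_rank (rt σ) (lf σ) (fun φ h => conn_f σ hconn φ h)
  refine ⟨fun ψ φ => hortho ψ φ, fun c hc => ?_, fun z hz => ?_⟩
  · have := MDual_orth (LinearMap.range (MDual_map (hd σ) (tl σ)))
      (LinearMap.range (MDual_map (rt σ) (lf σ))) ?_ (by omega) c ?_
    · obtain ⟨φ, hφ⟩ := this
      exact ⟨φ, fun a _ => (congrFun hφ a).symm⟩
    · rintro _ ⟨ψ, rfl⟩ _ ⟨φ, rfl⟩
      rw [← hortho ψ φ]
      exact Finset.sum_congr rfl fun a _ => mul_comm _ _
    · rintro _ ⟨ψ, rfl⟩
      exact hc ψ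
  · have := MDual_orth (LinearMap.range (MDual_map (rt σ) (lf σ)))
      (LinearMap.range (MDual_map (hd σ) (tl σ))) ?_ (by omega) z ?_
    · obtain ⟨ψ, hψ⟩ := this
      exact ⟨ψ, fun a _ => (congrFun hψ a).symm⟩
    · rintro _ ⟨φ, rfl⟩ _ ⟨ψ, rfl⟩
      exact hortho ψ φ
    · rintro _ ⟨φ, rfl⟩
      exact hz φ

end NLC
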