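import Pool.Agent.NLC.MOrtho
import Pool.Agent.NLC.MCyc

/-!
# NLC / MRoot : clockwise cycles only: every face can be reached

Let `U f ↔ ¬ ReflTransGen (ofMap σ).FStep s f`; `¬ U s`.  Suppose some `lf a₀` is in `U`.  Let `B` be the arcs `a` with `U (lf a)`,
`¬ U (rt a)`.  No arc has `¬ U (lf a)`, `U (rt a)`.  `B` is nonempty: otherwise `U (rt a) ↔ U (lf a)` for all arcs, so by
`conn_f` (`T = Prop`) `U` is constant, but `¬ U s`, `U (lf a₀)`.
With `φ = - 1_U`: `df φ a = 1` for `a ∈ B` and `0` otherwise; so by `ofMap_ortho`: `∑_{a ∈ B} (ψ (hd a) - ψ (tl a)) = 0` for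
all `ψ`.  With `ψ = 1_v`, `v = hd a`, `a ∈ B`: the number of arcs of `B` with tail `v` is the number with head `v`, so `≥ 1`.
So `exists_cyc` gives a directed cycle with arcs in `B`.  Let `Y` be as in `IsCw`, and `x = a 0`.  `rt x` can be reached from `s`,
`s ∉ Y`, `rt x ∈ Y`.  So (induction on the path) there is an arc `y` such that `lf y` can be reached, `lf y ∉ Y`, `rt y ∈ Y`.
Then `y ∈ Set.range a` (otherwise both or none in `Y`), so `y ∈ B` and `U (lf y)`: contradiction.
-/

set_option autoImplicit false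

namespace NLC

open Finset Relation
open scoped Classical

theorem ofMap_rooted {A : Type} [Fintype A] (σ : Equiv.Perm (A × Bool)) (hconn : Conn σ)
    (s : Fc σ) (hcw : ∀ (n : ℕ) (a : Fin (n + 1) → A), IsCyc σ a → IsCw σ s a) :
    (ofMap σ).Rooted s := by
  by_contra hcon
  unfold Dg.Rooted at hcon
  push Not at hcon
  obtain ⟨a₀, _, ha₀⟩ := hcon
  let U : Fc σ → Prop := fun f => ¬ ReflTransGen (ofMap σ).FStep s f
  have hUs : ¬ U s := fun h => h ReflTransGen.refl
  have hU0 : U (lf σ a₀) := ha₀
  have hstep : ∀ a, ¬ U (lf σ a) → ¬ U (rt σ a) := by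
    intro a h1 h2
    have h3 : ReflTransGen (ofMap σ).FStep s (lf σ a) := not_not.mp h1
    exact h2 (h3.tail ⟨a, mem_univ a, rfl, rfl⟩)
  let B : Finset A := univ.filter (fun a => U (lf σ a) ∧ ¬ U (rt σ a))
  have hBmem : ∀ a, a ∈ B ↔ U (lf σ a) ∧ ¬ U (rt σ a) := by
    intro a
    change a ∈ univ.filter _ ↔ _
    rw [mem_filter]
    exact ⟨fun h => h.2, fun h => ⟨mem_univ a, h⟩⟩
  have hBne : B.Nonempty := by
    by_contra hB
    rw [not_nonempty_iff_eq_empty] at hB
    have h1 : ∀ a, U (rt σ a) = U (lf σ a) := by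
      intro a
      apply propext
      constructor
      · intro h2
        by_contra h3
        exact hstep a (fun hn => hn h3) h2
      · intro h2
        by_contra h3
        have : a ∈ B := (hBmem a).mpr ⟨h2, fun hn => hn h3⟩
        rw [hB] at this
        exact absurd this (notMem_empty a)
    have h2 := conn_f σ hconn U h1 s (lf σ a₀)
    rw [h2] at hUs
    exact hUs hU0
  have hnext : ∀ a ∈ B, ∃ b ∈ B, tl σ b = hd σ a := by
    intro a ha
    by_contra hc
    push Not at hc
    have h0 := ofMap_ortho σ (fun v => if v = hd σ a then 1 else 0)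
      (fun f => if U f then -1 else 0)
    have hterm : ∀ b ∈ (univ : Finset A), 0 ≤
        (ofMap σ).dv (fun v => if v = hd σ a then 1 else 0) b *
          (ofMap σ).df (fun f => if U f then -1 else 0) b := by
      intro b _
      change 0 ≤ ((if hd σ b = hd σ a then (1 : ℚ) else 0) - (if tl σ b = hd σ a then 1 else 0)) *
        ((if U (rt σ b) then (-1 : ℚ) else 0) - (if U (lf σ b) then -1 else 0))
      by_cases hb : b ∈ B
      · have h1 := (hBmem b).mp hb
        rw [if_neg (hc b hb), if_pos h1.1, if_neg h1.2]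
        split_ifs <;> norm_num
      · have h1 : U (rt σ b) ↔ U (lf σ b) := by
          constructor
          · intro h2
            by_contra h3
            exact hstep b (fun hn => hn h3) h2
          · intro h2
            by_contra h3
            exact hb ((hBmem b).mpr ⟨h2, fun hn => hn h3⟩)
        by_cases h2 : U (lf σ b)
        · rw [if_pos h2, if_pos (h1.mpr h2)]
          simp
        · rw [if_neg h2, if_neg (fun h3 => h2 (h1.mp h3))]
          simp
    have hpos : 0 < (ofMap σ).dv (fun v => if v = hd σ a then 1 else 0) a *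
          (ofMap σ).df (fun f => if U f then -1 else 0) a := by
      change 0 < ((if hd σ a = hd σ a then (1 : ℚ) else 0) - (if tl σ a = hd σ a then 1 else 0)) *
        ((if U (rt σ a) then (-1 : ℚ) else 0) - (if U (lf σ a) then -1 else 0))
      have h1 := (hBmem a).mp ha
      rw [if_neg (hc a ha), if_pos h1.1, if_neg h1.2, if_pos rfl]
      norm_num
    have := Finset.sum_pos' hterm ⟨a, mem_univ a, hpos⟩
    rw [h0] at this
    exact lt_irrefl _ this
  obtain ⟨n, a, haB, hac, hai⟩ := exists_cyc hBne hnext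
  obtain ⟨Y, hsY, hY⟩ := hcw n a ⟨hac, hai⟩
  have hpath : ∀ f, ReflTransGen (ofMap σ).FStep s f → f ∈ Y →
      ∃ y, ReflTransGen (ofMap σ).FStep s (lf σ y) ∧ lf σ y ∉ Y ∧ rt σ y ∈ Y := by
    intro f hf
    induction hf with
    | refl => intro h1; exact absurd h1 hsY
    | @tail g f' hg hst ih =>
      intro h1
      obtain ⟨y, _, hyl, hyr⟩ := hst
      by_cases hgY : g ∈ Y
      · exact ih hgY
      · have e1 : lf σ y = g := hyl
        have e2 : rt σ y = f' := hyr
        refine ⟨y, ?_, ?_, ?_⟩
        · rw [e1]; exact hg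
        · rw [e1]; exact hgY
        · rw [e2]; exact h1
  have h0 := (hBmem (a 0)).mp (haB 0)
  have h1 : ReflTransGen (ofMap σ).FStep s (rt σ (a 0)) := not_not.mp h0.2
  obtain ⟨y, hy1, hy2, hy3⟩ := hpath _ h1 ((hY (a 0)).1 ⟨0, rfl⟩).2
  by_cases hyr : y ∈ Set.range a
  · obtain ⟨i, rfl⟩ := hyr
    exact ((hBmem (a i)).mp (haB i)).1 hy1
  · exact hy2 (((hY y).2 hyr).mpr hy3)

end NLC
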