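import Pool.Agent.NLC.MLift
import Pool.Agent.NLC.MRoot
import Pool.Agent.NLC.MDual

/-!
# NLC / MFinal : the theorem for maps

`map_ext`: `good_ext` for `ofMap σ` (`ofMap_dual`, `ofMap_rooted`).  A monochromatic directed cycle `a 0, ..., a n` (all `c (tl (a i))`
equal) gives `TransGen (MS univ c) v v` for `v = tl (a 0)`: contradiction.
`map_col`: `A` is nonempty, so by `Rooted.exists_l` there is `e` with `lf e = s`; use `map_ext`.  (`Nonempty A`: otherwise
`Vt`, `Fc` are empty, and `0 + 0 = 0 + 2`.)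
-/

set_option autoImplicit false

namespace NLC

open Finset Relation
open scoped Classical

variable {A : Type} [Fintype A]

theorem map_ext (σ : Equiv.Perm (A × Bool)) (hconn : Conn σ)
    (hg : Nat.card (Vt σ) + Nat.card (Fc σ) = Fintype.card A + 2)
    (hN : ∀ a b, ¬ (tl σ a = hd σ b ∧ hd σ a = tl σ b))
    (s : Fc σ) (hcw : ∀ (n : ℕ) (a : Fin (n + 1) → A), IsCyc σ a → IsCw σ s a)
    (e : A) (he : lf σ e = s) (i j : Bool) :
    ∃ c : Vt σ → Bool, (∀ (n : ℕ) (a : Fin (n + 1) → A), IsCyc σ a →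
      ∃ k l, c (tl σ (a k)) ≠ c (tl σ (a l))) ∧ c (tl σ e) = i ∧ c (hd σ e) = j := by
  have hroot : (ofMap σ).Rooted ((ofMap σ).l e) := by
    have h1 : (ofMap σ).l e = s := he
    rw [h1]
    exact ofMap_rooted σ hconn s hcw
  obtain ⟨c, hgood, h1, h2⟩ := good_ext (D := ofMap σ) (ofMap_dual σ hconn hg)
    (fun a _ b _ => hN a b) (Finset.mem_univ e) hroot i j
  refine ⟨c, ?_, h1, h2⟩
  intro n a ha
  by_contra hcon
  have hall : ∀ k l, c (tl σ (a k)) = c (tl σ (a l)) := by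
    intro k l
    by_contra h3
    exact hcon ⟨k, l, h3⟩
  have hstep : ∀ k : Fin (n + 1), (ofMap σ).MS (ofMap σ).S c (tl σ (a k)) (tl σ (a (k + 1))) :=
    fun k => ⟨a k, Finset.mem_univ _, rfl, ha.1 k, hall _ _⟩
  have htr : ∀ k : Fin (n + 1),
      TransGen ((ofMap σ).MS (ofMap σ).S c) (tl σ (a 0)) (tl σ (a (k + 1))) := by
    intro k
    induction k using Fin.induction with
    | zero => exact TransGen.single (hstep 0)
    | succ k ih =>
      rw [Fin.coeSucc_eq_succ] at ih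
      exact ih.tail (hstep k.succ)
  have h3 := htr (Fin.last n)
  rw [Fin.last_add_one] at h3
  exact hgood _ h3

theorem map_col (σ : Equiv.Perm (A × Bool)) (hconn : Conn σ)
    (hg : Nat.card (Vt σ) + Nat.card (Fc σ) = Fintype.card A + 2)
    (hN : ∀ a b, ¬ (tl σ a = hd σ b ∧ hd σ a = tl σ b))
    (s : Fc σ) (hcw : ∀ (n : ℕ) (a : Fin (n + 1) → A), IsCyc σ a → IsCw σ s a) :
    ∃ c : Vt σ → Bool, ∀ (n : ℕ) (a : Fin (n + 1) → A), IsCyc σ a →
      ∃ k l, c (tl σ (a k)) ≠ c (tl σ (a l)) := by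
  have hne : Nonempty A := by
    by_contra hcon
    have hA : IsEmpty A := not_nonempty_iff.mp hcon
    have h1 : IsEmpty (Vt σ) := ⟨fun v => Quotient.inductionOn v (fun d => hA.false d.1)⟩
    have h2 : IsEmpty (Fc σ) := ⟨fun v => Quotient.inductionOn v (fun d => hA.false d.1)⟩
    rw [Nat.card_of_isEmpty, Nat.card_of_isEmpty, Fintype.card_eq_zero] at hg
    omega
  have hroot := ofMap_rooted σ hconn s hcw
  obtain ⟨e, -, he⟩ := hroot.exists_l (Finset.univ_nonempty)
  obtain ⟨c, hc, -⟩ := map_ext σ hconn hg hN s hcw e he true true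
  exact ⟨c, hc⟩

end NLC
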