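import Pool.Agent.NLC.MainPB

/-!
# NLC / MLift : from finite to infinite types

`lift D` has the vertex type `V ⊕ ℕ` etc.  `∑ a ∈ (lift D).S, g a = ∑ a ∈ D.S, g (inl a)` (`Finset.sum_map`), and functions on
`V ⊕ ℕ` restrict to `V` (and functions on `V` extend by `0`).
`good_ext`: `col_arc` for `lift D` and `c ∘ inl`; `PB_all`.
-/

set_option autoImplicit false

namespace NLC

open Finset Relation
open scoped Classical

variable {V A F : Type}

/-- the same digraph with infinite types -/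
def Dg.lift (D : Dg V A F) : Dg (V ⊕ ℕ) (A ⊕ ℕ) (F ⊕ ℕ) where
  S := D.S.map ⟨Sum.inl, Sum.inl_injective⟩
  t := Sum.map D.t id
  h := Sum.map D.h id
  l := Sum.map D.l id
  r := Sum.map D.r id

private theorem MLift_sum (D : Dg V A F) (g : A ⊕ ℕ → ℚ) :
    ∑ a ∈ D.lift.S, g a = ∑ a ∈ D.S, g (Sum.inl a) := by
  show ∑ a ∈ D.S.map ⟨Sum.inl, Sum.inl_injective⟩, g a = _
  rw [sum_map]
  rfl

private theorem MLift_mem {D : Dg V A F} {a : A ⊕ ℕ} :
    a ∈ D.lift.S ↔ ∃ b ∈ D.S, Sum.inl b = a := by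
  show a ∈ D.S.map ⟨Sum.inl, Sum.inl_injective⟩ ↔ _
  rw [mem_map]
  rfl

theorem lift_dual {D : Dg V A F} (hD : D.Dual) : D.lift.Dual := by
  refine ⟨?_, ?_, ?_⟩
  · intro ψ φ
    rw [MLift_sum]
    exact hD.ortho (fun v => ψ (Sum.inl v)) (fun f => φ (Sum.inl f))
  · intro c hc
    obtain ⟨φ, hφ⟩ := hD.circ (fun a => c (Sum.inl a)) (by
      intro ψ
      have h1 := hc (Sum.elim ψ (fun _ => 0))
      rw [MLift_sum] at h1
      exact h1)
    refine ⟨Sum.elim φ (fun _ => 0), ?_⟩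
    intro a ha
    obtain ⟨b, hb, rfl⟩ := MLift_mem.1 ha
    exact hφ b hb
  · intro z hz
    obtain ⟨ψ, hψ⟩ := hD.cut (fun a => z (Sum.inl a)) (by
      intro φ
      have h1 := hz (Sum.elim φ (fun _ => 0))
      rw [MLift_sum] at h1
      exact h1)
    refine ⟨Sum.elim ψ (fun _ => 0), ?_⟩
    intro a ha
    obtain ⟨b, hb, rfl⟩ := MLift_mem.1 ha
    exact hψ b hb

theorem lift_rooted {D : Dg V A F} {s : F} (hs : D.Rooted s) : D.lift.Rooted (Sum.inl s) := by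
  intro a ha
  obtain ⟨b, hb, rfl⟩ := MLift_mem.1 ha
  refine ReflTransGen.lift (Sum.inl : F → F ⊕ ℕ) ?_ _ _ (hs b hb)
  rintro f g ⟨x, hx, rfl, rfl⟩
  exact ⟨Sum.inl x, MLift_mem.2 ⟨x, hx, rfl⟩, rfl, rfl⟩

theorem lift_nodig {D : Dg V A F} (hN : D.NoDig) : D.lift.NoDig := by
  intro a ha b hb h
  obtain ⟨a', ha', rfl⟩ := MLift_mem.1 ha
  obtain ⟨b', hb', rfl⟩ := MLift_mem.1 hb
  exact hN a' ha' b' hb' ⟨Sum.inl_injective h.1, Sum.inl_injective h.2⟩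

theorem lift_good {D : Dg V A F} {c : V ⊕ ℕ → Bool} (hc : D.lift.Good c) :
    D.Good (fun v => c (Sum.inl v)) := by
  intro v hv
  refine hc (Sum.inl v) (TransGen.lift (Sum.inl : V → V ⊕ ℕ) ?_ _ _ hv)
  rintro u w ⟨x, hx, rfl, rfl, h⟩
  exact ⟨Sum.inl x, MLift_mem.2 ⟨x, hx, rfl⟩, rfl, rfl, h⟩

/-- the main theorem for digraphs with algebraic dual -/
theorem good_ext {D : Dg V A F} (hD : D.Dual) (hN : D.NoDig) {e : A} (he : e ∈ D.S)
    (hs : D.Rooted (D.l e)) (i j : Bool) :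
    ∃ c : V → Bool, D.Good c ∧ c (D.t e) = i ∧ c (D.h e) = j := by
  obtain ⟨c, hc, h1, h2⟩ := col_arc (PB_all (D.lift.S.card + 2)) D.lift le_rfl (lift_dual hD)
    (lift_nodig hN) (MLift_mem.2 ⟨e, he, rfl⟩) (lift_rooted hs) i j
  exact ⟨fun v => c (Sum.inl v), lift_good hc, h1, h2⟩

end NLC
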