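import Pool.Agent.NLC.MDefs

/-!
# NLC / MOrtho : orthogonality and connectedness for maps

`ofMap_ortho`: let `G = ∑_d ψ (vt d) * (φ (fc d) - φ (fc (flp d)))`, sum over all arc-ends `d : A × Bool`
(`Fintype.sum_prod_type`, `Fintype.sum_bool`): the terms of `(a, true)` and `(a, false)` add up to
`(ψ (hd a) - ψ (tl a)) * (φ (rt a) - φ (lf a))`.  On the other hand `∑_d ψ (vt d) * φ (fc (flp d))`, with `d = σ d'`
(`Equiv.sum_comp σ`), is `∑_{d'} ψ (vt d') * φ (fc d')` by `vt_σ`, `fc_corner`.  So `G = 0`.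

`conn_v`: `d ↦ ψ (vt d)` is invariant under `σ` (`vt_σ`) and `flp` (`h`), so constant (`hconn`, induction on
`ReflTransGen`); every vertex is a `vt d` (`Quotient.ind`).
`conn_f`: `d ↦ φ (fc d)` is invariant under `flp` (`h`), and `φ (fc (σ d)) = φ (fc (flp (σ d))) = φ (fc d)` by
`fc_corner`.
-/

set_option autoImplicit false

namespace NLC

open Finset Relation
open scoped Classical

variable {A : Type} [Fintype A] (σ : Equiv.Perm (A × Bool))

theorem ofMap_ortho (ψ : Vt σ → ℚ) (φ : Fc σ → ℚ) :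
    ∑ a, (ofMap σ).dv ψ a * (ofMap σ).df φ a = 0 := by
  have h1 : ∑ d : A × Bool, ψ (vt σ d) * φ (fc σ (flp d)) =
      ∑ d : A × Bool, ψ (vt σ d) * φ (fc σ d) := by
    rw [← Equiv.sum_comp σ (fun d => ψ (vt σ d) * φ (fc σ (flp d)))]
    refine Finset.sum_congr rfl fun d _ => ?_
    rw [vt_σ, fc_corner]
  have h2 : ∑ a, (ofMap σ).dv ψ a * (ofMap σ).df φ a =
      ∑ d : A × Bool, ψ (vt σ d) * φ (fc σ d) - ∑ d : A × Bool, ψ (vt σ d) * φ (fc σ (flp d)) := by
    rw [Fintype.sum_prod_type, Fintype.sum_prod_type, ← Finset.sum_sub_distrib]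
    refine Finset.sum_congr rfl fun a _ => ?_
    rw [Fintype.sum_bool, Fintype.sum_bool]
    simp only [flp_true, flp_false, Dg.dv, Dg.df, ofMap, hd, tl, lf, rt]
    ring
  rw [h2, h1, sub_self]

omit [Fintype A] in
theorem conn_v {T : Type} (hconn : Conn σ) (ψ : Vt σ → T) (h : ∀ a, ψ (hd σ a) = ψ (tl σ a)) :
    ∀ u v, ψ u = ψ v := by
  have hflp : ∀ d : A × Bool, ψ (vt σ (flp d)) = ψ (vt σ d) := by
    rintro ⟨a, b⟩
    cases b
    · exact (h a).symm
    · exact h a
  have key : ∀ x y : A × Bool, ψ (vt σ x) = ψ (vt σ y) := by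
    intro x y
    induction hconn x y with
    | refl => rfl
    | tail _ h2 ih =>
      rcases h2 with rfl | rfl
      · rw [vt_σ]; exact ih
      · rw [ih, hflp]
  intro u v
  induction u using Quotient.ind
  induction v using Quotient.ind
  exact key _ _

omit [Fintype A] in
theorem conn_f {T : Type} (hconn : Conn σ) (φ : Fc σ → T) (h : ∀ a, φ (rt σ a) = φ (lf σ a)) :
    ∀ u v, φ u = φ v := by
  have hflp : ∀ d : A × Bool, φ (fc σ (flp d)) = φ (fc σ d) := by
    rintro ⟨a, b⟩
    cases b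
    · exact (h a).symm
    · exact h a
  have key : ∀ x y : A × Bool, φ (fc σ x) = φ (fc σ y) := by
    intro x y
    induction hconn x y with
    | refl => rfl
    | tail _ h2 ih =>
      rcases h2 with rfl | rfl
      · rw [ih, ← fc_corner, hflp]
      · rw [ih, hflp]
  intro u v
  induction u using Quotient.ind
  induction v using Quotient.ind
  exact key _ _

end NLC
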