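import Pool.Agent.NLC.Reor
import Pool.Agent.NLC.MFinal

/-!
# NLC / MReor : reorientation with the same outdegrees
-/

set_option autoImplicit false

namespace NLC

open Finset Relation
open scoped Classical

theorem Dg.Good.cyc {V A F : Type} {D : Dg V A F} {c : V → Bool} (hc : D.Good c) {n : ℕ}
    (a : Fin (n + 1) → A) (hS : ∀ i, a i ∈ D.S) (ha : ∀ i, D.h (a i) = D.t (a (i + 1))) :
    ∃ k l, c (D.t (a k)) ≠ c (D.t (a l)) := by
  by_contra hcon
  push Not at hcon
  have hstep : ∀ k : Fin (n + 1), D.MS D.S c (D.t (a k)) (D.t (a (k + 1))) := by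
    intro k
    exact ⟨a k, hS k, rfl, ha k, hcon _ _⟩
  have hsucc : ∀ k : ℕ, Fin.ofNat (n + 1) (k + 1) = Fin.ofNat (n + 1) k + 1 := by
    intro k
    apply Fin.ext
    simp [Fin.ofNat, Fin.add_def, Nat.add_mod]
  have key : ∀ k : ℕ, TransGen (D.MS D.S c) (D.t (a 0)) (D.t (a (Fin.ofNat (n + 1) (k + 1)))) := by
    intro k
    induction k with
    | zero =>
      rw [hsucc]
      have h0 : Fin.ofNat (n + 1) 0 = 0 := by apply Fin.ext; simp [Fin.ofNat]
      rw [h0]
      exact TransGen.single (hstep 0)
    | succ k ih =>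
      rw [hsucc]
      exact ih.tail (hstep _)
  have h1 := key n
  have h2 : Fin.ofNat (n + 1) (n + 1) = 0 := by apply Fin.ext; simp [Fin.ofNat]
  rw [h2] at h1
  exact hc _ h1

variable {A : Type} [Fintype A]

theorem map_reor (σ : Equiv.Perm (A × Bool)) (hconn : Conn σ)
    (hg : Nat.card (Vt σ) + Nat.card (Fc σ) = Fintype.card A + 2)
    (hN : ∀ a b, ¬ (tl σ a = hd σ b ∧ hd σ a = tl σ b))
    (hP : ∀ a b, tl σ a = tl σ b → hd σ a = hd σ b → a = b) :
    ∃ R : Finset A,
      (∀ v, (univ.filter (fun a => (if a ∈ R then hd σ a else tl σ a) = v)).card =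
        (univ.filter (fun a => tl σ a = v)).card) ∧
      ∃ c : Vt σ → Bool, ∀ (n : ℕ) (a : Fin (n + 1) → A),
        (∀ i, (if a i ∈ R then tl σ (a i) else hd σ (a i)) =
          (if a (i + 1) ∈ R then hd σ (a (i + 1)) else tl σ (a (i + 1)))) →
        Function.Injective (fun i => if a i ∈ R then hd σ (a i) else tl σ (a i)) →
        ∃ k l, c (if a k ∈ R then hd σ (a k) else tl σ (a k)) ≠
          c (if a l ∈ R then hd σ (a l) else tl σ (a l)) := by
  have hD := ofMap_dual σ hconn hg
  have hA : Nonempty A := by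
    by_contra hA
    rw [not_nonempty_iff] at hA
    have h1 : IsEmpty (Vt σ) := ⟨fun v => by
      induction v using Quotient.ind with
      | _ d => exact hA.false d.1⟩
    have h2 : IsEmpty (Fc σ) := ⟨fun v => by
      induction v using Quotient.ind with
      | _ d => exact hA.false d.1⟩
    simp at hg
  obtain ⟨a₀⟩ := hA
  have hfin : Finite (Fc σ) := Quotient.finite _
  have : Fintype (Fc σ) := Fintype.ofFinite _
  obtain ⟨R, hRS, hroot, hcirc⟩ := Dg.exists_reor hD (fun φ hφ => conn_f σ hconn φ (fun a => by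
    have := hφ a (mem_univ a)
    exact sub_eq_zero.mp this)) (lf σ a₀)
  refine ⟨R, ?_, ?_⟩
  · intro v
    have h1 := hcirc (fun u => if u = v then 1 else 0)
    have h2 : ∀ a, (ofMap σ).dv (fun u => if u = v then 1 else 0) a =
        (if hd σ a = v then (1 : ℚ) else 0) - (if tl σ a = v then 1 else 0) := fun a => rfl
    have h3 : ((univ.filter (fun a => (if a ∈ R then hd σ a else tl σ a) = v)).card : ℚ) =
        (univ.filter (fun a => tl σ a = v)).card := by
      rw [← Finset.sum_boole, ← Finset.sum_boole]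
      have h4 : ∀ a, (if (if a ∈ R then hd σ a else tl σ a) = v then (1 : ℚ) else 0) =
          (if tl σ a = v then 1 else 0) +
          (if a ∈ R then (ofMap σ).dv (fun u => if u = v then 1 else 0) a else 0) := by
        intro a
        rw [h2]
        by_cases hR : a ∈ R
        · rw [if_pos hR, if_pos hR]; ring
        · rw [if_neg hR, if_neg hR]; ring
      have h5 : univ.filter (fun a => a ∈ R) = R := by
        ext a; simp
      have h6 : ∑ a, (if a ∈ R then (ofMap σ).dv (fun u => if u = v then 1 else 0) a else 0) =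
          0 := by
        rw [← sum_filter, h5, h1]
      rw [sum_congr rfl (fun a _ => h4 a), sum_add_distrib, h6, add_zero]
    exact_mod_cast h3
  · have hN' : ((ofMap σ).rvs R).NoDig := by
      intro x _ y _ hxy
      have h1 : (if x ∈ R then hd σ x else tl σ x) = (if y ∈ R then tl σ y else hd σ y) := hxy.1
      have h2 : (if x ∈ R then tl σ x else hd σ x) = (if y ∈ R then hd σ y else tl σ y) := hxy.2
      by_cases hx : x ∈ R
      · by_cases hy : y ∈ R
        · rw [if_pos hx, if_pos hy] at h1 h2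
          exact hN x y ⟨h2, h1⟩
        · rw [if_pos hx, if_neg hy] at h1 h2
          exact hy (hP x y h2 h1 ▸ hx)
      · by_cases hy : y ∈ R
        · rw [if_neg hx, if_pos hy] at h1 h2
          exact hx (hP x y h1 h2 ▸ hy)
        · rw [if_neg hx, if_neg hy] at h1 h2
          exact hN x y ⟨h1, h2⟩
    obtain ⟨e, he, hes⟩ := hroot.exists_l ⟨a₀, mem_univ a₀⟩
    obtain ⟨c, hc, _⟩ := good_ext (Dg.rvs_dual hD R) hN' he (by rw [hes]; exact hroot) true true
    refine ⟨c, fun n a ha _ => ?_⟩
    exact hc.cyc a (fun i => mem_univ _) ha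

end NLC
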