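import Pool.Agent.NLC.CntB
import Pool.Agent.NLC.CntD

/-!
# NLC / MainPB : there is no minimal counterexample

`no_min`: with `m = TF.card`, `j = WF.card`, `n = VS.card`, `z = #{kk = 0} ≤ j`, `u = #{kk = 1} ≤ m + 1`:
`3 m = ∑ kk ≥ u + 2 (n - z - u) ≥ 2 n - 2 j - (m + 1) ≥ 2 (2 m + j + 1) - 2 j - (m + 1) = 3 m + 1`: contradiction.
(`∑ kk v ≥ ∑ (2 - 2 * [kk v = 0] - [kk v = 1])`.)
`PB_all`: strong induction on `n`: if `D` (with `D.S.card ≤ n`) is a counterexample then `PB` holds for all `k < D.S.card`
(for `k < n` by induction), so `MinC D s α β γ`.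
-/

set_option autoImplicit false

namespace NLC

open Finset Relation
open scoped Classical

variable {V A F : Type}

variable [Infinite V] [Infinite A] [Infinite F]

namespace MinC

variable {D : Dg V A F} {s : F} {α β γ : A}

theorem no_min (h : MinC D s α β γ) : False := by
  have hA := h.cntA
  have hB := h.cntB
  have hC := h.cntD
  have hK := Dg.sum_kk h.nodig
  have h1 : ∑ v ∈ D.VS, 2 ≤ ∑ v ∈ D.VS, (D.kk v + 2 * (if D.kk v = 0 then 1 else 0) +
      (if D.kk v = 1 then 1 else 0)) := by
    refine Finset.sum_le_sum fun v _ => ?_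
    by_cases h0 : D.kk v = 0
    · rw [if_pos h0]; omega
    · by_cases h2 : D.kk v = 1
      · rw [if_pos h2]; omega
      · omega
  rw [Finset.sum_add_distrib, Finset.sum_add_distrib, ← Finset.mul_sum, ← Finset.card_filter,
    ← Finset.card_filter, hK, Finset.sum_const, smul_eq_mul] at h1
  omega

end MinC

theorem PB_all (n : ℕ) : PB V A F n := by
  induction n using Nat.strong_induction_on with
  | _ n IH =>
  intro D s α β γ hc hD hN hR hO
  by_contra hbad
  have hM : MinC D s α β γ := ⟨hD, hN, hR, hO, hbad, fun k hk => IH k (lt_of_lt_of_le hk hc)⟩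
  exact hM.no_min

end NLC
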