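import Pool.Agent.NLC.Sub
import Pool.Agent.NLC.Glue

/-!
# NLC / Part : a minimal counterexample does not split at a vertex

`D.S = X ∪ Y`, `Y = D.S \ X`, both nonempty and smaller than `D.S`; `v₀` is the only possible common vertex.
(1) `α, β, γ` are all in `X` or all in `Y`: any two of them have a common vertex (`h α = t β`, `h β = t γ`, `h γ = t α`)
and these three vertices are distinct (`OutTri.tαβ` ...).  The situation is symmetric in `X, Y`, so let them be
in `X` (prove this case as a separate lemma).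
(2) `sub_ext` (with `n = D.S.card - 1`, `h.ih'`) gives `c₁` on `X` with `c₁ (t β) = c₁ (h β)`.  `Y.card + 3 ≤ D.S.card`
(the three arcs `α, β, γ` are distinct and not in `Y`), so `sub_one` gives `c₂` on `Y` with `c₂ v₀ = c₁ v₀`.
(3) `c v = c₁ v` if `v` is incident with an arc of `X`, else `c₂ v`.  `glueD` with `X₁ = X`, `X₂ = Y` (the
condition `hs` is void, `p = v₀ = q`) shows that `c` is good: contradiction to `h.bad`.
-/

set_option autoImplicit false

namespace NLC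

open Finset Relation
open scoped Classical

variable {V A F : Type}

variable [Infinite V] [Infinite A] [Infinite F]

namespace MinC

variable {D : Dg V A F} {s : F} {α β γ : A}

private theorem Part_aux (h : MinC D s α β γ) {X : Finset A} (hX : X ⊆ D.S)
    (hne' : X ≠ D.S) (hα : α ∈ X) (hβ : β ∈ X) (hγ : γ ∈ X) (v₀ : V)
    (hv : ∀ u, (∃ a ∈ X, D.Inc a u) → (∃ a ∈ D.S \ X, D.Inc a u) → u = v₀) : False := by
  have hlt : X.card < D.S.card := Finset.card_lt_card (Finset.ssubset_iff_subset_ne.mpr ⟨hX, hne'⟩)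
  have h3 : 3 ≤ X.card := by
    have h1 : ({α, β, γ} : Finset A) ⊆ X := by
      intro x hx
      simp only [Finset.mem_insert, Finset.mem_singleton] at hx
      rcases hx with rfl | rfl | rfl <;> assumption
    have h2 : ({α, β, γ} : Finset A).card = 3 := by
      rw [Finset.card_eq_three]
      exact ⟨α, β, γ, h.out.αβ h.nodig, (h.out.γα h.nodig).symm, h.out.βγ h.nodig, rfl⟩
    calc 3 = ({α, β, γ} : Finset A).card := h2.symm
      _ ≤ X.card := Finset.card_le_card h1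
  obtain ⟨c₁, hc₁, hc₁'⟩ := Dg.sub_ext h.dual h.nodig h.rooted h.out h.ih' hX (by omega) hα hβ hγ
  have hYc : (D.S \ X).card + 2 ≤ D.S.card - 1 := by
    have := Finset.card_sdiff_add_card_eq_card hX
    omega
  obtain ⟨c₂, hc₂, hc₂'⟩ := Dg.sub_one h.dual h.nodig h.rooted h.ih' (Finset.sdiff_subset) hYc v₀ (c₁ v₀)
  set c : V → Bool := fun v => if ∃ a ∈ X, D.Inc a v then c₁ v else c₂ v with hc
  have e1 : ∀ v, (∃ a ∈ X, D.Inc a v) → c v = c₁ v := fun v hv' => by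
    rw [hc]; exact if_pos hv'
  have e2 : ∀ v, (∃ a ∈ D.S \ X, D.Inc a v) → c v = c₂ v := by
    intro v hv'
    by_cases h1 : ∃ a ∈ X, D.Inc a v
    · have h2 : v = v₀ := hv v h1 hv'
      rw [e1 v h1, h2, hc₂']
    · rw [hc]; exact if_neg h1
  have hgood := Dg.glueD hc₁ hc₂ e1 e2 (fun p q hpq p1 p2 q1 q2 _ =>
    absurd ((hv p p1 p2).trans (hv q q1 q2).symm) hpq)
  rw [Finset.union_sdiff_of_subset hX] at hgood
  refine h.bad ⟨c, hgood, ?_⟩
  rw [e1 _ ⟨β, hβ, Or.inl rfl⟩, e1 _ ⟨β, hβ, Or.inr rfl⟩]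
  exact hc₁'

theorem part (h : MinC D s α β γ) {X : Finset A} (hX : X ⊆ D.S) (hne : X.Nonempty)
    (hne' : X ≠ D.S) (v₀ : V)
    (hv : ∀ u, (∃ a ∈ X, D.Inc a u) → (∃ a ∈ D.S \ X, D.Inc a u) → u = v₀) : False := by
  have key : ∀ x y : A, x ∈ D.S → y ∈ D.S → D.h x = D.t y → ¬ (x ∈ X ↔ y ∈ X) → D.t y = v₀ := by
    intro x y hx hy hxy hiff
    by_cases h1 : x ∈ X
    · have h2 : y ∉ X := fun h2 => hiff ⟨fun _ => h2, fun _ => h1⟩
      exact hv _ ⟨x, h1, Or.inr hxy⟩ ⟨y, Finset.mem_sdiff.mpr ⟨hy, h2⟩, Or.inl rfl⟩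
    · have h2 : y ∈ X := by
        by_contra h2
        exact hiff ⟨fun h3 => absurd h3 h1, fun h3 => absurd h3 h2⟩
      exact hv _ ⟨y, h2, Or.inl rfl⟩ ⟨x, Finset.mem_sdiff.mpr ⟨hx, h1⟩, Or.inr hxy⟩
  have k1 := key α β h.out.mα h.out.mβ h.out.hα
  have k2 := key β γ h.out.mβ h.out.mγ h.out.hβ
  have k3 := key γ α h.out.mγ h.out.mα h.out.hγ
  have d1 := h.out.tαβ h.nodig
  have d2 := h.out.tβγ h.nodig
  have d3 := h.out.tγα h.nodig
  by_cases a1 : (α ∈ X ↔ β ∈ X)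
  · by_cases a2 : (β ∈ X ↔ γ ∈ X)
    · by_cases hα : α ∈ X
      · exact Part_aux h hX hne' hα (a1.mp hα) (a2.mp (a1.mp hα)) v₀ hv
      · have hβ : β ∉ X := fun h1 => hα (a1.mpr h1)
        have hγ : γ ∉ X := fun h1 => hβ (a2.mpr h1)
        refine Part_aux h (X := D.S \ X) Finset.sdiff_subset ?_
          (Finset.mem_sdiff.mpr ⟨h.out.mα, hα⟩) (Finset.mem_sdiff.mpr ⟨h.out.mβ, hβ⟩)
          (Finset.mem_sdiff.mpr ⟨h.out.mγ, hγ⟩) v₀ ?_
        · intro h1
          obtain ⟨x, hx⟩ := hne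
          have h2 : x ∈ D.S \ X := by rw [h1]; exact hX hx
          exact (Finset.mem_sdiff.mp h2).2 hx
        · intro u hu hu'
          rw [Finset.sdiff_sdiff_eq_self hX] at hu'
          exact hv u hu' hu
    · have a3 : ¬ (γ ∈ X ↔ α ∈ X) := fun h1 => a2 ((a1.symm.trans h1.symm))
      exact d3 ((k2 a2).trans (k3 a3).symm)
  · by_cases a2 : (β ∈ X ↔ γ ∈ X)
    · have a3 : ¬ (γ ∈ X ↔ α ∈ X) := fun h1 => a1 (h1.symm.trans a2.symm)
      exact d1 ((k3 a3).trans (k1 a1).symm)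
    · exact d2 ((k1 a1).trans (k2 a2).symm)

end MinC

end NLC
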