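import Pool.Agent.NLC.Basic

/-!
# NLC / Path : paths, circulations and dead arcs

* `path_circ`: induction on the path; adding the arc `a` adds `1` to the value at `a`
  (`c' = fun x => c x + if x = a then 1 else 0`; `Finset.sum_ite_eq`).
* `df_mono`: induction on the path.
* `cyc_fun`: take `c` from `path_circ` for the path from `h e` to `t e` and add `1` at `e`: this is a
  circulation `≥ 0` with value `≥ 1` at `e`; apply `hD.circ`.
* `dead`: otherwise take `φ` from `cyc_fun`.  By `df_mono` `φ s ≤ φ (l e)` (rooted), but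
  `φ (r e) - φ (l e) ≥ 1` and `r e = s`.
* `good_of_noncyc`: a monochromatic cycle with arcs in `X` which uses an arc `a ∉ Y` gives a path from `h a`
  to `t a` in `D`; if all its arcs are in `Y` it contradicts `hY`.  (Show by induction: from
  `TransGen (D.MS X c) u w` get `TransGen (D.MS Y c) u w` or an arc `a ∈ X \ Y` with
  `ReflTransGen D.VStep u (D.t a)` and `ReflTransGen D.VStep (D.h a) w`.)
-/

set_option autoImplicit false

namespace NLC

open Finset Relation
open scoped Classical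

variable {V A F : Type}

namespace Dg

variable {D : Dg V A F}

theorem path_circ {u v : V} (h : ReflTransGen D.VStep u v) :
    ∃ c : A → ℚ, (∀ a, 0 ≤ c a) ∧ ∀ ψ : V → ℚ, ∑ a ∈ D.S, c a * D.dv ψ a = ψ v - ψ u := by
  induction h with
  | refl => exact ⟨fun _ => 0, fun _ => le_rfl, fun ψ => by simp⟩
  | tail _ hst ih =>
    obtain ⟨c, hc0, hc⟩ := ih
    obtain ⟨a, ha, h1, h2⟩ := hst
    refine ⟨fun x => c x + if x = a then 1 else 0, fun x => ?_, fun ψ => ?_⟩
    · refine add_nonneg (hc0 x) ?_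
      split_ifs
      · exact zero_le_one
      · exact le_rfl
    · have h3 : ∑ x ∈ D.S, (c x + if x = a then 1 else 0) * D.dv ψ x =
          ∑ x ∈ D.S, c x * D.dv ψ x + ∑ x ∈ D.S, (if x = a then D.dv ψ x else 0) := by
        rw [← sum_add_distrib]
        refine sum_congr rfl fun x _ => ?_
        split_ifs
        · ring
        · ring
      rw [h3, hc ψ, Finset.sum_ite_eq' D.S a (fun x => D.dv ψ x), if_pos ha]
      unfold dv
      rw [h1, h2]
      ring

theorem df_mono {φ : F → ℚ} (hφ : ∀ a ∈ D.S, 0 ≤ D.df φ a) {f g : F}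
    (h : ReflTransGen D.FStep f g) : φ f ≤ φ g := by
  induction h with
  | refl => exact le_rfl
  | tail _ hst ih =>
    obtain ⟨a, ha, h1, h2⟩ := hst
    have h3 := hφ a ha
    unfold df at h3
    rw [h1, h2] at h3
    linarith

theorem cyc_fun (hD : D.Dual) {e : A} (he : e ∈ D.S) (h : ReflTransGen D.VStep (D.h e) (D.t e)) :
    ∃ φ : F → ℚ, (∀ a ∈ D.S, 0 ≤ D.df φ a) ∧ 1 ≤ D.df φ e := by
  obtain ⟨c, hc0, hc⟩ := path_circ h
  obtain ⟨φ, hφ⟩ := hD.circ (fun x => c x + if x = e then 1 else 0) (fun ψ => by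
    have h3 : ∑ x ∈ D.S, (c x + if x = e then 1 else 0) * D.dv ψ x =
        ∑ x ∈ D.S, c x * D.dv ψ x + ∑ x ∈ D.S, (if x = e then D.dv ψ x else 0) := by
      rw [← sum_add_distrib]
      refine sum_congr rfl fun x _ => ?_
      split_ifs
      · ring
      · ring
    rw [h3, hc ψ, Finset.sum_ite_eq' D.S e (fun x => D.dv ψ x), if_pos he]
    unfold dv
    ring)
  refine ⟨φ, fun a ha => ?_, ?_⟩
  · rw [← hφ a ha]
    refine add_nonneg (hc0 a) ?_
    split_ifs
    · exact zero_le_one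
    · exact le_rfl
  · rw [← hφ e he, if_pos rfl]
    have := hc0 e
    linarith

theorem dead (hD : D.Dual) {s : F} (hs : D.Rooted s) {e : A} (he : e ∈ D.S) (hr : D.r e = s) :
    ¬ ReflTransGen D.VStep (D.h e) (D.t e) := by
  intro h
  obtain ⟨φ, hφ, h1⟩ := cyc_fun hD he h
  have h2 := df_mono hφ (hs e he)
  unfold df at h1
  rw [hr] at h1
  linarith

private theorem Path_aux {X Y : Finset A} (hX : X ⊆ D.S) {c : V → Bool} {u w : V}
    (h : TransGen (D.MS X c) u w) : TransGen (D.MS Y c) u w ∨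
      ∃ a ∈ X, a ∉ Y ∧ ReflTransGen D.VStep u (D.t a) ∧ ReflTransGen D.VStep (D.h a) w := by
  have hV : ∀ x y, D.MS X c x y → D.VStep x y := by
    rintro x y ⟨a, ha, h1, h2, -⟩
    exact ⟨a, hX ha, h1, h2⟩
  induction h with
  | single hst =>
    obtain ⟨a, ha, h1, h2, h3⟩ := hst
    by_cases haY : a ∈ Y
    · exact Or.inl (TransGen.single ⟨a, haY, h1, h2, h3⟩)
    · exact Or.inr ⟨a, ha, haY, by rw [h1], by rw [h2]⟩
  | tail hr hst ih =>
    have hst' := hst
    obtain ⟨a, ha, h1, h2, h3⟩ := hst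
    rcases ih with ih | ⟨b, hb, hbY, h4, h5⟩
    · by_cases haY : a ∈ Y
      · exact Or.inl (ih.tail ⟨a, haY, h1, h2, h3⟩)
      · refine Or.inr ⟨a, ha, haY, ?_, by rw [h2]⟩
        rw [h1]
        exact (TransGen.mono hV _ _ hr).to_reflTransGen
    · exact Or.inr ⟨b, hb, hbY, h4, h5.tail (hV _ _ hst')⟩

theorem good_of_noncyc {X Y : Finset A} (hX : X ⊆ D.S) {c : V → Bool} (hY : D.GoodOn Y c)
    (h : ∀ a ∈ X, a ∈ Y ∨ ¬ ReflTransGen D.VStep (D.h a) (D.t a)) : D.GoodOn X c := by
  intro v hv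
  rcases Path_aux (Y := Y) hX hv with h1 | ⟨a, ha, haY, h1, h2⟩
  · exact hY v h1
  · rcases h a ha with h3 | h3
    · exact haY h3
    · exact h3 (h2.trans h1)

end Dg

end NLC
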