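import Pool.Agent.NLC.Basic

/-!
# NLC / Reor : every orientation can be changed, keeping the outdegrees, to a rooted one
-/

set_option autoImplicit false

namespace NLC

open Finset Relation
open scoped Classical

variable {V A F : Type}

namespace Dg

/-- reverse the arcs in `R` -/
noncomputable def rvs (D : Dg V A F) (R : Finset A) : Dg V A F where
  S := D.S
  t := fun a => if a ∈ R then D.h a else D.t a
  h := fun a => if a ∈ R then D.t a else D.h a
  l := fun a => if a ∈ R then D.r a else D.l a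
  r := fun a => if a ∈ R then D.l a else D.r a

variable {D : Dg V A F}

/-- sign of an arc -/
noncomputable def Reor_sg (R : Finset A) (a : A) : ℚ := if a ∈ R then -1 else 1

theorem Reor_sq (R : Finset A) (a : A) : Reor_sg R a * Reor_sg R a = 1 := by
  unfold Reor_sg; split_ifs <;> norm_num

theorem rvs_dv (R : Finset A) (ψ : V → ℚ) (a : A) : (D.rvs R).dv ψ a = Reor_sg R a * D.dv ψ a := by
  unfold dv rvs Reor_sg
  dsimp only
  split_ifs <;> ring

theorem rvs_df (R : Finset A) (φ : F → ℚ) (a : A) : (D.rvs R).df φ a = Reor_sg R a * D.df φ a := by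
  unfold df rvs Reor_sg
  dsimp only
  split_ifs <;> ring

theorem rvs_dual (hD : D.Dual) (R : Finset A) : (D.rvs R).Dual where
  ortho := fun ψ φ => by
    rw [← hD.ortho ψ φ]
    refine sum_congr rfl fun a _ => ?_
    rw [rvs_dv, rvs_df]
    linear_combination (D.dv ψ a * D.df φ a) * Reor_sq R a
  circ := fun c hc => by
    obtain ⟨φ, hφ⟩ := hD.circ (fun a => Reor_sg R a * c a) (fun ψ => by
      rw [← hc ψ]
      refine sum_congr rfl fun a _ => ?_
      rw [rvs_dv]; ring)
    refine ⟨φ, fun a ha => ?_⟩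
    rw [rvs_df, ← hφ a ha]
    linear_combination (- c a) * Reor_sq R a
  cut := fun z hz => by
    obtain ⟨ψ, hψ⟩ := hD.cut (fun a => Reor_sg R a * z a) (fun φ => by
      rw [← hz φ]
      refine sum_congr rfl fun a _ => ?_
      rw [rvs_df]; ring)
    refine ⟨ψ, fun a ha => ?_⟩
    rw [rvs_dv, ← hψ a ha]
    linear_combination (- z a) * Reor_sq R a

/-- `R` is the support of a `0/1` circulation with potential `φ`. -/
structure Reor_P (D : Dg V A F) (s : F) (R : Finset A) (φ : F → ℚ) : Prop where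
  sub : R ⊆ D.S
  zero : φ s = 0
  pot : ∀ a ∈ D.S, (if a ∈ R then (1 : ℚ) else 0) = D.df φ a

theorem Reor_flip {s : F} {R : Finset A} {φ : F → ℚ} (h : Reor_P D s R φ)
    {U : F → Prop} (hs : ¬ U s)
    (hU : ∀ a ∈ D.S, ¬ U ((D.rvs R).l a) → ¬ U ((D.rvs R).r a)) :
    Reor_P D s (D.S.filter (fun a => (a ∈ R ↔ (U (D.l a) ↔ U (D.r a)))))
      (fun f => φ f - if U f then 1 else 0) where
  sub := filter_subset _ _
  zero := by rw [if_neg hs, h.zero]; norm_num
  pot := fun a ha => by
    have h1 := h.pot a ha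
    have h2 := hU a ha
    unfold rvs at h2
    dsimp only at h2
    have h3 : (a ∈ D.S.filter (fun a => (a ∈ R ↔ (U (D.l a) ↔ U (D.r a))))) ↔
        (a ∈ R ↔ (U (D.l a) ↔ U (D.r a))) := by
      rw [mem_filter]
      exact ⟨fun h => h.2, fun h => ⟨ha, h⟩⟩
    unfold df at h1 ⊢
    dsimp only
    by_cases hR : a ∈ R
    · rw [if_pos hR] at h1
      rw [if_pos hR, if_pos hR] at h2
      by_cases hl : U (D.l a)
      · by_cases hr : U (D.r a)
        · rw [if_pos hl, if_pos hr, if_pos (h3.mpr (by simp [hR, hl, hr]))]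
          linarith
        · exact absurd hl (h2 hr)
      · by_cases hr : U (D.r a)
        · rw [if_neg hl, if_pos hr, if_neg (fun hh => by
            have := h3.mp hh
            simp [hR, hl, hr] at this)]
          linarith
        · rw [if_neg hl, if_neg hr, if_pos (h3.mpr (by simp [hR, hl, hr]))]
          linarith
    · rw [if_neg hR] at h1
      rw [if_neg hR, if_neg hR] at h2
      by_cases hl : U (D.l a)
      · by_cases hr : U (D.r a)
        · rw [if_pos hl, if_pos hr, if_neg (fun hh => by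
            have := h3.mp hh
            simp [hR, hl, hr] at this)]
          linarith
        · rw [if_pos hl, if_neg hr, if_pos (h3.mpr (by simp [hR, hl, hr]))]
          linarith
      · by_cases hr : U (D.r a)
        · exact absurd hr (h2 hl)
        · rw [if_neg hl, if_neg hr, if_neg (fun hh => by
            have := h3.mp hh
            simp [hR, hl, hr] at this)]
          linarith

theorem exists_reor [Fintype F] (hD : D.Dual)
    (hF : ∀ φ : F → ℚ, (∀ a ∈ D.S, D.df φ a = 0) → ∀ f g, φ f = φ g) (s : F) :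
    ∃ R ⊆ D.S, (D.rvs R).Rooted s ∧ ∀ ψ : V → ℚ, ∑ a ∈ R, D.dv ψ a = 0 := by
  -- all good sets `R`
  let G : Finset (Finset A) := D.S.powerset.filter (fun R => ∃ φ, Reor_P D s R φ)
  have hG0 : (∅ : Finset A) ∈ G := by
    rw [mem_filter]
    refine ⟨mem_powerset.mpr (empty_subset _), fun _ => 0, empty_subset _, rfl, fun a _ => ?_⟩
    unfold df
    simp
  have hch : ∀ R ∈ G, ∃ φ, Reor_P D s R φ := fun R hR => (mem_filter.mp hR).2
  choose! Φ hΦ using hch
  obtain ⟨R, hR, hmin⟩ := Finset.exists_min_image G (fun R => ∑ f, Φ R f) ⟨∅, hG0⟩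
  have hP := hΦ R hR
  refine ⟨R, hP.sub, ?_, ?_⟩
  · by_contra hcon
    unfold Rooted at hcon
    push Not at hcon
    obtain ⟨a₀, _, ha₀⟩ := hcon
    obtain ⟨U, hUd⟩ : ∃ U : F → Prop, ∀ f, U f ↔ ¬ ReflTransGen (D.rvs R).FStep s f :=
      ⟨_, fun f => Iff.rfl⟩
    have hUs : ¬ U s := fun h => (hUd s).mp h ReflTransGen.refl
    have hU : ∀ a ∈ D.S, ¬ U ((D.rvs R).l a) → ¬ U ((D.rvs R).r a) := by
      intro a ha h1 h2
      have h3 : ReflTransGen (D.rvs R).FStep s ((D.rvs R).l a) := by
        by_contra h4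
        exact h1 ((hUd _).mpr h4)
      exact (hUd _).mp h2 (h3.tail ⟨a, ha, rfl, rfl⟩)
    obtain ⟨R', hQ⟩ : ∃ R', Reor_P D s R' (fun f => Φ R f - if U f then 1 else 0) :=
      ⟨_, Reor_flip hP hUs hU⟩
    have hR'G : R' ∈ G := mem_filter.mpr ⟨mem_powerset.mpr hQ.sub, _, hQ⟩
    have hP' := hΦ R' hR'G
    have heq : ∀ f, Φ R' f = Φ R f - if U f then 1 else 0 := by
      have h1 := hF (fun f => Φ R' f - (Φ R f - if U f then 1 else 0)) (fun a ha => by
        have h2 := hP'.pot a ha
        have h3 := hQ.pot a ha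
        unfold df at h2 h3 ⊢
        dsimp only at h2 h3 ⊢
        linarith)
      intro f
      have h2 := h1 f s
      have h3 := hP'.zero
      have h4 := hQ.zero
      rw [h3, h4] at h2
      linarith
    have h1 := hmin R' hR'G
    have h2 : ∑ f, Φ R' f = ∑ f, Φ R f - ∑ f, (if U f then (1 : ℚ) else 0) := by
      rw [← sum_sub_distrib]
      exact sum_congr rfl fun f _ => heq f
    have h3 : (0 : ℚ) < ∑ f, (if U f then (1 : ℚ) else 0) := by
      apply Finset.sum_pos' (fun f _ => by split_ifs <;> norm_num)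
      refine ⟨(D.rvs R).l a₀, mem_univ _, ?_⟩
      rw [if_pos ((hUd _).mpr ha₀)]
      norm_num
    linarith
  · intro ψ
    have h1 := hD.ortho ψ (Φ R)
    rw [← h1]
    have h2 : ∑ a ∈ D.S, D.dv ψ a * D.df (Φ R) a = ∑ a ∈ D.S, if a ∈ R then D.dv ψ a else 0 := by
      refine sum_congr rfl fun a ha => ?_
      rw [← hP.pot a ha]
      split_ifs <;> ring
    rw [h2, ← sum_filter]
    congr 1
    ext a
    rw [mem_filter]
    exact ⟨fun h => ⟨hP.sub h, h⟩, fun h => h.2⟩

end Dg

end NLC
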