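import Pool.Agent.NLC.Path

/-!
# NLC / Rev : reversing a dead arc

`D' = D.rv e` differs from `D` only at `e`: `t' e = h e`, `h' e = t e`, `l' e = r e`, `r' e = l e`.
* dual: `dv' ψ e = - dv ψ e`, `df' φ e = - df φ e`; so `dv' ψ a * df' φ a = dv ψ a * df φ a` for all `a`.  For `circ`
  (and `cut`) change the sign of `c e` (`z e`).
* rooted: `r e = s`, so a path from `s` in `D` which uses `e` can be restarted at `s` (induction on
  `ReflTransGen`); and `l' e = s`.
* simp: an arc parallel to the reversed `e` would be antiparallel to `e` and vice versa.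
* good: `D.MS (X.erase e) c u v → (D.rv e).MS X c u v`, so `D.GoodOn (X.erase e) c`; then
  `good_of_noncyc` (with `Y = X.erase e`) and `dead`.
-/

set_option autoImplicit false

namespace NLC

open Finset Relation
open scoped Classical

variable {V A F : Type}

namespace Dg

variable {D : Dg V A F}

private theorem Rev_ne {e a : A} (h : a ≠ e) : (D.rv e).t a = D.t a ∧ (D.rv e).h a = D.h a ∧
    (D.rv e).l a = D.l a ∧ (D.rv e).r a = D.r a :=
  ⟨Function.update_of_ne h _ _, Function.update_of_ne h _ _, Function.update_of_ne h _ _,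
    Function.update_of_ne h _ _⟩

private theorem Rev_self (e : A) : (D.rv e).t e = D.h e ∧ (D.rv e).h e = D.t e ∧
    (D.rv e).l e = D.r e ∧ (D.rv e).r e = D.l e := by
  refine ⟨?_, ?_, ?_, ?_⟩
  · change Function.update D.t e (D.h e) e = D.h e
    rw [Function.update_self]
  · change Function.update D.h e (D.t e) e = D.t e
    rw [Function.update_self]
  · change Function.update D.l e (D.r e) e = D.r e
    rw [Function.update_self]
  · change Function.update D.r e (D.l e) e = D.l e
    rw [Function.update_self]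

private theorem Rev_dv (e a : A) (ψ : V → ℚ) :
    (D.rv e).dv ψ a = (if a = e then -1 else 1) * D.dv ψ a := by
  unfold dv
  by_cases h : a = e
  · subst h
    obtain ⟨h1, h2, -, -⟩ := Rev_self (D := D) a
    rw [h1, h2, if_pos rfl]
    ring
  · obtain ⟨h1, h2, -, -⟩ := Rev_ne (D := D) h
    rw [h1, h2, if_neg h]
    ring

private theorem Rev_df (e a : A) (φ : F → ℚ) :
    (D.rv e).df φ a = (if a = e then -1 else 1) * D.df φ a := by
  unfold df
  by_cases h : a = e
  · subst h
    obtain ⟨-, -, h1, h2⟩ := Rev_self (D := D) a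
    rw [h1, h2, if_pos rfl]
    ring
  · obtain ⟨-, -, h1, h2⟩ := Rev_ne (D := D) h
    rw [h1, h2, if_neg h]
    ring

private theorem Rev_sq (e a : A) :
    (if a = e then (-1 : ℚ) else 1) * (if a = e then (-1 : ℚ) else 1) = 1 := by
  split_ifs <;> norm_num

theorem rv_dual (hD : D.Dual) (e : A) : (D.rv e).Dual where
  ortho := fun ψ φ => by
    rw [← hD.ortho ψ φ]
    refine sum_congr rfl fun a _ => ?_
    rw [Rev_dv, Rev_df]
    linear_combination (D.dv ψ a * D.df φ a) * Rev_sq e a
  circ := fun c hc => by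
    obtain ⟨φ, hφ⟩ := hD.circ (fun a => (if a = e then (-1 : ℚ) else 1) * c a) (fun ψ => by
      rw [← hc ψ]
      refine sum_congr rfl fun a _ => ?_
      rw [Rev_dv]
      ring)
    refine ⟨φ, fun a ha => ?_⟩
    rw [Rev_df, ← hφ a ha]
    linear_combination (-c a) * Rev_sq e a
  cut := fun z hz => by
    obtain ⟨ψ, hψ⟩ := hD.cut (fun a => (if a = e then (-1 : ℚ) else 1) * z a) (fun φ => by
      rw [← hz φ]
      refine sum_congr rfl fun a _ => ?_
      rw [Rev_df]
      ring)
    refine ⟨ψ, fun a ha => ?_⟩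
    rw [Rev_dv, ← hψ a ha]
    linear_combination (-z a) * Rev_sq e a

theorem rv_rooted {s : F} (hs : D.Rooted s) {e : A} (hr : D.r e = s) : (D.rv e).Rooted s := by
  have claim : ∀ f, ReflTransGen D.FStep s f → ReflTransGen (D.rv e).FStep s f := by
    intro f hf
    induction hf with
    | refl => exact ReflTransGen.refl
    | tail _ hst ih =>
      obtain ⟨a, ha, h1, h2⟩ := hst
      by_cases hae : a = e
      · rw [← h2, hae, hr]
      · obtain ⟨-, -, h3, h4⟩ := Rev_ne (D := D) hae
        exact ih.tail ⟨a, ha, by rw [h3, h1], by rw [h4, h2]⟩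
  intro a ha
  by_cases hae : a = e
  · rw [hae, (Rev_self (D := D) e).2.2.1, hr]
  · rw [(Rev_ne (D := D) hae).2.2.1]
    exact claim _ (hs a ha)

theorem rv_simp (hS : D.Simp) {e : A} (he : e ∈ D.S) : (D.rv e).Simp := by
  obtain ⟨s1, s2, -, -⟩ := Rev_self (D := D) e
  refine ⟨fun a ha b hb h => ?_, fun a ha b hb h1 h2 => ?_⟩
  · obtain ⟨h1, h2⟩ := h
    by_cases hae : a = e
    · subst hae
      by_cases hbe : b = a
      · subst hbe
        rw [s1, s2] at h1
        exact hS.nodig.loop he h1.symm
      · obtain ⟨t1, t2, -, -⟩ := Rev_ne (D := D) hbe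
        rw [s1, t2] at h1
        rw [s2, t1] at h2
        exact hbe (hS.par b hb a he h2.symm h1.symm)
    · obtain ⟨u1, u2, -, -⟩ := Rev_ne (D := D) hae
      by_cases hbe : b = e
      · subst hbe
        rw [u1, s2] at h1
        rw [u2, s1] at h2
        exact hae (hS.par a ha b he h1 h2)
      · obtain ⟨t1, t2, -, -⟩ := Rev_ne (D := D) hbe
        rw [u1, t2] at h1
        rw [u2, t1] at h2
        exact hS.nodig a ha b hb ⟨h1, h2⟩
  · by_cases hae : a = e
    · subst hae
      by_cases hbe : b = a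
      · exact hbe.symm
      · obtain ⟨t1, t2, -, -⟩ := Rev_ne (D := D) hbe
        rw [s1, t1] at h1
        rw [s2, t2] at h2
        exact absurd ⟨h2, h1⟩ (hS.nodig a he b hb)
    · obtain ⟨u1, u2, -, -⟩ := Rev_ne (D := D) hae
      by_cases hbe : b = e
      · subst hbe
        rw [u1, s1] at h1
        rw [u2, s2] at h2
        exact absurd ⟨h1, h2⟩ (hS.nodig a ha b he)
      · obtain ⟨t1, t2, -, -⟩ := Rev_ne (D := D) hbe
        rw [u1, t1] at h1
        rw [u2, t2] at h2
        exact hS.par a ha b hb h1 h2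

theorem rv_good (hD : D.Dual) {s : F} (hs : D.Rooted s) {e : A} (he : e ∈ D.S) (hr : D.r e = s)
    {X : Finset A} (hX : X ⊆ D.S) {c : V → Bool} (hc : (D.rv e).GoodOn X c) : D.GoodOn X c := by
  refine good_of_noncyc (Y := X.erase e) hX ?_ fun a ha => ?_
  · intro v hv
    refine hc v (TransGen.mono ?_ v v hv)
    rintro u w ⟨a, ha, h1, h2, h3⟩
    obtain ⟨hae, haX⟩ := mem_erase.1 ha
    obtain ⟨t1, t2, -, -⟩ := Rev_ne (D := D) hae
    exact ⟨a, haX, by rw [t1, h1], by rw [t2, h2], h3⟩
  · by_cases hae : a = e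
    · right
      rw [hae]
      exact dead hD hs he hr
    · exact Or.inl (mem_erase.2 ⟨hae, ha⟩)

end Dg

end NLC
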