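import Pool.Agent.NLC.Part

/-!
# NLC / Star : the star of a vertex is a minimal dual circulation

`star`: `h.dual.cut z hz` gives `ψ` with `z a = ψ (h a) - ψ (t a)` on `D.S`.  Suppose `a₂ ∈ D.S`, `D.Inc a₂ v`,
`z a₂ = 0`.  Let `X = {a ∈ D.S | ψ (t a) = ψ v ∧ ψ (h a) = ψ v}`.  `a₂ ∈ X`; the `a₁ ∈ D.S` with `z a₁ ≠ 0` is not
in `X`.  Let `u` be incident with `a ∈ X` and `b ∈ D.S \ X`: then `ψ u = ψ v`; the other end `w` of `b` has
`ψ w ≠ ψ v`, so `z b ≠ 0`, so `b` is incident with `v`, and `w ≠ v`, so `u = v`.  So `MinC.part` applies with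
`v₀ = v`.

`sep`: let `φ : F → ℚ`, `φ' f = if Y f then φ f else 0`, and
`z a = if Y (l a) then D.dv 1_v a else 0`, where `1_v = fun u => if u = v then 1 else 0`.  For `a` not incident
with `v`: `dv 1_v a = 0`.  For `a` incident with `v`: `df φ' a = if Y (l a) then df φ a else 0` by `hv`.  So
`∑ z a * df φ a = ∑ dv 1_v a * df φ' a = 0` (`ortho`).  `z a ≠ 0` for the arc `a` (`dv 1_v a = ± 1`, no loops), so
by `star` `z b ≠ 0`: contradiction.
-/

set_option autoImplicit false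

namespace NLC

open Finset Relation
open scoped Classical

variable {V A F : Type}

variable [Infinite V] [Infinite A] [Infinite F]

namespace MinC

variable {D : Dg V A F} {s : F} {α β γ : A}

theorem star (h : MinC D s α β γ) (v : V) {z : A → ℚ}
    (hz : ∀ φ : F → ℚ, ∑ a ∈ D.S, z a * D.df φ a = 0)
    (hsup : ∀ a ∈ D.S, z a ≠ 0 → D.Inc a v) (h1 : ∃ a ∈ D.S, z a ≠ 0) :
    ∀ a ∈ D.S, D.Inc a v → z a ≠ 0 := by
  intro a₂ ha₂ hinc hz0
  obtain ⟨ψ, hψ⟩ := h.dual.cut z hz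
  obtain ⟨a₁, ha₁, hz1⟩ := h1
  have hψ' : ∀ a ∈ D.S, z a = ψ (D.h a) - ψ (D.t a) := hψ
  refine h.part (X := D.S.filter (fun a => ψ (D.t a) = ψ v ∧ ψ (D.h a) = ψ v))
    (Finset.filter_subset _ _) ⟨a₂, ?_⟩ ?_ v ?_
  · rw [Finset.mem_filter]
    refine ⟨ha₂, ?_⟩
    have h2 := hψ' a₂ ha₂
    rw [hz0] at h2
    have h3 : ψ (D.h a₂) = ψ (D.t a₂) := by linarith
    rcases hinc with h4 | h4
    · rw [h3, h4]; exact ⟨rfl, rfl⟩
    · rw [← h3, h4]; exact ⟨rfl, rfl⟩
  · intro h2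
    have h3 : a₁ ∈ D.S.filter (fun a => ψ (D.t a) = ψ v ∧ ψ (D.h a) = ψ v) := by rw [h2]; exact ha₁
    rw [Finset.mem_filter] at h3
    apply hz1
    rw [hψ' a₁ ha₁, h3.2.1, h3.2.2, sub_self]
  · rintro u ⟨a, ha, hau⟩ ⟨b, hb, hbu⟩
    rw [Finset.mem_filter] at ha
    rw [Finset.mem_sdiff, Finset.mem_filter] at hb
    obtain ⟨hbS, hbX⟩ := hb
    have hu : ψ u = ψ v := by
      rcases hau with h4 | h4
      · rw [← h4]; exact ha.2.1
      · rw [← h4]; exact ha.2.2
    have hzb : z b ≠ 0 := by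
      intro h5
      rw [hψ' b hbS] at h5
      have h6 : ψ (D.h b) = ψ (D.t b) := by linarith
      apply hbX
      refine ⟨hbS, ?_⟩
      rcases hbu with h7 | h7
      · rw [h6, h7, hu]; exact ⟨rfl, rfl⟩
      · rw [← h6, h7, hu]; exact ⟨rfl, rfl⟩
    have hzb' := hzb
    rw [hψ' b hbS] at hzb'
    rcases hbu with h7 | h7
    · rcases hsup b hbS hzb with h8 | h8
      · rw [← h7, h8]
      · exfalso
        apply hzb'
        rw [h8, h7, hu, sub_self]
    · rcases hsup b hbS hzb with h8 | h8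
      · exfalso
        apply hzb'
        rw [h8, h7, hu, sub_self]
      · rw [← h7, h8]

theorem sep (h : MinC D s α β γ) (Y : F → Prop) (v : V)
    (hv : ∀ a ∈ D.S, D.Inc a v → (Y (D.l a) ↔ Y (D.r a))) {a b : A} (ha : a ∈ D.S)
    (hb : b ∈ D.S) (hav : D.Inc a v) (hbv : D.Inc b v) (hYa : Y (D.l a)) (hYb : ¬ Y (D.l b)) :
    False := by
  set o : V → ℚ := fun u => if u = v then 1 else 0 with ho
  set z : A → ℚ := fun x => if Y (D.l x) then D.dv o x else 0 with hz
  have hdv0 : ∀ x, ¬ D.Inc x v → D.dv o x = 0 := by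
    intro x hx
    have h1 : D.t x ≠ v := fun h2 => hx (Or.inl h2)
    have h2 : D.h x ≠ v := fun h2 => hx (Or.inr h2)
    unfold Dg.dv
    rw [ho]
    simp only [if_neg h1, if_neg h2, sub_self]
  refine h.star v (z := z) ?_ ?_ ⟨a, ha, ?_⟩ b hb hbv ?_
  · intro φ
    set φ' : F → ℚ := fun f => if Y f then φ f else 0 with hφ'
    rw [← h.dual.ortho o φ']
    refine Finset.sum_congr rfl fun x hx => ?_
    by_cases h1 : D.Inc x v
    · have h2 := hv x hx h1
      rw [hz]
      unfold Dg.df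
      rw [hφ']
      by_cases h3 : Y (D.l x)
      · have h4 := h2.mp h3
        simp only [if_pos h3, if_pos h4]
      · have h4 : ¬ Y (D.r x) := fun h5 => h3 (h2.mpr h5)
        simp only [if_neg h3, if_neg h4, zero_mul, sub_self, mul_zero]
    · have h2 := hdv0 x h1
      rw [hz]
      simp only [h2, ite_self, zero_mul]
  · intro x _ hx
    by_contra h1
    apply hx
    rw [hz]
    simp only [hdv0 x h1, ite_self]
  · rw [hz]
    simp only [if_pos hYa]
    have hne := h.nodig.loop ha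
    unfold Dg.dv
    rw [ho]
    rcases hav with h1 | h1
    · have h2 : D.h a ≠ v := fun h3 => hne (h1.trans h3.symm)
      simp only [if_pos h1, if_neg h2]
      norm_num
    · have h2 : D.t a ≠ v := fun h3 => hne (h3.trans h1.symm)
      simp only [if_pos h1, if_neg h2]
      norm_num
  · rw [hz]
    simp only [if_neg hYb]

end MinC

end NLC
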