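import Pool.Agent.NLC.DelSet
import Pool.Agent.NLC.ColOne

/-!
# NLC / Sub : colourings of subdigraphs

Take `D'`, `m` from `exists_del hD (D.S \ X)`; then `D'.S = X` (as `X ⊆ D.S`) and `D'.t = D.t`, `D'.h = D.h`, so
`D'.GoodOn X c ↔ D.GoodOn X c` (`goodOn_congr`) and `D'.NoDig`.
* `sub_ext`: the outer face `s` is not incident with the deleted arcs (`ho.only`, `ho.nor`), so `m s = s` and
  `m g = s → g = s`; so `D'.OutTri s α β γ` and `D'.Rooted s`.  Apply `hn`.
* `sub_arc`: `D'.Rooted (m (D.l e))` and `m (D.l e) = D'.l e`.  Apply `col_arc`.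
* `sub_one`: `col_one`.
-/

set_option autoImplicit false

namespace NLC

open Finset Relation
open scoped Classical

variable {V A F : Type}

variable [Infinite V] [Infinite A] [Infinite F]

namespace Dg

variable {D : Dg V A F}

private theorem Sub_good {D' : Dg V A F} {X : Finset A} {m : F → F} (hX : X ⊆ D.S)
    (H : D.IsDel D' (D.S \ X) m) : D'.S = X ∧ (∀ c : V → Bool, D'.Good c → D.GoodOn X c) ∧
      (D.NoDig → D'.NoDig) := by
  have hS : D'.S = X := by
    rw [H.S, Finset.sdiff_sdiff_eq_self hX]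
  refine ⟨hS, fun c hc => ?_, fun hN a ha b hb => ?_⟩
  · unfold Good at hc
    rw [hS] at hc
    exact (goodOn_congr H.t H.h X c).1 hc
  · rw [H.t, H.h]
    rw [hS] at ha hb
    exact hN a (hX ha) b (hX hb)

theorem sub_ext (hD : D.Dual) (hN : D.NoDig) {s : F} (hs : D.Rooted s) {α β γ : A}
    (ho : D.OutTri s α β γ) {n : ℕ} (hn : PB V A F n) {X : Finset A} (hX : X ⊆ D.S)
    (hc : X.card ≤ n) (hα : α ∈ X) (hβ : β ∈ X) (hγ : γ ∈ X) :
    ∃ c : V → Bool, D.GoodOn X c ∧ c (D.t β) = c (D.h β) := by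
  obtain ⟨D', m, H⟩ := exists_del hD (D.S \ X)
  obtain ⟨hS, hg, hnd⟩ := Sub_good hX H
  obtain ⟨f1, f2⟩ := H.fix s (by
    intro x hx hxS
    refine ⟨fun hl => ?_, ho.nor x hxS⟩
    have hxX := (mem_sdiff.1 hx).2
    rcases ho.only x hxS hl with h | h | h
    · exact hxX (h ▸ hα)
    · exact hxX (h ▸ hβ)
    · exact hxX (h ▸ hγ))
  have hout : D'.OutTri s α β γ :=
    { mα := by rw [hS]; exact hα
      mβ := by rw [hS]; exact hβ
      mγ := by rw [hS]; exact hγ
      hα := by rw [H.h, H.t]; exact ho.hα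
      hβ := by rw [H.h, H.t]; exact ho.hβ
      hγ := by rw [H.h, H.t]; exact ho.hγ
      lα := by rw [H.l, ho.lα]; exact f1
      lβ := by rw [H.l, ho.lβ]; exact f1
      lγ := by rw [H.l, ho.lγ]; exact f1
      only := fun x hx hl => by
        rw [hS] at hx
        rw [H.l] at hl
        exact ho.only x (hX hx) (f2 _ hl)
      nor := fun x hx hr => by
        rw [hS] at hx
        rw [H.r] at hr
        exact ho.nor x (hX hx) (f2 _ hr) }
  have hroot := H.root s hs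
  rw [f1] at hroot
  obtain ⟨c, h1, h2⟩ := hn D' s α β γ (by rw [hS]; exact hc) H.dual (hnd hN) hroot hout
  rw [H.t, H.h] at h2
  exact ⟨c, hg c h1, h2⟩

theorem sub_arc (hD : D.Dual) (hN : D.NoDig) {e : A} (hs : D.Rooted (D.l e)) {n : ℕ}
    (hn : PB V A F n) {X : Finset A} (hX : X ⊆ D.S) (hc : X.card + 2 ≤ n) (he : e ∈ X)
    (i j : Bool) : ∃ c : V → Bool, D.GoodOn X c ∧ c (D.t e) = i ∧ c (D.h e) = j := by
  obtain ⟨D', m, H⟩ := exists_del hD (D.S \ X)
  obtain ⟨hS, hg, hnd⟩ := Sub_good hX H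
  have hroot := H.root _ hs
  rw [← H.l e] at hroot
  obtain ⟨c, h1, h2, h3⟩ := col_arc hn D' (by rw [hS]; exact hc) H.dual (hnd hN)
    (e := e) (by rw [hS]; exact he) hroot i j
  rw [H.t] at h2
  rw [H.h] at h3
  exact ⟨c, hg c h1, h2, h3⟩

theorem sub_one (hD : D.Dual) (hN : D.NoDig) {s : F} (hs : D.Rooted s) {n : ℕ}
    (hn : PB V A F n) {X : Finset A} (hX : X ⊆ D.S) (hc : X.card + 2 ≤ n) (v : V) (i : Bool) :
    ∃ c : V → Bool, D.GoodOn X c ∧ c v = i := by
  obtain ⟨D', m, H⟩ := exists_del hD (D.S \ X)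
  obtain ⟨hS, hg, hnd⟩ := Sub_good hX H
  obtain ⟨c, h1, h2⟩ := col_one hn D' (by rw [hS]; exact hc) H.dual (hnd hN) (H.root s hs) v i
  exact ⟨c, hg c h1, h2⟩

end Dg

end NLC
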