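import Pool.Agent.NLC.Sub
import Pool.Agent.NLC.Rev

/-!
# NLC / SubR : colourings of subdigraphs, dead or live arc

If `l e = s` this is `sub_arc`.  If `r e = s`: apply `sub_arc` to `D.rv e` (`rv_dual`, `rv_simp`, `rv_rooted`; there
`l' e = r e = s`, `t' e = h e`, `h' e = t e`) with the colours `j, i`, and `rv_good`.
-/

set_option autoImplicit false

namespace NLC

open Finset Relation
open scoped Classical

variable {V A F : Type}

variable [Infinite V] [Infinite A] [Infinite F]

theorem Dg.sub_arc' {D : Dg V A F} (hD : D.Dual) (hS : D.Simp) {s : F} (hs : D.Rooted s) {e : A}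
    (hes : D.IncF e s) {n : ℕ} (hn : PB V A F n) {X : Finset A} (hX : X ⊆ D.S)
    (hc : X.card + 2 ≤ n) (he : e ∈ X) (i j : Bool) :
    ∃ c : V → Bool, D.GoodOn X c ∧ c (D.t e) = i ∧ c (D.h e) = j := by
  rcases hes with hl | hr
  · exact sub_arc hD hS.nodig (by rw [hl]; exact hs) hn hX hc he i j
  · have h1 : (D.rv e).t e = D.h e := by
      change Function.update D.t e (D.h e) e = D.h e
      rw [Function.update_self]
    have h2 : (D.rv e).h e = D.t e := by
      change Function.update D.h e (D.t e) e = D.t e
      rw [Function.update_self]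
    have h3 : (D.rv e).l e = D.r e := by
      change Function.update D.l e (D.r e) e = D.r e
      rw [Function.update_self]
    obtain ⟨c, c1, c2, c3⟩ := sub_arc (D := D.rv e) (rv_dual hD e) (rv_simp hS (hX he)).nodig
      (e := e) (by rw [h3, hr]; exact rv_rooted hs hr) hn (X := X) hX hc he j i
    rw [h1] at c2
    rw [h2] at c3
    exact ⟨c, rv_good hD hs (hX he) hr hX c1, c3, c2⟩

end NLC
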