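import Pool.Agent.NLC.SubR

/-!
# NLC / TriCol : precolouring a triangular outer face

`tri_dir`: exactly one of the three colours differs from the two others; rotate (`OutTri.rot`) such that the two
equal ones are at the ends of the middle arc.  `PB` gives a good `c` with this arc monochromatic; the third
vertex has the other colour (otherwise the triangle is a monochromatic cycle).  Flip if necessary.

`tri_non`: first case (`l e₁ = l e₂ = r e₃ = s`): `D' = D.rv e₃` has `OutTri s e₁ e₂ e₃` (`t' e₃ = w`, `h' e₃ = p`, `l' e₃ = s`;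
`only`, `nor` from `only` and, for `e₁, e₂`, `r e₁ ≠ s`, `r e₂ ≠ s`, `l e₃ ≠ s`: `side`); `rv_dual`, `rv_simp`, `rv_rooted`, and
`tri_dir` for the colours `i₁ i₂ i₃` of `p = t e₁`, `q = t e₂`, `w = t' e₃`; then `rv_good`.
Second case (`r e₁ = r e₂ = l e₃ = s`): `D' = (D.rv e₁).rv e₂` has `OutTri s e₃ e₂ e₁` (`e₃ : p → w`, `e₂ : w → q`,
`e₁ : q → p`); `tri_dir` and twice `rv_good`.
-/

set_option autoImplicit false

namespace NLC

open Finset Relation
open scoped Classical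

variable {V A F : Type}

namespace Dg

variable {D : Dg V A F} {s : F} {n : ℕ}

private theorem TriCol_ne {e a : A} (h : a ≠ e) : (D.rv e).t a = D.t a ∧
    (D.rv e).h a = D.h a ∧ (D.rv e).l a = D.l a ∧ (D.rv e).r a = D.r a :=
  ⟨Function.update_of_ne h _ _, Function.update_of_ne h _ _, Function.update_of_ne h _ _,
    Function.update_of_ne h _ _⟩

private theorem TriCol_self (e : A) : (D.rv e).t e = D.h e ∧ (D.rv e).h e = D.t e ∧
    (D.rv e).l e = D.r e ∧ (D.rv e).r e = D.l e := by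
  refine ⟨?_, ?_, ?_, ?_⟩
  · change Function.update D.t e (D.h e) e = D.h e
    rw [Function.update_self]
  · change Function.update D.h e (D.t e) e = D.t e
    rw [Function.update_self]
  · change Function.update D.l e (D.r e) e = D.r e
    rw [Function.update_self]
  · change Function.update D.r e (D.l e) e = D.l e
    rw [Function.update_self]

private theorem TriCol_aux (hn : PB V A F n) (hc : D.S.card ≤ n) (hD : D.Dual) (hN : D.NoDig)
    (hs : D.Rooted s) {α β γ : A} (ho : D.OutTri s α β γ) (i : Bool) :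
    ∃ c : V → Bool, D.Good c ∧ c (D.t α) = i ∧ c (D.t β) = !i ∧ c (D.t γ) = !i := by
  obtain ⟨c, hg, hβ⟩ := hn D s α β γ hc hD hN hs ho
  rw [ho.hβ] at hβ
  have hne : c (D.t α) ≠ c (D.t β) := by
    intro he
    have m1 : D.MS D.S c (D.t α) (D.t β) := ⟨α, ho.mα, rfl, ho.hα, he⟩
    have m2 : D.MS D.S c (D.t β) (D.t γ) := ⟨β, ho.mβ, rfl, ho.hβ, hβ⟩
    have m3 : D.MS D.S c (D.t γ) (D.t α) := ⟨γ, ho.mγ, rfl, ho.hγ, by rw [← hβ, he]⟩
    exact hg _ (((TransGen.single m1).tail m2).tail m3)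
  by_cases hi : c (D.t α) = i
  · refine ⟨c, hg, hi, ?_, ?_⟩
    · cases h1 : c (D.t α) <;> cases h2 : c (D.t β) <;> cases i <;> simp_all
    · cases h1 : c (D.t α) <;> cases h2 : c (D.t β) <;> cases i <;> simp_all
  · refine ⟨fun v => !(c v), hg.flip, ?_, ?_, ?_⟩
    · change (!(c (D.t α))) = i
      cases h1 : c (D.t α) <;> cases h2 : c (D.t β) <;> cases i <;> simp_all
    · change (!(c (D.t β))) = !i
      cases h1 : c (D.t α) <;> cases h2 : c (D.t β) <;> cases i <;> simp_all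
    · change (!(c (D.t γ))) = !i
      cases h1 : c (D.t α) <;> cases h2 : c (D.t β) <;> cases i <;> simp_all

theorem tri_dir (hn : PB V A F n) (hc : D.S.card ≤ n) (hD : D.Dual) (hN : D.NoDig)
    (hs : D.Rooted s) {e₁ e₂ e₃ : A} (ho : D.OutTri s e₁ e₂ e₃) (i₁ i₂ i₃ : Bool)
    (hi : ¬ (i₁ = i₂ ∧ i₂ = i₃)) :
    ∃ c : V → Bool, D.Good c ∧ c (D.t e₁) = i₁ ∧ c (D.t e₂) = i₂ ∧ c (D.t e₃) = i₃ := by
  by_cases h23 : i₂ = i₃
  · obtain ⟨c, c1, c2, c3, c4⟩ := TriCol_aux hn hc hD hN hs ho i₁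
    refine ⟨c, c1, c2, ?_, ?_⟩
    · rw [c3]
      cases i₁ <;> cases i₂ <;> cases i₃ <;> simp_all
    · rw [c4]
      cases i₁ <;> cases i₂ <;> cases i₃ <;> simp_all
  by_cases h31 : i₃ = i₁
  · obtain ⟨c, c1, c2, c3, c4⟩ := TriCol_aux hn hc hD hN hs ho.rot i₂
    refine ⟨c, c1, ?_, c2, ?_⟩
    · rw [c4]
      cases i₁ <;> cases i₂ <;> cases i₃ <;> simp_all
    · rw [c3]
      cases i₁ <;> cases i₂ <;> cases i₃ <;> simp_all
  · obtain ⟨c, c1, c2, c3, c4⟩ := TriCol_aux hn hc hD hN hs ho.rot.rot i₃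
    refine ⟨c, c1, ?_, ?_, c2⟩
    · rw [c3]
      cases i₁ <;> cases i₂ <;> cases i₃ <;> simp_all
    · rw [c4]
      cases i₁ <;> cases i₂ <;> cases i₃ <;> simp_all

/-- `e₁ : p → q`, `e₂ : q → w`, `e₃ : p → w` is a transitive triangle, `s` is one of its two sides, and no
other arc is incident with `s`. -/
structure OutTr (D : Dg V A F) (s : F) (e₁ e₂ e₃ : A) : Prop where
  m₁ : e₁ ∈ D.S
  m₂ : e₂ ∈ D.S
  m₃ : e₃ ∈ D.S
  h12 : D.h e₁ = D.t e₂
  ht : D.t e₃ = D.t e₁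
  hh : D.h e₃ = D.h e₂
  side : (D.l e₁ = s ∧ D.l e₂ = s ∧ D.r e₃ = s ∧ D.r e₁ ≠ s ∧ D.r e₂ ≠ s ∧ D.l e₃ ≠ s) ∨
    (D.r e₁ = s ∧ D.r e₂ = s ∧ D.l e₃ = s ∧ D.l e₁ ≠ s ∧ D.l e₂ ≠ s ∧ D.r e₃ ≠ s)
  only : ∀ x ∈ D.S, D.IncF x s → x = e₁ ∨ x = e₂ ∨ x = e₃

theorem tri_non (hn : PB V A F n) (hc : D.S.card ≤ n) (hD : D.Dual) (hS : D.Simp)
    (hs : D.Rooted s) {e₁ e₂ e₃ : A} (ho : D.OutTr s e₁ e₂ e₃) (i₁ i₂ i₃ : Bool)
    (hi : ¬ (i₁ = i₂ ∧ i₂ = i₃)) :
    ∃ c : V → Bool, D.Good c ∧ c (D.t e₁) = i₁ ∧ c (D.t e₂) = i₂ ∧ c (D.h e₂) = i₃ := by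
  rcases ho.side with ⟨l1, l2, r3, r1, r2, l3⟩ | ⟨r1, r2, l3, l1, l2, r3⟩
  · have h13 : e₁ ≠ e₃ := fun h => l3 (by rw [← h, l1])
    have h23 : e₂ ≠ e₃ := fun h => l3 (by rw [← h, l2])
    obtain ⟨a1, a2, a3, a4⟩ := TriCol_ne (D := D) h13
    obtain ⟨b1, b2, b3, b4⟩ := TriCol_ne (D := D) h23
    obtain ⟨c1, c2, c3, c4⟩ := TriCol_self (D := D) e₃
    have hout : (D.rv e₃).OutTri s e₁ e₂ e₃ :=
      { mα := ho.m₁
        mβ := ho.m₂
        mγ := ho.m₃
        hα := by rw [a2, b1, ho.h12]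
        hβ := by rw [b2, c1, ho.hh]
        hγ := by rw [c2, a1, ho.ht]
        lα := by rw [a3, l1]
        lβ := by rw [b3, l2]
        lγ := by rw [c3, r3]
        only := fun x hx hl => by
          by_cases hx3 : x = e₃
          · exact Or.inr (Or.inr hx3)
          · rw [(TriCol_ne (D := D) hx3).2.2.1] at hl
            exact ho.only x hx (Or.inl hl)
        nor := fun x hx hr => by
          by_cases hx3 : x = e₃
          · rw [hx3, c4] at hr
            exact l3 hr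
          · rw [(TriCol_ne (D := D) hx3).2.2.2] at hr
            rcases ho.only x hx (Or.inr hr) with h | h | h
            · exact r1 (by rw [← h, hr])
            · exact r2 (by rw [← h, hr])
            · exact hx3 h }
    obtain ⟨c, g, k1, k2, k3⟩ := tri_dir (D := D.rv e₃) hn hc (rv_dual hD e₃)
      (rv_simp hS ho.m₃).nodig (rv_rooted hs r3) hout i₁ i₂ i₃ hi
    rw [a1] at k1
    rw [b1] at k2
    rw [c1, ho.hh] at k3
    exact ⟨c, rv_good hD hs ho.m₃ r3 (Subset.refl _) g, k1, k2, k3⟩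
  · have h12 : e₁ ≠ e₂ := fun h => hS.nodig.loop ho.m₁ (by rw [ho.h12, ← h])
    have h13 : e₁ ≠ e₃ := fun h => l1 (by rw [h, l3])
    have h23 : e₂ ≠ e₃ := fun h => l2 (by rw [h, l3])
    obtain ⟨a1, a2, a3, a4⟩ := TriCol_self (D := D) e₁
    obtain ⟨b1, b2, b3, b4⟩ := TriCol_ne (D := D) h12.symm
    obtain ⟨c1, c2, c3, c4⟩ := TriCol_ne (D := D) h13.symm
    obtain ⟨a1', a2', a3', a4'⟩ := TriCol_ne (D := D.rv e₁) h12
    obtain ⟨b1', b2', b3', b4'⟩ := TriCol_self (D := D.rv e₁) e₂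
    obtain ⟨c1', c2', c3', c4'⟩ := TriCol_ne (D := D.rv e₁) h23.symm
    rw [a1] at a1'
    rw [a2] at a2'
    rw [a3] at a3'
    rw [a4] at a4'
    rw [b2] at b1'
    rw [b1] at b2'
    rw [b4] at b3'
    rw [b3] at b4'
    rw [c1] at c1'
    rw [c2] at c2'
    rw [c3] at c3'
    rw [c4] at c4'
    have hout : ((D.rv e₁).rv e₂).OutTri s e₃ e₂ e₁ :=
      { mα := ho.m₃
        mβ := ho.m₂
        mγ := ho.m₁
        hα := by rw [c2', b1', ho.hh]
        hβ := by rw [b2', a1', ho.h12]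
        hγ := by rw [a2', c1', ho.ht]
        lα := by rw [c3', l3]
        lβ := by rw [b3', r2]
        lγ := by rw [a3', r1]
        only := fun x hx hl => by
          by_cases hx2 : x = e₂
          · exact Or.inr (Or.inl hx2)
          · rw [(TriCol_ne (D := D.rv e₁) hx2).2.2.1] at hl
            by_cases hx1 : x = e₁
            · exact Or.inr (Or.inr hx1)
            · rw [(TriCol_ne (D := D) hx1).2.2.1] at hl
              rcases ho.only x hx (Or.inl hl) with h | h | h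
              · exact absurd h hx1
              · exact absurd h hx2
              · exact Or.inl h
        nor := fun x hx hr => by
          by_cases hx2 : x = e₂
          · rw [hx2, b4'] at hr
            exact l2 hr
          · rw [(TriCol_ne (D := D.rv e₁) hx2).2.2.2] at hr
            by_cases hx1 : x = e₁
            · rw [hx1, a4] at hr
              exact l1 hr
            · rw [(TriCol_ne (D := D) hx1).2.2.2] at hr
              rcases ho.only x hx (Or.inr hr) with h | h | h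
              · exact hx1 h
              · exact hx2 h
              · exact r3 (by rw [← h, hr]) }
    have hD1 := rv_dual hD e₁
    have hS1 := rv_simp hS ho.m₁
    have hs1 : (D.rv e₁).Rooted s := rv_rooted hs r1
    have hr2 : (D.rv e₁).r e₂ = s := by rw [b4, r2]
    obtain ⟨c, g, k1, k2, k3⟩ := tri_dir (D := (D.rv e₁).rv e₂) hn hc (rv_dual hD1 e₂)
      (rv_simp (D := D.rv e₁) hS1 ho.m₂).nodig (rv_rooted hs1 hr2) hout i₁ i₃ i₂
      (fun h => hi ⟨h.1.trans h.2, h.2.symm⟩)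
    rw [c1', ho.ht] at k1
    rw [b1'] at k2
    rw [a1', ho.h12] at k3
    have g1 : (D.rv e₁).GoodOn D.S c :=
      rv_good (D := D.rv e₁) hD1 hs1 (e := e₂) ho.m₂ hr2 (Subset.refl _) g
    exact ⟨c, rv_good hD hs ho.m₁ r1 (Subset.refl _) g1, k1, k3, k2⟩

end Dg

end NLC
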