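import Pool.Agent.NLC.TriCol
import Pool.Agent.NLC.Glue

/-!
# NLC / TriConst : constant precolouring of a transitive outer triangle

Let `p = t e₁ = t e₃`, `q = t e₂ = h e₁`, `w = h e₂ = h e₃` (distinct, no loops, no digons).
(1) There is no path from `w` to `p`.  If `r e₃ = s` this is `dead` for `e₃`.  Otherwise `r e₁ = r e₂ = s`; a path from `w` to
`p` together with `e₂ : q → w` is a path from `q = h e₁` to `p = t e₁`: contradiction to `dead` for `e₁`.
(2) Let `U v ↔ ReflTransGen D.VStep w v`; so `U w`, `¬ U p`.  No arc goes from `U` to outside of `U`.  Let `X₁` be the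
arcs with both ends in `U` and `X₂` the arcs with no end in `U`.  An arc `a` in neither goes from outside of `U` into
`U` and is not on a directed cycle (`¬ ReflTransGen D.VStep (h a) (t a)`).  `X₁` does not contain `e₁, e₃` (`¬ U p`), `X₂` does
not contain `e₂, e₃` (`U w`), so both have at most `D.S.card - 2` arcs.
(3) If `U q`: `e₂ ∈ X₁`; `sub_arc'` for `X₁, e₂` with colours `i, i` gives `c₁`; `sub_one` for `X₂`, `p` gives `c₂` with
`c₂ p = i`.  If `¬ U q`: `e₁ ∈ X₂`; `sub_arc'` for `X₂, e₁` gives `c₂` with `c₂ p = c₂ q = i`; `sub_one` for `X₁`, `w`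
gives `c₁` with `c₁ w = i`.
(4) `c v = if U v then c₁ v else c₂ v`.  It is good on `X₁ ∪ X₂` (`glueD`: no vertex is incident with `X₁` and `X₂`) and so
good by `good_of_noncyc`.
-/

set_option autoImplicit false

namespace NLC

open Finset Relation
open scoped Classical

variable {V A F : Type}

variable [Infinite V] [Infinite A] [Infinite F]

omit [Infinite A] in
private theorem TriConst_card {S X : Finset A} {a b : A} (hX : X ⊆ S) (ha : a ∈ S) (hb : b ∈ S)
    (hab : a ≠ b) (hXa : a ∉ X) (hXb : b ∉ X) : X.card + 2 ≤ S.card := by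
  have h1 : insert a (insert b X) ⊆ S := by
    intro x hx
    simp only [Finset.mem_insert] at hx
    rcases hx with rfl | rfl | hx
    · exact ha
    · exact hb
    · exact hX hx
  have h2 : (insert a (insert b X)).card = X.card + 2 := by
    rw [Finset.card_insert_of_notMem, Finset.card_insert_of_notMem hXb]
    rw [Finset.mem_insert]
    rintro (h3 | h3)
    · exact hab h3
    · exact hXa h3
  rw [← h2]
  exact Finset.card_le_card h1

theorem Dg.tri_const {D : Dg V A F} {s : F} {n : ℕ} (hn : PB V A F n) (hc : D.S.card ≤ n)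
    (hD : D.Dual) (hS : D.Simp) (hs : D.Rooted s) {e₁ e₂ e₃ : A} (ho : D.OutTr s e₁ e₂ e₃)
    (i : Bool) :
    ∃ c : V → Bool, D.Good c ∧ c (D.t e₁) = i ∧ c (D.t e₂) = i ∧ c (D.h e₂) = i := by
  have n13 : e₁ ≠ e₃ := by
    intro h1
    have h2 : D.h e₁ = D.h e₂ := by rw [h1, ho.hh]
    exact hS.nodig.loop ho.m₂ (ho.h12.symm.trans h2)
  have n23 : e₂ ≠ e₃ := by
    intro h1
    have h2 : D.t e₂ = D.t e₁ := by rw [h1, ho.ht]
    exact hS.nodig.loop ho.m₁ (h2.symm.trans ho.h12.symm)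
  have hwp : ¬ ReflTransGen D.VStep (D.h e₂) (D.t e₁) := by
    rcases ho.side with ⟨_, _, h3, _⟩ | ⟨h1, _, _, _⟩
    · have := Dg.dead hD hs ho.m₃ h3
      rw [ho.hh, ho.ht] at this
      exact this
    · intro h2
      have h3 := Dg.dead hD hs ho.m₁ h1
      apply h3
      rw [ho.h12]
      exact ReflTransGen.head (Dg.VStep.of_mem ho.m₂) h2
  have i1 : D.IncF e₁ s := by
    rcases ho.side with ⟨h1, _⟩ | ⟨h1, _⟩
    · exact Or.inl h1
    · exact Or.inr h1
  have i2 : D.IncF e₂ s := by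
    rcases ho.side with ⟨_, h1, _⟩ | ⟨_, h1, _⟩
    · exact Or.inl h1
    · exact Or.inr h1
  set U : V → Prop := fun v => ReflTransGen D.VStep (D.h e₂) v with hU
  have hUw : U (D.h e₂) := ReflTransGen.refl
  have hUth : ∀ a ∈ D.S, U (D.t a) → U (D.h a) := fun a ha h1 =>
    ReflTransGen.tail h1 (Dg.VStep.of_mem ha)
  set X₁ := D.S.filter (fun a => U (D.t a) ∧ U (D.h a)) with hX₁
  set X₂ := D.S.filter (fun a => ¬ U (D.t a) ∧ ¬ U (D.h a)) with hX₂
  have s1 : X₁ ⊆ D.S := Finset.filter_subset _ _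
  have s2 : X₂ ⊆ D.S := Finset.filter_subset _ _
  have m1 : ∀ a, a ∈ X₁ → U (D.t a) ∧ U (D.h a) := fun a ha => (Finset.mem_filter.mp ha).2
  have m2 : ∀ a, a ∈ X₂ → ¬ U (D.t a) ∧ ¬ U (D.h a) := fun a ha => (Finset.mem_filter.mp ha).2
  have c1 : X₁.card + 2 ≤ n :=
    (TriConst_card s1 ho.m₁ ho.m₃ n13 (fun h1 => hwp (m1 _ h1).1)
      (fun h1 => hwp (by have := (m1 _ h1).1; rw [ho.ht] at this; exact this))).trans hc
  have c2 : X₂.card + 2 ≤ n :=
    (TriConst_card s2 ho.m₂ ho.m₃ n23 (fun h1 => (m2 _ h1).2 hUw)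
      (fun h1 => (m2 _ h1).2 (by rw [ho.hh]))).trans hc
  have inc1 : ∀ v, (∃ a ∈ X₁, D.Inc a v) → U v := by
    rintro v ⟨a, ha, h1 | h1⟩
    · rw [← h1]; exact (m1 a ha).1
    · rw [← h1]; exact (m1 a ha).2
  have inc2 : ∀ v, (∃ a ∈ X₂, D.Inc a v) → ¬ U v := by
    rintro v ⟨a, ha, h1 | h1⟩
    · rw [← h1]; exact (m2 a ha).1
    · rw [← h1]; exact (m2 a ha).2
  -- gluing
  have key : ∀ c₁ c₂ : V → Bool, D.GoodOn X₁ c₁ → D.GoodOn X₂ c₂ →
      D.Good (fun v => if U v then c₁ v else c₂ v) := by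
    intro c₁ c₂ g1 g2
    have g3 : D.GoodOn (X₁ ∪ X₂) (fun v => if U v then c₁ v else c₂ v) :=
      Dg.glueD g1 g2 (fun v hv => if_pos (inc1 v hv)) (fun v hv => if_neg (inc2 v hv))
        (fun p q _ p1 p2 _ _ _ => absurd (inc1 p p1) (inc2 p p2))
    refine Dg.good_of_noncyc (Finset.Subset.refl _) g3 ?_
    intro a ha
    by_cases h1 : U (D.t a)
    · left
      exact Finset.mem_union_left _ (Finset.mem_filter.mpr ⟨ha, h1, hUth a ha h1⟩)
    · by_cases h2 : U (D.h a)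
      · right
        intro h3
        exact h1 (ReflTransGen.trans h2 h3)
      · left
        exact Finset.mem_union_right _ (Finset.mem_filter.mpr ⟨ha, h1, h2⟩)
  by_cases hUq : U (D.t e₂)
  · obtain ⟨c₁, g1, a1, a2⟩ := Dg.sub_arc' hD hS hs i2 hn s1 c1
      (Finset.mem_filter.mpr ⟨ho.m₂, hUq, hUw⟩) i i
    obtain ⟨c₂, g2, b1⟩ := Dg.sub_one hD hS.nodig hs hn s2 c2 (D.t e₁) i
    refine ⟨_, key c₁ c₂ g1 g2, ?_, ?_, ?_⟩
    · rw [← b1]
      exact if_neg hwp
    · rw [← a1]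
      exact if_pos hUq
    · rw [← a2]
      exact if_pos hUw
  · have hUq' : ¬ U (D.h e₁) := by rw [ho.h12]; exact hUq
    obtain ⟨c₂, g2, a1, a2⟩ := Dg.sub_arc' hD hS hs i1 hn s2 c2
      (Finset.mem_filter.mpr ⟨ho.m₁, hwp, hUq'⟩) i i
    obtain ⟨c₁, g1, b1⟩ := Dg.sub_one hD hS.nodig hs hn s1 c1 (D.h e₂) i
    refine ⟨_, key c₁ c₂ g1 g2, ?_, ?_, ?_⟩
    · rw [← a1]
      exact if_neg hwp
    · rw [ho.h12] at a2
      rw [← a2]
      exact if_neg hUq
    · rw [← b1]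
      exact if_pos hUw

end NLC
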