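import Pool.Agent.NLC.Inner
import Pool.Agent.NLC.Star

/-!
# NLC / TriGlue : no triangle has arcs on both sides

General: `e₁, e₂, e₃ ∈ D.S` distinct, pairwise adjacent, with the three vertices `p, q, w`; `c₀` a vector which vanishes
exactly off the three arcs, `D.Side s c₀ Y σ`.  `X₁ = D.S.filter (in the triangle or ¬ Y (l a))`,
`X₂ = D.S.filter (in the triangle or Y (l a))`, `X₁ ∪ X₂ = D.S`.
`glue_core`: `c₁` good on `X₁`, `c₂` good on `X₂`, equal at `p, q, w`, then there is a good `c` which agrees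
with `c₁` on all vertices incident with `X₁`.  Proof: `c v = if (∃ a ∈ X₁, D.Inc a v) then c₁ v else c₂ v`.  A vertex `v`
incident with both `X₁` and `X₂` is one of `p, q, w`: otherwise the arcs at `v` are not in the triangle, so they have
`Y (l a) ↔ Y (r a)` (`Side.eq`, `c₀ a = 0`), and `MinC.sep` gives a contradiction.  So `c = c₂` on the vertices incident with
`X₂`.  `glueD`: for `P ≠ Q` both incident with `X₁` and `X₂` there is an arc of the triangle joining them, in `X₁ ∩ X₂`.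
If it goes from `Q` to `P` then with the path in `X₂` it gives a monochromatic cycle of `c₂`: contradiction (the colours
of `P` and `Q` agree because of the path).  So it goes from `P` to `Q`: one step in `X₁`.

`not_both_dir`: suppose `a₁` (not in the triangle) has `Y (l a₁)` and `a₂` (not in the triangle) has `¬ Y (l a₂)`.  The outer
arcs have `l = s`, `¬ Y s`, so they are in `X₁`; `a₁ ∉ X₁`.  `sub_ext` gives `c₁` with `c₁ (t β) = c₁ (h β)`; the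
colours `c₁ (t e_i)` are not all equal (the triangle would be a monochromatic cycle).  `inner_dir` with these colours
(`a₂ ∉ X₂`) gives `c₂`; `glue_core` gives a contradiction to `h.bad` (`β ∈ X₁`).  `not_both_tr` is the same with
`inner_tr`.
-/

set_option autoImplicit false

namespace NLC

open Finset Relation
open scoped Classical

variable {V A F : Type}

variable [Infinite V] [Infinite A] [Infinite F]

namespace MinC

variable {D : Dg V A F} {s : F} {α β γ : A}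

private theorem TriGlue_col {X : Finset A} {c : V → Bool} {u v : V}
    (h : TransGen (D.MS X c) u v) : c u = c v := by
  induction h with
  | single h => obtain ⟨_, _, _, _, h⟩ := h; exact h
  | tail _ h ih => obtain ⟨_, _, _, _, h⟩ := h; exact ih.trans h

private theorem TriGlue_core (h : MinC D s α β γ) (T : A → Prop) (m : ∀ e, T e → e ∈ D.S)
    {c₀ : A → ℚ} (hsup : ∀ a ∈ D.S, ¬ T a → c₀ a = 0) {Y : F → Prop} {σ : ℚ}
    (hY : D.Side s c₀ Y σ)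
    (adj : ∀ p q, p ≠ q → (∃ e, T e ∧ D.Inc e p) → (∃ e, T e ∧ D.Inc e q) →
      ∃ e, T e ∧ ((D.t e = p ∧ D.h e = q) ∨ (D.t e = q ∧ D.h e = p)))
    {X₁ X₂ : Finset A} (hX₁ : ∀ a, a ∈ X₁ ↔ a ∈ D.S ∧ (T a ∨ ¬ Y (D.l a)))
    (hX₂ : ∀ a, a ∈ X₂ ↔ a ∈ D.S ∧ (T a ∨ Y (D.l a)))
    {c₁ c₂ : V → Bool} (g1 : D.GoodOn X₁ c₁) (g2 : D.GoodOn X₂ c₂)
    (agree : ∀ v, (∃ e, T e ∧ D.Inc e v) → c₁ v = c₂ v) :
    ∃ c : V → Bool, D.Good c ∧ ∀ v, (∃ a ∈ X₁, D.Inc a v) → c v = c₁ v := by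
  have hYe : ∀ a ∈ D.S, ¬ T a → (Y (D.l a) ↔ Y (D.r a)) := by
    intro a ha hT
    have h1 := hY.eq a ha
    rw [hsup a ha hT, mul_zero] at h1
    by_cases y1 : Y (D.l a)
    · by_cases y2 : Y (D.r a)
      · exact iff_of_true y1 y2
      · rw [if_pos y1, if_neg y2] at h1
        norm_num at h1
    · by_cases y2 : Y (D.r a)
      · rw [if_neg y1, if_pos y2] at h1
        norm_num at h1
      · exact iff_of_false y1 y2
  have key : ∀ v, (∃ a ∈ X₁, D.Inc a v) →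
      (∃ a ∈ X₂, D.Inc a v) → ∃ e, T e ∧ D.Inc e v := by
    rintro v ⟨a, ha, hav⟩ ⟨b, hb, hbv⟩
    by_contra hcon
    push Not at hcon
    obtain ⟨ha1, ha2⟩ := (hX₁ a).1 ha
    obtain ⟨hb1, hb2⟩ := (hX₂ b).1 hb
    have ha3 : ¬ Y (D.l a) := by
      rcases ha2 with h1 | h1
      · exact absurd hav (hcon a h1)
      · exact h1
    have hb3 : Y (D.l b) := by
      rcases hb2 with h1 | h1
      · exact absurd hbv (hcon b h1)
      · exact h1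
    exact h.sep Y v (fun x hx hxv => hYe x hx (fun hT => hcon x hT hxv)) hb1 ha1 hbv hav hb3 ha3
  set c : V → Bool := fun v =>
    if (∃ a ∈ X₁, D.Inc a v) then c₁ v else c₂ v with hc
  have e1 : ∀ v, (∃ a ∈ X₁, D.Inc a v) → c v = c₁ v := by
    intro v hv
    simp only [hc]
    rw [if_pos hv]
  have e2 : ∀ v, (∃ a ∈ X₂, D.Inc a v) → c v = c₂ v := by
    intro v hv
    by_cases h1 : ∃ a ∈ X₁, D.Inc a v
    · rw [e1 v h1]
      exact agree v (key v h1 hv)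
    · simp only [hc]
      rw [if_neg h1]
  have hg := Dg.glueD g1 g2 e1 e2 (by
    intro p q hpq p1 p2 q1 q2 htr
    obtain ⟨e, hTe, he⟩ := adj p q hpq (key p p1 p2) (key q q1 q2)
    have hcol := TriGlue_col htr
    rcases he with ⟨h1, h2⟩ | ⟨h1, h2⟩
    · exact TransGen.single ⟨e, (hX₁ e).2 ⟨m e hTe, Or.inl hTe⟩, h1, h2, hcol⟩
    · exfalso
      have h3 : TransGen (D.MS X₂ c) p p :=
        htr.tail ⟨e, (hX₂ e).2 ⟨m e hTe, Or.inl hTe⟩, h1, h2, hcol.symm⟩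
      refine g2 p (TransGen.mono ?_ p p h3)
      rintro u w ⟨a, ha, hu, hw, hcc⟩
      refine ⟨a, ha, hu, hw, ?_⟩
      rw [← e2 u ⟨a, ha, Or.inl hu⟩, ← e2 w ⟨a, ha, Or.inr hw⟩]
      exact hcc)
  refine ⟨c, ?_, e1⟩
  have hU : X₁ ∪ X₂ = D.S := by
    ext a
    rw [mem_union, hX₁, hX₂]
    constructor
    · rintro (h1 | h1) <;> exact h1.1
    · intro ha
      by_cases hy : Y (D.l a)
      · exact Or.inr ⟨ha, Or.inr hy⟩
      · exact Or.inl ⟨ha, Or.inr hy⟩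
  rw [hU] at hg
  exact hg

theorem not_both_dir (h : MinC D s α β γ) {e₁ e₂ e₃ : A} (m₁ : e₁ ∈ D.S) (m₂ : e₂ ∈ D.S)
    (m₃ : e₃ ∈ D.S) (h12 : D.h e₁ = D.t e₂) (h23 : D.h e₂ = D.t e₃) (h31 : D.h e₃ = D.t e₁)
    {Y : F → Prop} {σ : ℚ}
    (hY : D.Side s (fun a => if a = e₁ ∨ a = e₂ ∨ a = e₃ then 1 else 0) Y σ)
    {a₁ a₂ : A} (ha₁ : a₁ ∈ D.S) (ha₂ : a₂ ∈ D.S) (hn₁ : ¬ (a₁ = e₁ ∨ a₁ = e₂ ∨ a₁ = e₃))
    (hn₂ : ¬ (a₂ = e₁ ∨ a₂ = e₂ ∨ a₂ = e₃)) (hY₁ : Y (D.l a₁)) (hY₂ : ¬ Y (D.l a₂)) : False := by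
  have ho := h.out
  have hX1 : (D.S.filter (fun a => (a = e₁ ∨ a = e₂ ∨ a = e₃) ∨ ¬ Y (D.l a))).card ≤
      D.S.card - 1 := by
    have : (D.S.filter (fun a => (a = e₁ ∨ a = e₂ ∨ a = e₃) ∨ ¬ Y (D.l a))).card < D.S.card := by
      refine card_lt_card ⟨filter_subset _ _, fun hsub => ?_⟩
      rcases (mem_filter.1 (hsub ha₁)).2 with h1 | h1
      · exact hn₁ h1
      · exact h1 hY₁
    omega
  have hmem : ∀ x ∈ D.S, D.l x = s →
      x ∈ D.S.filter (fun a => (a = e₁ ∨ a = e₂ ∨ a = e₃) ∨ ¬ Y (D.l a)) := fun x hx hl =>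
    mem_filter.2 ⟨hx, Or.inr (by rw [hl]; exact hY.ns)⟩
  obtain ⟨c₁, hc₁, hcb⟩ := Dg.sub_ext h.dual h.nodig h.rooted ho h.ih' (filter_subset _ _) hX1
    (hmem α ho.mα ho.lα) (hmem β ho.mβ ho.lβ) (hmem γ ho.mγ ho.lγ)
  have hne : D.S.filter (fun a => (a = e₁ ∨ a = e₂ ∨ a = e₃) ∨ Y (D.l a)) ≠ D.S := by
    intro heq
    rw [← heq] at ha₂
    rcases (mem_filter.1 ha₂).2 with h1 | h1
    · exact hn₂ h1
    · exact hY₂ h1
  have hii : ¬ (c₁ (D.t e₁) = c₁ (D.t e₂) ∧ c₁ (D.t e₂) = c₁ (D.t e₃)) := by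
    rintro ⟨i1, i2⟩
    refine hc₁ (D.t e₁) ?_
    refine TransGen.head (b := D.t e₂) ⟨e₁, mem_filter.2 ⟨m₁, Or.inl (Or.inl rfl)⟩, rfl, h12, i1⟩ ?_
    refine TransGen.head (b := D.t e₃)
      ⟨e₂, mem_filter.2 ⟨m₂, Or.inl (Or.inr (Or.inl rfl))⟩, rfl, h23, i2⟩ ?_
    exact TransGen.single
      ⟨e₃, mem_filter.2 ⟨m₃, Or.inl (Or.inr (Or.inr rfl))⟩, rfl, h31, (i1.trans i2).symm⟩
  obtain ⟨c₂, hc₂, k1, k2, k3⟩ := h.inner_dir m₁ m₂ m₃ h12 h23 h31 hY rfl hne _ _ _ hii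
  have hvert : ∀ v, (∃ e, (e = e₁ ∨ e = e₂ ∨ e = e₃) ∧ D.Inc e v) →
      v = D.t e₁ ∨ v = D.t e₂ ∨ v = D.t e₃ := by
    rintro v ⟨e, he, hi⟩
    clear hc₁ hc₂ k1 k2 k3
    rcases he with rfl | rfl | rfl
    · rcases hi with hi | hi
      · exact Or.inl hi.symm
      · right; left; rw [← hi, h12]
    · rcases hi with hi | hi
      · exact Or.inr (Or.inl hi.symm)
      · right; right; rw [← hi, h23]
    · rcases hi with hi | hi
      · exact Or.inr (Or.inr hi.symm)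
      · left; rw [← hi, h31]
  obtain ⟨c, hcg, hce⟩ := TriGlue_core h (fun a => a = e₁ ∨ a = e₂ ∨ a = e₃) (by
      rintro e (rfl | rfl | rfl)
      · exact m₁
      · exact m₂
      · exact m₃) (by
      intro a _ hT
      show (if a = e₁ ∨ a = e₂ ∨ a = e₃ then (1 : ℚ) else 0) = 0
      rw [if_neg hT]) hY (by
      intro p q hpq hp hq
      rcases hvert p hp with rfl | rfl | rfl <;> rcases hvert q hq with rfl | rfl | rfl
      · exact absurd rfl hpq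
      · exact ⟨e₁, Or.inl rfl, Or.inl ⟨rfl, h12⟩⟩
      · exact ⟨e₃, Or.inr (Or.inr rfl), Or.inr ⟨rfl, h31⟩⟩
      · exact ⟨e₁, Or.inl rfl, Or.inr ⟨rfl, h12⟩⟩
      · exact absurd rfl hpq
      · exact ⟨e₂, Or.inr (Or.inl rfl), Or.inl ⟨rfl, h23⟩⟩
      · exact ⟨e₃, Or.inr (Or.inr rfl), Or.inl ⟨rfl, h31⟩⟩
      · exact ⟨e₂, Or.inr (Or.inl rfl), Or.inr ⟨rfl, h23⟩⟩
      · exact absurd rfl hpq) (fun a => mem_filter) (fun a => mem_filter) hc₁ hc₂ (by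
      intro v hv
      rcases hvert v hv with rfl | rfl | rfl
      · exact k1.symm
      · exact k2.symm
      · exact k3.symm)
  refine h.bad ⟨c, hcg, ?_⟩
  rw [hce (D.t β) ⟨β, hmem β ho.mβ ho.lβ, Or.inl rfl⟩,
    hce (D.h β) ⟨β, hmem β ho.mβ ho.lβ, Or.inr rfl⟩]
  exact hcb

theorem not_both_tr (h : MinC D s α β γ) {e₁ e₂ e₃ : A} (m₁ : e₁ ∈ D.S) (m₂ : e₂ ∈ D.S)
    (m₃ : e₃ ∈ D.S) (h12 : D.h e₁ = D.t e₂) (ht : D.t e₃ = D.t e₁) (hh : D.h e₃ = D.h e₂)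
    {Y : F → Prop} {σ : ℚ}
    (hY : D.Side s (fun a => if a = e₁ ∨ a = e₂ then 1 else if a = e₃ then -1 else 0) Y σ)
    {a₁ a₂ : A} (ha₁ : a₁ ∈ D.S) (ha₂ : a₂ ∈ D.S) (hn₁ : ¬ (a₁ = e₁ ∨ a₁ = e₂ ∨ a₁ = e₃))
    (hn₂ : ¬ (a₂ = e₁ ∨ a₂ = e₂ ∨ a₂ = e₃)) (hY₁ : Y (D.l a₁)) (hY₂ : ¬ Y (D.l a₂)) : False := by
  have ho := h.out
  have hX1 : (D.S.filter (fun a => (a = e₁ ∨ a = e₂ ∨ a = e₃) ∨ ¬ Y (D.l a))).card ≤
      D.S.card - 1 := by
    have : (D.S.filter (fun a => (a = e₁ ∨ a = e₂ ∨ a = e₃) ∨ ¬ Y (D.l a))).card < D.S.card := by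
      refine card_lt_card ⟨filter_subset _ _, fun hsub => ?_⟩
      rcases (mem_filter.1 (hsub ha₁)).2 with h1 | h1
      · exact hn₁ h1
      · exact h1 hY₁
    omega
  have hmem : ∀ x ∈ D.S, D.l x = s →
      x ∈ D.S.filter (fun a => (a = e₁ ∨ a = e₂ ∨ a = e₃) ∨ ¬ Y (D.l a)) := fun x hx hl =>
    mem_filter.2 ⟨hx, Or.inr (by rw [hl]; exact hY.ns)⟩
  obtain ⟨c₁, hc₁, hcb⟩ := Dg.sub_ext h.dual h.nodig h.rooted ho h.ih' (filter_subset _ _) hX1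
    (hmem α ho.mα ho.lα) (hmem β ho.mβ ho.lβ) (hmem γ ho.mγ ho.lγ)
  have hne : D.S.filter (fun a => (a = e₁ ∨ a = e₂ ∨ a = e₃) ∨ Y (D.l a)) ≠ D.S := by
    intro heq
    rw [← heq] at ha₂
    rcases (mem_filter.1 ha₂).2 with h1 | h1
    · exact hn₂ h1
    · exact hY₂ h1
  obtain ⟨c₂, hc₂, k1, k2, k3⟩ := h.inner_tr m₁ m₂ m₃ h12 ht hh hY rfl hne
    (c₁ (D.t e₁)) (c₁ (D.t e₂)) (c₁ (D.h e₂))
  have hvert : ∀ v, (∃ e, (e = e₁ ∨ e = e₂ ∨ e = e₃) ∧ D.Inc e v) →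
      v = D.t e₁ ∨ v = D.t e₂ ∨ v = D.h e₂ := by
    rintro v ⟨e, he, hi⟩
    clear hc₁ hc₂ k1 k2 k3
    rcases he with rfl | rfl | rfl
    · rcases hi with hi | hi
      · exact Or.inl hi.symm
      · right; left; rw [← hi, h12]
    · rcases hi with hi | hi
      · exact Or.inr (Or.inl hi.symm)
      · exact Or.inr (Or.inr hi.symm)
    · rcases hi with hi | hi
      · left; rw [← hi, ht]
      · right; right; rw [← hi, hh]
  obtain ⟨c, hcg, hce⟩ := TriGlue_core h (fun a => a = e₁ ∨ a = e₂ ∨ a = e₃) (by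
      rintro e (rfl | rfl | rfl)
      · exact m₁
      · exact m₂
      · exact m₃) (by
      intro a _ hT
      show (if a = e₁ ∨ a = e₂ then (1 : ℚ) else if a = e₃ then -1 else 0) = 0
      push Not at hT
      rw [if_neg (by simp [hT.1, hT.2.1]), if_neg hT.2.2]) hY (by
      intro p q hpq hp hq
      rcases hvert p hp with rfl | rfl | rfl <;> rcases hvert q hq with rfl | rfl | rfl
      · exact absurd rfl hpq
      · exact ⟨e₁, Or.inl rfl, Or.inl ⟨rfl, h12⟩⟩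
      · exact ⟨e₃, Or.inr (Or.inr rfl), Or.inl ⟨ht, hh⟩⟩
      · exact ⟨e₁, Or.inl rfl, Or.inr ⟨rfl, h12⟩⟩
      · exact absurd rfl hpq
      · exact ⟨e₂, Or.inr (Or.inl rfl), Or.inl ⟨rfl, rfl⟩⟩
      · exact ⟨e₃, Or.inr (Or.inr rfl), Or.inr ⟨ht, hh⟩⟩
      · exact ⟨e₂, Or.inr (Or.inl rfl), Or.inr ⟨rfl, rfl⟩⟩
      · exact absurd rfl hpq) (fun a => mem_filter) (fun a => mem_filter) hc₁ hc₂ (by
      intro v hv
      rcases hvert v hv with rfl | rfl | rfl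
      · exact k1.symm
      · exact k2.symm
      · exact k3.symm)
  refine h.bad ⟨c, hcg, ?_⟩
  rw [hce (D.t β) ⟨β, hmem β ho.mβ ho.lβ, Or.inl rfl⟩,
    hce (D.h β) ⟨β, hmem β ho.mβ ho.lβ, Or.inr rfl⟩]
  exact hcb

end MinC

end NLC
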